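import Pool.Agent.Helper68.SP

/-!
A calculus of unary polynomial time functions: stack programs on seven stacks, one holding the
input word, one an evaluation stack of numbers in unary, one the output.
-/

set_option autoImplicit false

namespace Pool.Agent.Helper68.Calc

open SP Finset

/-- The working stacks. -/
inductive B6 : Type
  | inp | jnp | e | r | a | b
  deriving DecidableEq

instance : Fintype B6 := ⟨{.inp, .jnp, .e, .r, .a, .b}, by intro x; cases x <;> simp⟩

/-- The alphabets of the stacks: the stack `none` is the output stack. -/
@[reducible] def Γ : Option B6 → Type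
  | none => Computability.Γ'
  | some _ => Bool

/-- Programs. -/
abbrev P := Prog Γ

/-- States. -/
abbrev St := ∀ k, List (Γ k)

/-- The state with the given stacks. -/
def st (i j e r a b : List Bool) (o : List Computability.Γ') : St
  | some .inp => i
  | some .jnp => j
  | some .e => e
  | some .r => r
  | some .a => a
  | some .b => b
  | none => o

variable {i j e r a b x : List Bool} {o y : List Computability.Γ'}

@[simp] theorem upd_inp : Function.update (st i j e r a b o) (some .inp) x = st x j e r a b o := by
  funext k; rcases k with _ | k
  · rfl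
  · cases k <;> rfl
@[simp] theorem upd_jnp : Function.update (st i j e r a b o) (some .jnp) x = st i x e r a b o := by
  funext k; rcases k with _ | k
  · rfl
  · cases k <;> rfl
@[simp] theorem upd_e : Function.update (st i j e r a b o) (some .e) x = st i j x r a b o := by
  funext k; rcases k with _ | k
  · rfl
  · cases k <;> rfl
@[simp] theorem upd_r : Function.update (st i j e r a b o) (some .r) x = st i j e x a b o := by
  funext k; rcases k with _ | k
  · rfl
  · cases k <;> rfl
@[simp] theorem upd_a : Function.update (st i j e r a b o) (some .a) x = st i j e r x b o := by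
  funext k; rcases k with _ | k
  · rfl
  · cases k <;> rfl
@[simp] theorem upd_b : Function.update (st i j e r a b o) (some .b) x = st i j e r a x o := by
  funext k; rcases k with _ | k
  · rfl
  · cases k <;> rfl
@[simp] theorem upd_out : Function.update (st i j e r a b o) none y = st i j e r a b y := by
  funext k; rcases k with _ | k
  · rfl
  · cases k <;> rfl

@[simp] theorem st_inp : st i j e r a b o (some .inp) = i := rfl
@[simp] theorem st_jnp : st i j e r a b o (some .jnp) = j := rfl
@[simp] theorem st_e : st i j e r a b o (some .e) = e := rfl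
@[simp] theorem st_r : st i j e r a b o (some .r) = r := rfl
@[simp] theorem st_a : st i j e r a b o (some .a) = a := rfl
@[simp] theorem st_b : st i j e r a b o (some .b) = b := rfl
@[simp] theorem st_out : st i j e r a b o none = o := rfl

/-- Execution with a bound on the number of steps. -/
def ExecLe (p : P) (S : St) (n : ℕ) (S' : St) : Prop := ∃ m ≤ n, Exec p S m S'

theorem ExecLe.mono {p : P} {S S' : St} {n m : ℕ} (h : ExecLe p S n S') (hm : n ≤ m) :
    ExecLe p S m S' := by
  obtain ⟨k, hk, hx⟩ := h
  exact ⟨k, hk.trans hm, hx⟩

theorem ExecLe.skip (S : St) : ExecLe .skip S 1 S := ⟨1, le_rfl, .skip S⟩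

theorem ExecLe.push (k : Option B6) (c : Γ k) (S : St) :
    ExecLe (.push k c) S 1 (Function.update S k (c :: S k)) := ⟨1, le_rfl, .push k c S⟩

theorem ExecLe.pop (k : Option B6) (S : St) :
    ExecLe (.pop k) S 1 (Function.update S k (S k).tail) := ⟨1, le_rfl, .pop k S⟩

theorem ExecLe.seq {p q : P} {S S' S'' : St} {n m : ℕ} (h1 : ExecLe p S n S')
    (h2 : ExecLe q S' m S'') : ExecLe (.seq p q) S (n + m) S'' := by
  obtain ⟨k, hk, hx⟩ := h1
  obtain ⟨l, hl, hy⟩ := h2
  exact ⟨k + l, by omega, .seq _ _ _ _ _ _ _ hx hy⟩

theorem ExecLe.ite_true {k : Option B6} {t : Option (Γ k) → Bool} {p q : P} {S S' : St} {n : ℕ}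
    (ht : t (S k).head? = true) (h : ExecLe p S n S') : ExecLe (.ite k t p q) S (n + 1) S' := by
  obtain ⟨l, hl, hy⟩ := h
  exact ⟨l + 1, by omega, .ite_true _ _ _ _ _ _ _ ht hy⟩

theorem ExecLe.ite_false {k : Option B6} {t : Option (Γ k) → Bool} {p q : P} {S S' : St} {n : ℕ}
    (ht : t (S k).head? = false) (h : ExecLe q S n S') : ExecLe (.ite k t p q) S (n + 1) S' := by
  obtain ⟨l, hl, hy⟩ := h
  exact ⟨l + 1, by omega, .ite_false _ _ _ _ _ _ _ ht hy⟩

theorem ExecLe.whl {k : Option B6} {t : Option (Γ k) → Bool} {p : P} (n : ℕ) :
    ∀ (S : ℕ → St) (c : ℕ → ℕ),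
    (∀ i < n, t (S i k).head? = true) → (∀ i < n, ExecLe p (S i) (c i) (S (i + 1))) →
    t (S n k).head? = false →
    ExecLe (.whl k t p) (S 0) (∑ i ∈ range n, (c i + 1) + 1) (S n) := by
  induction n with
  | zero =>
    intro S c _ _ h3
    exact ⟨1, by simp, .whl_false _ _ _ _ h3⟩
  | succ n ih =>
    intro S c h1 h2 h3
    have h := ih (fun i => S (i + 1)) (fun i => c (i + 1)) (fun i hi => h1 (i + 1) (by omega))
      (fun i hi => h2 (i + 1) (by omega)) h3
    obtain ⟨l, hl, hy⟩ := h
    obtain ⟨l', hl', hy'⟩ := h2 0 (by omega)
    refine ⟨l' + l + 1, ?_, .whl_true _ _ _ _ _ _ _ _ (h1 0 (by omega)) hy' hy⟩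
    rw [Finset.sum_range_succ']
    omega

/-- The stack `e` grows by at most one symbol per step. -/
theorem exec_len {p : P} {S S' : St} {n : ℕ} (h : Exec p S n S') (k : Option B6) :
    (S' k).length ≤ (S k).length + n := by
  induction h with
  | skip S => omega
  | push k' c S =>
    by_cases hk : k = k'
    · subst hk; simp
    · rw [Function.update_of_ne hk]; omega
  | pop k' S =>
    by_cases hk : k = k'
    · subst hk; simp; omega
    · rw [Function.update_of_ne hk]; omega
  | seq p q S S' S'' n m h1 h2 ih1 ih2 => omega
  | ite_true k' t p q S S' n ht h ih => omega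
  | ite_false k' t p q S S' n ht h ih => omega
  | whl_true k' t p S S' S'' n m ht h1 h2 ih1 ih2 => omega
  | whl_false k' t p S ht => omega

/-- Test for the symbol `true`. -/
def isT (c : Option Bool) : Bool := c == some true

/-- Test for non-emptiness. -/
def isS {α : Type} (c : Option α) : Bool := c.isSome

/-- Move the symbols `true` from the top of one stack to another one. -/
def mv (k k' : B6) : P := .whl (some k) isT (.seq (.pop (some k)) (.push (some k') true))

theorem rep_shift {α : Type} (n : ℕ) (c : α) (l : List α) :
    List.replicate n c ++ c :: l = c :: (List.replicate n c ++ l) := by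
  induction n with
  | zero => rfl
  | succ n ih =>
    rw [List.replicate_succ, List.cons_append, ih]
    rfl

theorem exec_mv (k k' : B6) (hk : k ≠ k') (n : ℕ) : ∀ (S : St) (l : List Bool),
    S (some k) = List.replicate n true ++ l → isT l.head? = false →
    ExecLe (mv k k') S (3 * n + 1)
      (Function.update (Function.update S (some k) l) (some k')
        (List.replicate n true ++ S (some k'))) := by
  induction n with
  | zero =>
    intro S l h hl
    refine ⟨1, by omega, ?_⟩
    have : Function.update (Function.update S (some k) l) (some k')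
        (List.replicate 0 true ++ S (some k')) = S := by
      have h' : l = S (some k) := by rw [h]; rfl
      subst h'
      simp
    rw [this]
    exact .whl_false _ _ _ _ (by rw [h]; exact hl)
  | succ n ih =>
    intro S l h hl
    have hk2 : (some k' : Option B6) ≠ some k := fun h => hk (Option.some.inj h).symm
    have hk3 : (some k : Option B6) ≠ some k' := hk2.symm
    have e1 : ExecLe (.seq (.pop (some k)) (.push (some k') true)) S 2
        (Function.update (Function.update S (some k) (List.replicate n true ++ l)) (some k')
          (true :: S (some k'))) := by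
      have := (ExecLe.pop (some k) S).seq (ExecLe.push (some k') true _)
      rw [h] at this
      rw [Function.update_of_ne hk2] at this
      exact this
    have e2 := ih (Function.update (Function.update S (some k) (List.replicate n true ++ l))
      (some k') (true :: S (some k'))) l (by
        rw [Function.update_of_ne hk3, Function.update_self]) hl
    obtain ⟨m1, hm1, x1⟩ := e1
    obtain ⟨m2, hm2, x2⟩ := e2
    refine ⟨m1 + m2 + 1, by omega, ?_⟩
    have e3 : Function.update (Function.update S (some k) l) (some k')
        (List.replicate (n + 1) true ++ S (some k')) =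
        Function.update (Function.update (Function.update (Function.update S (some k)
          (List.replicate n true ++ l)) (some k') (true :: S (some k'))) (some k) l) (some k')
          (List.replicate n true ++ (Function.update (Function.update S (some k)
          (List.replicate n true ++ l)) (some k') (true :: S (some k'))) (some k')) := by
      funext κ
      by_cases h1 : κ = some k'
      · subst h1
        simp only [Function.update_self]
        rw [rep_shift]
        rfl
      · by_cases h2 : κ = some k
        · subst h2
          simp [Function.update_of_ne h1]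
        · simp [Function.update_of_ne h1, Function.update_of_ne h2]
    rw [e3]
    refine .whl_true _ _ _ _ _ _ _ _ ?_ x1 x2
    rw [h]
    rfl

/-- Move a block (a number in unary). -/
def mvB (k k' : B6) : P := .seq (.push (some k') false) (.seq (mv k k') (.pop (some k)))

theorem exec_mvB (k k' : B6) (hk : k ≠ k') (n : ℕ) (S : St) (l : List Bool)
    (h : S (some k) = List.replicate n true ++ false :: l) :
    ExecLe (mvB k k') S (3 * n + 3)
      (Function.update (Function.update S (some k) l) (some k')
        (List.replicate n true ++ false :: S (some k'))) := by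
  have hk2 : (some k' : Option B6) ≠ some k := fun h => hk (Option.some.inj h).symm
  have hk3 : (some k : Option B6) ≠ some k' := hk2.symm
  have e1 := ExecLe.push (some k') false S
  have e2 := exec_mv k k' hk n (Function.update S (some k') (false :: S (some k'))) (false :: l)
    (by rw [Function.update_of_ne hk3, h]) rfl
  have e3 := ExecLe.pop (some k) (Function.update (Function.update (Function.update S (some k')
    (false :: S (some k'))) (some k) (false :: l)) (some k')
        (List.replicate n true ++ (Function.update S (some k')
    (false :: S (some k'))) (some k')))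
  have e4 := e1.seq (e2.seq e3)
  refine (ExecLe.mono ?_ (show 1 + (3 * n + 1 + 1) ≤ 3 * n + 3 by omega))
  refine Eq.mp (congrArg _ ?_) e4
  funext κ
  by_cases h1 : κ = some k'
  · subst h1
    simp [Function.update_of_ne hk2]
  · by_cases h2 : κ = some k
    · subst h2
      simp [Function.update_of_ne h1]
    · simp [Function.update_of_ne h1, Function.update_of_ne h2]

theorem ExecLe.whl_step {k : Option B6} {t : Option (Γ k) → Bool} {p : P} {S S' S'' : St}
    {n m : ℕ} (ht : t (S k).head? = true) (h1 : ExecLe p S n S')
    (h2 : ExecLe (.whl k t p) S' m S'') : ExecLe (.whl k t p) S (n + m + 1) S'' := by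
  obtain ⟨n', hn, x1⟩ := h1
  obtain ⟨m', hm, x2⟩ := h2
  exact ⟨n' + m' + 1, by omega, .whl_true _ _ _ _ _ _ _ _ ht x1 x2⟩

theorem ExecLe.whl_done {k : Option B6} {t : Option (Γ k) → Bool} {p : P} {S : St}
    (ht : t (S k).head? = false) : ExecLe (.whl k t p) S 1 S :=
  ⟨1, le_rfl, .whl_false _ _ _ _ ht⟩

/-- Encoding of a list of numbers. -/
def enc : List ℕ → List Bool
  | [] => []
  | n :: s => List.replicate n true ++ false :: enc s

/-- The program transforms a list of numbers and an output in at most `n` steps. -/
def Does (p : P) (w : List Bool) (s : List ℕ) (o : List Computability.Γ') (n : ℕ) (s' : List ℕ)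
    (o' : List Computability.Γ') : Prop :=
  ∀ r, ExecLe p (st w [] (enc s) r [] [] o) n (st w [] (enc s') r [] [] o')

variable {w : List Bool} {s s' s'' : List ℕ} {o o' o'' : List Computability.Γ'} {n m : ℕ}

theorem Does.mono {p : P} (h : Does p w s o n s' o') (hm : n ≤ m) : Does p w s o m s' o' :=
  fun r => (h r).mono hm

theorem Does.seq {p q : P} (h1 : Does p w s o n s' o') (h2 : Does q w s' o' m s'' o'') :
    Does (.seq p q) w s o (n + m) s'' o'' :=
  fun r => (h1 r).seq (h2 r)

theorem exec_hide (n : ℕ) (s : List ℕ) (i j r a b : List Bool) (o : List Computability.Γ') :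
    ExecLe (mvB .e .r) (st i j (enc (n :: s)) r a b o) (3 * n + 3)
      (st i j (enc s) (List.replicate n true ++ false :: r) a b o) := by
  have h := exec_mvB .e .r (by decide) n (st i j (enc (n :: s)) r a b o) (enc s) rfl
  simp only [upd_e, upd_r, st_r] at h
  exact h

theorem exec_unhide (n : ℕ) (s : List ℕ) (i j r a b : List Bool) (o : List Computability.Γ') :
    ExecLe (mvB .r .e) (st i j (enc s) (List.replicate n true ++ false :: r) a b o) (3 * n + 3)
      (st i j (enc (n :: s)) r a b o) := by
  have h := exec_mvB .r .e (by decide) n
    (st i j (enc s) (List.replicate n true ++ false :: r) a b o) r rfl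
  simp only [upd_e, upd_r, st_e] at h
  exact h

theorem exec_stash (n : ℕ) (s : List ℕ) (i j r a b : List Bool) (o : List Computability.Γ') :
    ExecLe (mvB .e .a) (st i j (enc (n :: s)) r a b o) (3 * n + 3)
      (st i j (enc s) r (List.replicate n true ++ false :: a) b o) := by
  have h := exec_mvB .e .a (by decide) n (st i j (enc (n :: s)) r a b o) (enc s) rfl
  simp only [upd_e, upd_a, st_a] at h
  exact h

theorem exec_unstash (n : ℕ) (s : List ℕ) (i j r a b : List Bool) (o : List Computability.Γ') :
    ExecLe (mvB .a .e) (st i j (enc s) r (List.replicate n true ++ false :: a) b o) (3 * n + 3)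
      (st i j (enc (n :: s)) r a b o) := by
  have h := exec_mvB .a .e (by decide) n
    (st i j (enc s) r (List.replicate n true ++ false :: a) b o) a rfl
  simp only [upd_e, upd_a, st_e] at h
  exact h

/-- Push zero. -/
def zeroP : P := .push (some .e) false

theorem does_zero : Does zeroP w s o 1 (0 :: s) o := by
  intro r
  have h := ExecLe.push (some .e) false (st w [] (enc s) r [] [] o)
  simp only [upd_e, st_e] at h
  exact h

/-- Increment. -/
def succP : P := .push (some .e) true

theorem does_succ : Does succP w (n :: s) o 1 ((n + 1) :: s) o := by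
  intro r
  have h := ExecLe.push (some .e) true (st w [] (enc (n :: s)) r [] [] o)
  simp only [upd_e, st_e] at h
  exact h

/-- Decrement. -/
def predP : P := .ite (some .e) isT (.pop (some .e)) .skip

theorem does_pred : Does predP w (n :: s) o 2 ((n - 1) :: s) o := by
  intro r
  rcases n with _ | n
  · exact ExecLe.ite_false rfl (ExecLe.skip _)
  · refine ExecLe.ite_true rfl ?_
    have h := ExecLe.pop (some .e) (st w [] (enc ((n + 1) :: s)) r [] [] o)
    simp only [upd_e, st_e] at h
    exact h

/-- Delete the top number. -/
def dropP : P := .seq (.whl (some .e) isT (.pop (some .e))) (.pop (some .e))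

theorem exec_drop_aux (n : ℕ) (s : List ℕ) (i j r a b : List Bool)
    (o : List Computability.Γ') :
    ExecLe (.whl (some .e) isT (.pop (some .e))) (st i j (enc (n :: s)) r a b o) (2 * n + 1)
      (st i j (enc (0 :: s)) r a b o) := by
  induction n with
  | zero => exact ExecLe.whl_done rfl
  | succ n ih =>
    have h1 := ExecLe.pop (some .e) (st i j (enc ((n + 1) :: s)) r a b o)
    rw [upd_e] at h1
    exact (ExecLe.whl_step rfl h1 ih).mono (by omega)

theorem does_drop : Does dropP w (n :: s) o (2 * n + 2) s o := by
  intro r
  have h := (exec_drop_aux n s w [] r [] [] o).seq (ExecLe.pop (some .e) _)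
  simp only [upd_e, st_e] at h
  exact h.mono (by omega)

/-- Move to two stacks. -/
def mv2 : P := .whl (some .e) isT (.seq (.pop (some .e)) (.seq (.push (some .a) true)
  (.push (some .b) true)))

theorem exec_mv2 (n : ℕ) (l : List Bool) (i j r : List Bool) (o : List Computability.Γ') :
    ∀ (a b : List Bool),
    ExecLe mv2 (st i j (List.replicate n true ++ false :: l) r a b o) (4 * n + 1)
      (st i j (false :: l) r (List.replicate n true ++ a) (List.replicate n true ++ b) o) := by
  induction n with
  | zero => intro a b; exact ExecLe.whl_done rfl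
  | succ n ih =>
    intro a b
    have h1 := ExecLe.pop (some .e)
      (st i j (List.replicate (n + 1) true ++ false :: l) r a b o)
    have h2 := h1.seq ((ExecLe.push (some .a) true _).seq (ExecLe.push (some .b) true _))
    simp only [upd_e, upd_a, upd_b, st_e, st_a, st_b] at h2
    have h3 := ExecLe.whl_step (k := some .e) (t := isT) (by rfl) h2 (ih (true :: a) (true :: b))
    rw [rep_shift, rep_shift] at h3
    exact h3.mono (by omega)

/-- Duplicate the top number. -/
def dupP : P := .seq (.push (some .a) false) (.seq mv2 (.seq (mv .b .e) (mvB .a .e)))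

theorem does_dup : Does dupP w (n :: s) o (10 * n + 10) (n :: n :: s) o := by
  intro r
  have h1 := ExecLe.push (some .a) false (st w [] (enc (n :: s)) r [] [] o)
  simp only [upd_a, st_a] at h1
  have h2 := exec_mv2 n (enc s) w [] r o [false] []
  have h3 := exec_mv .b .e (by decide) n
    (st w [] (false :: enc s) r (List.replicate n true ++ [false])
      (List.replicate n true ++ []) o) [] rfl rfl
  simp only [upd_b, upd_e, st_e] at h3
  have h4 := exec_unstash n (n :: s) w [] r [] [] o
  exact (h1.seq (h2.seq (h3.seq h4))).mono (by omega)

/-- Run a program below the top number, leaving its result on top. -/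
def belowP (p : P) : P :=
  .seq (mvB .e .r) (.seq p (.seq (mvB .e .a) (.seq (mvB .r .e) (mvB .a .e))))

theorem does_below {p : P} {v c : ℕ} (h : Does p w s o c (v :: s') o') :
    Does (belowP p) w (n :: s) o (c + (6 * n + 6) + (6 * v + 6)) (v :: n :: s') o' := by
  intro r
  have h1 := exec_hide n s w [] r [] [] o
  have h2 := h (List.replicate n true ++ false :: r)
  have h3 := exec_stash v s' w [] (List.replicate n true ++ false :: r) [] [] o'
  have h4 := exec_unhide n s' w [] r (List.replicate v true ++ false :: []) [] o'
  have h5 := exec_unstash v (n :: s') w [] r [] [] o'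
  exact (h1.seq (h2.seq (h3.seq (h4.seq h5)))).mono (by omega)

/-- Run a program below the top number. -/
def underP (p : P) : P := .seq (mvB .e .r) (.seq p (mvB .r .e))

theorem does_under {p : P} {c : ℕ} (h : Does p w s o c s' o') :
    Does (underP p) w (n :: s) o (c + (6 * n + 6)) (n :: s') o' := by
  intro r
  have h1 := exec_hide n s w [] r [] [] o
  have h2 := h (List.replicate n true ++ false :: r)
  have h3 := exec_unhide n s' w [] r [] [] o'
  exact (h1.seq (h2.seq h3)).mono (by omega)

/-- Loop. -/
def loopP (p : P) : P :=
  .seq (mvB .e .r) (.seq (.whl (some .r) isT (.seq (.pop (some .r)) p)) (.pop (some .r)))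

theorem does_loop {p : P} (n : ℕ) (σ : ℕ → List ℕ) (ο : ℕ → List Computability.Γ')
    (c : ℕ → ℕ) (h : ∀ i < n, Does p w (σ i) (ο i) (c i) (σ (i + 1)) (ο (i + 1))) :
    Does (loopP p) w (n :: σ 0) (ο 0) (∑ i ∈ range n, (c i + 2) + (3 * n + 5)) (σ n) (ο n) := by
  intro r
  have h1 := exec_hide n (σ 0) w [] r [] [] (ο 0)
  have h2 := ExecLe.whl (k := some .r) (t := isT) (p := .seq (.pop (some .r)) p) n
    (fun i => st w [] (enc (σ i)) (List.replicate (n - i) true ++ false :: r) [] [] (ο i))
    (fun i => c i + 1) (by
      intro i hi
      obtain ⟨k, hk⟩ : ∃ k, n - i = k + 1 := ⟨n - i - 1, by omega⟩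
      simp only [hk]
      rfl) (by
      intro i hi
      obtain ⟨k, hk, hk2⟩ : ∃ k, n - i = k + 1 ∧ n - (i + 1) = k :=
        ⟨n - i - 1, by omega, by omega⟩
      simp only [hk, hk2]
      have h3 := ExecLe.pop (some .r)
        (st w [] (enc (σ i)) (List.replicate (k + 1) true ++ false :: r) [] [] (ο i))
      rw [upd_r] at h3
      exact (h3.seq (h i hi (List.replicate k true ++ false :: r))).mono (by omega)) (by
      simp only [Nat.sub_self]
      rfl)
  simp only [Nat.sub_zero, Nat.sub_self] at h2
  have h3 := ExecLe.pop (some .r) (st w [] (enc (σ n)) (List.replicate 0 true ++ false :: r)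
    [] [] (ο n))
  rw [upd_r] at h3
  refine (h1.seq (h2.seq h3)).mono ?_
  have e : ∑ i ∈ range n, (c i + 1 + 1) = ∑ i ∈ range n, (c i + 2) := rfl
  rw [e]
  omega

/-- Move one symbol. -/
def mv1 (k k' : B6) : P := .ite (some k) isT (.seq (.pop (some k)) (.push (some k') true))
  (.seq (.pop (some k)) (.push (some k') false))

theorem exec_mv1_ij (c : Bool) (i j e r a b : List Bool) (o : List Computability.Γ') :
    ExecLe (mv1 .inp .jnp) (st (c :: i) j e r a b o) 3 (st i (c :: j) e r a b o) := by
  cases c
  · refine ExecLe.ite_false rfl ?_
    simpa using (ExecLe.pop (some .inp) (st (false :: i) j e r a b o)).seq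
      (ExecLe.push (some .jnp) false _)
  · refine ExecLe.ite_true rfl ?_
    simpa using (ExecLe.pop (some .inp) (st (true :: i) j e r a b o)).seq
      (ExecLe.push (some .jnp) true _)

theorem exec_mv1_ji (c : Bool) (i j e r a b : List Bool) (o : List Computability.Γ') :
    ExecLe (mv1 .jnp .inp) (st i (c :: j) e r a b o) 3 (st (c :: i) j e r a b o) := by
  cases c
  · refine ExecLe.ite_false rfl ?_
    simpa using (ExecLe.pop (some .jnp) (st i (false :: j) e r a b o)).seq
      (ExecLe.push (some .inp) false _)
  · refine ExecLe.ite_true rfl ?_
    simpa using (ExecLe.pop (some .jnp) (st i (true :: j) e r a b o)).seq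
      (ExecLe.push (some .inp) true _)

/-- Restore the input. -/
def restP : P := .whl (some .jnp) isS (mv1 .jnp .inp)

theorem exec_rest (j : List Bool) (e r a b : List Bool) (o : List Computability.Γ') :
    ∀ i : List Bool, ExecLe restP (st i j e r a b o) (4 * j.length + 1)
      (st (j.reverse ++ i) [] e r a b o) := by
  induction j with
  | nil => intro i; exact ExecLe.whl_done rfl
  | cons c j ih =>
    intro i
    have h := ExecLe.whl_step (k := some .jnp) (t := isS) (by rfl) (exec_mv1_ji c i j e r a b o)
      (ih (c :: i))
    refine ExecLe.mono ?_ (show 3 + (4 * j.length + 1) + 1 ≤ 4 * (c :: j).length + 1 by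
      simp only [List.length_cons]; omega)
    rw [List.reverse_cons, List.append_assoc, List.singleton_append]
    exact h

/-- The number of the `n`-th symbol. -/
def bitw (w : List Bool) (n : ℕ) : ℕ :=
  match w[n]? with
  | none => 2
  | some false => 0
  | some true => 1

/-- Read a symbol of the input. -/
def inpP : P := .seq (.whl (some .e) isT (.seq (.pop (some .e))
    (.ite (some .inp) isS (mv1 .inp .jnp) .skip)))
  (.seq (.ite (some .inp) isS (.ite (some .inp) isT (.push (some .e) true) .skip)
    (.seq (.push (some .e) true) (.push (some .e) true))) restP)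

theorem exec_inp_aux (n : ℕ) (s : List ℕ) (r a b : List Bool)
    (o : List Computability.Γ') : ∀ (i j : List Bool),
    ExecLe (.whl (some .e) isT (.seq (.pop (some .e))
    (.ite (some .inp) isS (mv1 .inp .jnp) .skip))) (st i j (enc (n :: s)) r a b o) (6 * n + 1)
      (st (i.drop n) ((i.take n).reverse ++ j) (enc (0 :: s)) r a b o) := by
  induction n with
  | zero => intro i j; exact ExecLe.whl_done rfl
  | succ n ih =>
    intro i j
    have h1 := ExecLe.pop (some .e) (st i j (enc ((n + 1) :: s)) r a b o)
    rw [upd_e] at h1
    rcases i with _ | ⟨c, i⟩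
    · have h2 := h1.seq (ExecLe.ite_false (k := some .inp) (t := isS) (p := mv1 .inp .jnp)
        (by rfl) (ExecLe.skip _))
      have h3 := ExecLe.whl_step (k := some .e) (t := isT) (by rfl) h2 (ih [] j)
      refine ExecLe.mono ?_ (show 1 + (1 + 1) + (6 * n + 1) + 1 ≤ 6 * (n + 1) + 1 by omega)
      simpa using h3
    · have h2 := h1.seq (ExecLe.ite_true (k := some .inp) (t := isS) (q := .skip)
        (by rfl) (exec_mv1_ij c i j _ r a b o))
      have h3 := ExecLe.whl_step (k := some .e) (t := isT) (by rfl) h2 (ih i (c :: j))
      refine ExecLe.mono ?_ (show 1 + (3 + 1) + (6 * n + 1) + 1 ≤ 6 * (n + 1) + 1 by omega)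
      simpa using h3

theorem does_inp : Does inpP w (n :: s) o (10 * n + 10) (bitw w n :: s) o := by
  intro r
  have h1 := exec_inp_aux n s r [] [] o w []
  have h2 : ExecLe (.ite (some .inp) isS (.ite (some .inp) isT (.push (some .e) true) .skip)
      (.seq (.push (some .e) true) (.push (some .e) true)))
      (st (w.drop n) ((w.take n).reverse ++ []) (enc (0 :: s)) r [] [] o) 3
      (st (w.drop n) ((w.take n).reverse ++ []) (enc (bitw w n :: s)) r [] [] o) := by
    rcases hw : w.drop n with _ | ⟨c, l⟩
    · have hb : bitw w n = 2 := by
        unfold bitw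
        have : w[n]? = none := by
          rw [List.getElem?_eq_none_iff]
          exact List.drop_eq_nil_iff.mp hw
        rw [this]
      rw [hb]
      refine ExecLe.ite_false rfl ?_
      have h := (ExecLe.push (some .e) true
        (st [] ((w.take n).reverse ++ []) (enc (0 :: s)) r [] [] o)).seq
          (ExecLe.push (some .e) true _)
      simp only [upd_e, st_e] at h
      exact h
    · have hc : w[n]? = some c := by
        rw [← List.head?_drop, hw]
        rfl
      cases c
      · have hb : bitw w n = 0 := by
          unfold bitw
          rw [hc]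
        rw [hb]
        refine ExecLe.ite_true rfl ?_
        exact (ExecLe.ite_false rfl (ExecLe.skip _))
      · have hb : bitw w n = 1 := by
          unfold bitw
          rw [hc]
        rw [hb]
        refine ExecLe.ite_true rfl ?_
        refine ExecLe.ite_true rfl ?_
        have h := (ExecLe.push (some .e) true
          (st (true :: l) ((w.take n).reverse ++ []) (enc (0 :: s)) r [] [] o))
        simp only [upd_e, st_e] at h
        exact h
  have h3 := exec_rest ((w.take n).reverse ++ []) (enc (bitw w n :: s)) r [] [] o (w.drop n)
  have h4 := h1.seq (h2.seq h3)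
  have hl : ((w.take n).reverse ++ []).length ≤ n := by
    simp
  have hm := h4.mono (show _ ≤ 10 * n + 10 by omega)
  rw [List.append_nil, List.reverse_reverse, List.take_append_drop] at hm
  exact hm

/-- The length of the input. -/
def lenP : P := .seq (.push (some .e) false)
  (.seq (.whl (some .inp) isS (.seq (mv1 .inp .jnp) (.push (some .e) true))) restP)

theorem exec_len_aux (i : List Bool) (r a b : List Bool) (o : List Computability.Γ') :
    ∀ (e j : List Bool),
    ExecLe (.whl (some .inp) isS (.seq (mv1 .inp .jnp) (.push (some .e) true)))
      (st i j e r a b o) (5 * i.length + 1)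
      (st [] (i.reverse ++ j) (List.replicate i.length true ++ e) r a b o) := by
  induction i with
  | nil => intro e j; exact ExecLe.whl_done rfl
  | cons c i ih =>
    intro e j
    have h1 := (exec_mv1_ij c i j e r a b o).seq (ExecLe.push (some .e) true _)
    rw [upd_e, st_e] at h1
    have h2 := ExecLe.whl_step (k := some .inp) (t := isS) (by rfl) h1 (ih (true :: e) (c :: j))
    rw [rep_shift] at h2
    refine ExecLe.mono ?_ (show 3 + 1 + (5 * i.length + 1) + 1 ≤ 5 * (c :: i).length + 1 by
      simp only [List.length_cons]; omega)
    rw [List.reverse_cons, List.append_assoc, List.singleton_append]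
    exact h2

theorem does_len : Does lenP w s o (10 * w.length + 10) (w.length :: s) o := by
  intro r
  have h1 := ExecLe.push (some .e) false (st w [] (enc s) r [] [] o)
  rw [upd_e, st_e] at h1
  have h2 := exec_len_aux w r [] [] o (false :: enc s) []
  have h3 := exec_rest (w.reverse ++ []) (List.replicate w.length true ++ false :: enc s) r [] []
    o []
  have h4 := h1.seq (h2.seq h3)
  have hl : (w.reverse ++ []).length = w.length := by simp
  rw [hl] at h4
  have h5 := h4.mono (show 1 + (5 * w.length + 1 + (4 * w.length + 1)) ≤ 10 * w.length + 10 by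
    omega)
  rw [List.append_nil, List.append_nil, List.reverse_reverse] at h5
  exact h5

/-- Push a word on the output. -/
def pushAll : List Computability.Γ' → P
  | [] => .skip
  | c :: l => .seq (.push none c) (pushAll l)

theorem exec_pushAll (l : List Computability.Γ') (i j e r a b : List Bool) :
    ∀ o, ExecLe (pushAll l) (st i j e r a b o) (l.length + 1)
      (st i j e r a b (l.reverse ++ o)) := by
  induction l with
  | nil => intro o; exact ExecLe.skip _
  | cons c l ih =>
    intro o
    have h1 := (ExecLe.push none c (st i j e r a b o))
    rw [upd_out, st_out] at h1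
    have h2 := (h1.seq (ih (c :: o))).mono (show 1 + (l.length + 1) ≤ (c :: l).length + 1 by
      simp only [List.length_cons]; omega)
    rw [List.reverse_cons, List.append_assoc, List.singleton_append]
    exact h2

/-- Emit the block of the top number. -/
def emitP : List (List Computability.Γ') → P
  | [] => dropP
  | c :: tb => .ite (some .e) isT (.seq (.pop (some .e)) (emitP tb))
      (.seq (.pop (some .e)) (pushAll c.reverse))

/-- Total size of a table. -/
def tblSize : List (List Computability.Γ') → ℕ
  | [] => 4
  | c :: tb => c.length + 4 + tblSize tb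

theorem does_emit (tb : List (List Computability.Γ')) : ∀ n : ℕ,
    Does (emitP tb) w (n :: s) o (2 * n + tblSize tb) s (tb.getD n [] ++ o) := by
  induction tb with
  | nil =>
    intro n
    exact does_drop.mono (by simp only [tblSize]; omega)
  | cons c tb ih =>
    intro n r
    rcases n with _ | n
    · have h1 := ExecLe.pop (some .e) (st w [] (enc (0 :: s)) r [] [] o)
      rw [upd_e] at h1
      have h2 := exec_pushAll c.reverse w [] (enc s) r [] [] o
      rw [List.reverse_reverse] at h2
      refine (ExecLe.ite_false rfl (h1.seq h2)).mono ?_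
      simp only [List.length_reverse, tblSize]
      omega
    · have h1 := ExecLe.pop (some .e) (st w [] (enc ((n + 1) :: s)) r [] [] o)
      rw [upd_e] at h1
      have h2 := ih n r
      refine (ExecLe.ite_true rfl (h1.seq h2)).mono ?_
      simp only [tblSize]
      omega

end Pool.Agent.Helper68.Calc
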