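import Pool.Agent.Helper68.ChipDefs

/-!
Chip-firing on finite digraphs: the criterion for termination on strongly connected digraphs.
-/

set_option autoImplicit false
set_option linter.unusedSectionVars false

namespace Pool.Agent.Helper68.Chip

open Relation

variable {V : Type} [Fintype V] [DecidableEq V]

/-- The Laplacian of the digraph. -/
def lap (adj : V → V → Bool) (z : V → ℤ) : V → ℤ :=
  fun v => outdeg adj v * z v - ∑ u, (if adj u v = true then z u else 0)

theorem lap_add (adj : V → V → Bool) (z z' : V → ℤ) :
    lap adj (z + z') = lap adj z + lap adj z' := by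
  funext v
  simp only [lap, Pi.add_apply]
  have : ∀ u, (if adj u v = true then z u + z' u else 0) =
      (if adj u v = true then z u else 0) + (if adj u v = true then z' u else 0) := by
    intro u; split <;> simp
  simp only [this, Finset.sum_add_distrib]
  ring

theorem lap_smul (adj : V → V → Bool) (c : ℤ) (z : V → ℤ) :
    lap adj (c • z) = c • lap adj z := by
  funext v
  simp only [lap, Pi.smul_apply, smul_eq_mul]
  have : ∀ u, (if adj u v = true then c * z u else 0) =
      c * (if adj u v = true then z u else 0) := by
    intro u; split <;> simp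
  simp only [this, ← Finset.mul_sum]
  ring

theorem lap_sub (adj : V → V → Bool) (z z' : V → ℤ) :
    lap adj (z - z') = lap adj z - lap adj z' := by
  have : z - z' = z + (-1 : ℤ) • z' := by simp [sub_eq_add_neg]
  rw [this, lap_add, lap_smul]
  simp [sub_eq_add_neg]

theorem fire_eq (adj : V → V → Bool) (v : V) (x : V → ℤ) :
    fire adj v x = x - lap adj (Pi.single v 1) := by
  funext w
  simp only [fire, lap, Pi.sub_apply]
  have h1 : ∑ u, (if adj u w = true then (Pi.single v (1 : ℤ) : V → ℤ) u else 0) =
      if adj v w = true then 1 else 0 := by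
    rw [Finset.sum_eq_single v]
    · simp
    · intro u _ hu
      simp [hu]
    · intro h; exact absurd (Finset.mem_univ v) h
  rw [h1]
  by_cases h : w = v
  · subst h; simp; ring
  · simp [h]

theorem sum_swap {A : Type*} [CommRing A] (adj : V → V → Bool) (z : V → ℤ) (φ : V → A) :
    ∑ v, φ v * (lap adj z v : A) =
      ∑ u, (z u : A) * ((outdeg adj u : A) * φ u - ∑ v, (if adj u v = true then φ v else 0)) := by
  simp only [lap, Int.cast_sub, Int.cast_mul, Int.cast_sum, mul_sub, Finset.sum_sub_distrib]
  congr 1
  · apply Finset.sum_congr rfl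
    intro u _
    ring
  · simp only [Finset.mul_sum]
    rw [Finset.sum_comm]
    apply Finset.sum_congr rfl
    intro u _
    apply Finset.sum_congr rfl
    intro v _
    split <;> simp [mul_comm]

theorem sum_lap (adj : V → V → Bool) (z : V → ℤ) : ∑ v, lap adj z v = 0 := by
  have h := sum_swap adj z (fun _ => (1 : ℤ))
  simp only [one_mul, Int.cast_id, mul_one] at h
  rw [h]
  apply Finset.sum_eq_zero
  intro u _
  have : ∑ v, (if adj u v = true then (1 : ℤ) else 0) = outdeg adj u := by
    simp [outdeg]
  rw [this]
  ring

theorem sum_fire (adj : V → V → Bool) (v : V) (x : V → ℤ) :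
    ∑ w, fire adj v x w = ∑ w, x w := by
  rw [fire_eq]
  simp only [Pi.sub_apply, Finset.sum_sub_distrib, sum_lap]
  ring

/-- If no stabilising vector exists then there is an infinite legal game. -/
theorem exists_stable_of_terminating (adj : V → V → Bool) (hl : ∀ v, adj v v = false)
    (x : V → ℤ) (h : Terminating adj x) :
    ∃ z : V → ℤ, ∀ v, x v - lap adj z v < outdeg adj v := by
  by_contra hcon
  push Not at hcon
  choose w hw using hcon
  apply h
  let f : ℕ → V → ℤ := fun i => Nat.rec (0 : V → ℤ) (fun _ f => f + Pi.single (w f) 1) i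
  have hf0 : f 0 = 0 := rfl
  have hfs : ∀ i, f (i + 1) = f i + Pi.single (w (f i)) 1 := fun i => rfl
  refine ⟨fun i => x - lap adj (f i), ?_, ?_⟩
  · have : lap adj (0 : V → ℤ) = 0 := by
      have := lap_smul adj 0 (0 : V → ℤ)
      simpa using this
    simp [hf0, this]
  · intro i
    refine ⟨w (f i), ?_, ?_⟩
    · have h1 := hw (f i)
      simp only [fire, Pi.sub_apply, hl]
      simp
      exact h1
    · simp only [fire_eq, hfs, lap_add]
      abel

/-- In an infinite legal game some configuration is repeated. -/
theorem exists_repeat (adj : V → V → Bool)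
    (g : ℕ → V → ℤ) (hg : ∀ i, LegalStep adj (g i) (g (i + 1))) :
    ∃ i j, i < j ∧ g i = g j := by
  have hsum : ∀ i, ∑ v, g i v = ∑ v, g 0 v := by
    intro i
    induction i with
    | zero => rfl
    | succ i ih =>
      obtain ⟨v, _, hv⟩ := hg i
      rw [hv, sum_fire, ih]
  have hlow : ∀ i v, min (g 0 v) 0 ≤ g i v := by
    intro i
    induction i with
    | zero => intro v; exact min_le_left _ _
    | succ i ih =>
      intro v
      obtain ⟨u, hu, hv⟩ := hg i
      rw [hv]
      by_cases h : v = u
      · subst h
        exact (min_le_right _ _).trans hu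
      · have := ih v
        simp only [fire, h, if_false]
        split <;> omega
  -- a uniform lower bound
  obtain ⟨m, hm⟩ : ∃ m : ℤ, ∀ v, m ≤ min (g 0 v) 0 := by
    obtain ⟨m, hm⟩ := (Set.finite_range (fun v => min (g 0 v) 0)).bddBelow
    exact ⟨m, fun v => hm ⟨v, rfl⟩⟩
  have hlow' : ∀ i v, m ≤ g i v := fun i v => (hm v).trans (hlow i v)
  set S := ∑ v, g 0 v with hS
  have hup : ∀ i v, g i v ≤ S - (Fintype.card V - 1) * m := by
    intro i v
    have h1 : ∑ u, g i u = S := hsum i
    have h2 : ∑ u, g i u = g i v + ∑ u ∈ Finset.univ.erase v, g i u := by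
      rw [Finset.add_sum_erase _ _ (Finset.mem_univ v)]
    have h3 : ((Fintype.card V : ℤ) - 1) * m ≤ ∑ u ∈ Finset.univ.erase v, g i u := by
      have h4 : ((Finset.univ.erase v).card : ℤ) = (Fintype.card V : ℤ) - 1 := by
        rw [Finset.card_erase_of_mem (Finset.mem_univ v), Finset.card_univ]
        have : 1 ≤ Fintype.card V := Fintype.card_pos_iff.mpr ⟨v⟩
        push_cast [this]
        ring
      have h5 := Finset.card_nsmul_le_sum (Finset.univ.erase v) (fun u => g i u) m
        (fun u _ => hlow' i u)
      rw [nsmul_eq_mul, h4] at h5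
      exact h5
    omega
  let F : Finset (V → ℤ) := Fintype.piFinset (fun _ => Finset.Icc m (S - (Fintype.card V - 1) * m))
  have hF : ∀ i, g i ∈ F := by
    intro i
    simp only [F, Fintype.mem_piFinset, Finset.mem_Icc]
    exact fun v => ⟨hlow' i v, hup i v⟩
  obtain ⟨i, j, hij, he⟩ := Finite.exists_ne_map_eq_of_infinite (fun i : ℕ => (⟨g i, hF i⟩ : F))
  simp only [Subtype.mk.injEq] at he
  rcases lt_or_gt_of_ne hij with h | h
  · exact ⟨i, j, h, he⟩
  · exact ⟨j, i, h, he.symm⟩

/-- The firing counts of a legal game. -/
theorem exists_counts (adj : V → V → Bool)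
    (g : ℕ → V → ℤ) (hg : ∀ i, LegalStep adj (g i) (g (i + 1))) :
    ∃ f : ℕ → V → ℤ, f 0 = 0 ∧ (∀ i, ∃ v, 0 ≤ fire adj v (g i) v ∧
      f (i + 1) = f i + Pi.single v 1) ∧ ∀ i, g i = g 0 - lap adj (f i) := by
  choose w hw1 hw2 using hg
  let f : ℕ → V → ℤ := fun i => Nat.rec (0 : V → ℤ) (fun i f => f + Pi.single (w i) 1) i
  have hf0 : f 0 = 0 := rfl
  have hfs : ∀ i, f (i + 1) = f i + Pi.single (w i) 1 := fun i => rfl
  refine ⟨f, hf0, fun i => ⟨w i, hw1 i, hfs i⟩, ?_⟩
  intro i
  induction i with
  | zero =>
    have : lap adj (0 : V → ℤ) = 0 := by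
      have := lap_smul adj 0 (0 : V → ℤ)
      simpa using this
    simp [hf0, this]
  | succ i ih =>
    rw [hw2 i, fire_eq, ih, hfs, lap_add]
    abel

theorem terminating_of_exists_stable (adj : V → V → Bool) (hl : ∀ v, adj v v = false)
    (hsc : StronglyConnected adj)
    (x z : V → ℤ) (hz : ∀ v, x v - lap adj z v < outdeg adj v) : Terminating adj x := by
  rintro ⟨g, hg0, hg⟩
  obtain ⟨i, j, hij, he⟩ := exists_repeat adj g hg
  obtain ⟨f, hf0, hfs, hgf⟩ := exists_counts adj g hg
  -- monotonicity of the counts
  have hmono : ∀ a b, a ≤ b → ∀ v, f a v ≤ f b v := by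
    intro a b hab
    induction b, hab using Nat.le_induction with
    | base => intro v; exact le_rfl
    | succ b _ ih =>
      intro v
      obtain ⟨u, _, hu⟩ := hfs b
      rw [hu]
      have := ih v
      by_cases h : v = u
      · subst h; simp; omega
      · simp [h]; omega
  have hsumf : ∀ a, ∑ v, f a v = a := by
    intro a
    induction a with
    | zero => simp [hf0]
    | succ a ih =>
      obtain ⟨u, _, hu⟩ := hfs a
      rw [hu]
      simp [Finset.sum_add_distrib, ih]
  let p : V → ℤ := f j - f i
  have hp0 : ∀ v, 0 ≤ p v := fun v => by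
    have := hmono i j hij.le v
    simp only [p, Pi.sub_apply]
    omega
  have hlp : lap adj p = 0 := by
    have h1 := hgf i
    have h2 := hgf j
    rw [he, h2] at h1
    simp only [p]
    rw [lap_sub]
    have := sub_right_injective h1
    rw [this, sub_self]
  have hpsum : ∑ v, p v = (j : ℤ) - i := by
    simp only [p, Pi.sub_apply, Finset.sum_sub_distrib, hsumf]
  obtain ⟨v0, hv0⟩ : ∃ v, 0 < p v := by
    by_contra hcon
    push Not at hcon
    have : ∑ v, p v ≤ 0 := Finset.sum_nonpos (fun v _ => hcon v)
    rw [hpsum] at this
    have : (i : ℤ) < j := by exact_mod_cast hij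
    omega
  have hstep : ∀ a b, adj a b = true → 0 < p a → 0 < p b := by
    intro a b hab ha
    by_contra hb
    have hb0 : p b = 0 := le_antisymm (not_lt.mp hb) (hp0 b)
    have h1 := congrFun hlp b
    simp only [lap, hb0, mul_zero, Pi.zero_apply, zero_sub, neg_eq_zero] at h1
    have h2 : ∀ u ∈ Finset.univ, 0 ≤ (if adj u b = true then p u else 0) := by
      intro u _
      split
      · exact hp0 u
      · exact le_rfl
    have h3 := (Finset.sum_eq_zero_iff_of_nonneg h2).mp h1 a (Finset.mem_univ a)
    simp only [hab, if_true] at h3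
    omega
  have hpos : ∀ v, 0 < p v := by
    intro v
    have hr := hsc v0 v
    induction hr with
    | refl => exact hv0
    | tail _ h ih => exact hstep _ _ h ih
  -- a nonnegative stabilising vector
  obtain ⟨m, hm⟩ : ∃ m : ℤ, ∀ v, 0 ≤ z v + m * p v := by
    obtain ⟨B, hB⟩ := (Set.finite_range (fun v => -z v)).bddAbove
    refine ⟨max B 0, fun v => ?_⟩
    have h1 : -z v ≤ B := hB ⟨v, rfl⟩
    have h2 := hpos v
    have h3 : B ≤ max B 0 := le_max_left _ _
    have h4 : 0 ≤ max B 0 := le_max_right _ _
    nlinarith
  let z' : V → ℤ := z + m • p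
  have hz' : ∀ v, x v - lap adj z' v < outdeg adj v := by
    intro v
    have : lap adj z' = lap adj z := by
      simp only [z']
      rw [lap_add, lap_smul, hlp]
      simp
    rw [this]
    exact hz v
  have hz0 : ∀ v, 0 ≤ z' v := by
    intro v
    simpa [z'] using hm v
  have hle : ∀ a v, f a v ≤ z' v := by
    intro a
    induction a with
    | zero => intro v; simp only [hf0, Pi.zero_apply]; exact hz0 v
    | succ a ih =>
      intro v
      obtain ⟨u, hu1, hu2⟩ := hfs a
      rw [hu2]
      by_cases h : v = u
      · subst h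
        simp only [Pi.add_apply, Pi.single_eq_same]
        rcases lt_or_eq_of_le (ih v) with hlt | heq
        · omega
        · exfalso
          have h1 : g a v = x v - lap adj (f a) v := by
            have := congrFun (hgf a) v
            rw [this, hg0]
            rfl
          have h2 : lap adj z' v ≤ lap adj (f a) v := by
            simp only [lap, heq]
            have : ∑ w, (if adj w v = true then f a w else 0) ≤
                ∑ w, (if adj w v = true then z' w else 0) := by
              apply Finset.sum_le_sum
              intro w _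
              split
              · exact ih w
              · exact le_rfl
            omega
          have h3 := hz' v
          simp only [fire, hl] at hu1
          simp at hu1
          omega
      · have := ih v
        simp [h]
        exact this
  have hbound : ∀ a : ℕ, (a : ℤ) ≤ ∑ v, z' v := by
    intro a
    rw [← hsumf a]
    exact Finset.sum_le_sum (fun v _ => hle a v)
  have h1 := hbound ((∑ v, z' v).toNat + 1)
  have h2 : 0 ≤ ∑ v, z' v := Finset.sum_nonneg (fun v _ => hz0 v)
  push_cast at h1
  omega

/-- Criterion: on a strongly connected loopless digraph, `x` is terminating iff some integer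
firing vector leads to a distribution in which no vertex can be fired. -/
theorem terminating_iff (adj : V → V → Bool) (hl : ∀ v, adj v v = false)
    (hsc : StronglyConnected adj) (x : V → ℤ) :
    Terminating adj x ↔ ∃ z : V → ℤ, ∀ v, x v - lap adj z v < outdeg adj v :=
  ⟨exists_stable_of_terminating adj hl x,
    fun ⟨z, hz⟩ => terminating_of_exists_stable adj hl hsc x z hz⟩

end Pool.Agent.Helper68.Chip
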