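import Mathlib

/-!
Chip-firing on finite simple digraphs: definitions, and the instances of the halting problem with
their encoding.
-/

set_option autoImplicit false

namespace Pool.Agent.Helper68.Chip

section

variable {V : Type} [Fintype V] [DecidableEq V]

/-- The number of out-neighbours of `v`. -/
def outdeg (adj : V → V → Bool) (v : V) : ℤ :=
  ((Finset.univ.filter (fun w => adj v w = true)).card : ℤ)

/-- The chip distribution after firing `v`: `v` loses `outdeg v` chips and every out-neighbour
of `v` gains one chip. -/
def fire (adj : V → V → Bool) (v : V) (x : V → ℤ) : V → ℤ :=
  fun w => x w - (if w = v then outdeg adj v else 0) + (if adj v w = true then 1 else 0)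

/-- A legal firing: the number of chips of the fired vertex remains nonnegative. -/
def LegalStep (adj : V → V → Bool) (x y : V → ℤ) : Prop :=
  ∃ v, 0 ≤ fire adj v x v ∧ y = fire adj v x

/-- `x` is terminating: there is no infinite legal game from `x`. -/
def Terminating (adj : V → V → Bool) (x : V → ℤ) : Prop :=
  ¬ ∃ g : ℕ → V → ℤ, g 0 = x ∧ ∀ i, LegalStep adj (g i) (g (i + 1))

/-- Every vertex can be reached from every vertex along arcs. -/
def StronglyConnected (adj : V → V → Bool) : Prop :=
  ∀ u v, Relation.ReflTransGen (fun a b => adj a b = true) u v

end

open Computability

/-- An instance of the halting problem: a digraph without loops and parallel arcs on the vertices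
`0, ..., n - 1`, given by its adjacency matrix, and a chip distribution. -/
structure ChipInstance where
  /-- the number of vertices -/
  n : ℕ
  /-- `adj u v = true` if there is an arc from `u` to `v` -/
  adj : Fin n → Fin n → Bool
  loopless : ∀ v, adj v v = false
  /-- the chip distribution -/
  chips : Fin n → ℤ

/-- The encoding of an integer: a sign bit followed by the binary digits of the absolute value,
least significant digit first. -/
def encodeInt (x : ℤ) : List Γ' :=
  Γ'.bit (decide (x < 0)) :: (Nat.bits x.natAbs).map Γ'.bit

/-- The encoding of an instance: the adjacency matrix row by row, and then, for every vertex, a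
comma followed by the number of chips in binary. -/
def encodeInstance (I : ChipInstance) : List Γ' :=
  (List.finRange I.n).flatMap (fun u => (List.finRange I.n).map (fun v => Γ'.bit (I.adj u v))) ++
  (List.finRange I.n).flatMap (fun v => Γ'.comma :: encodeInt (I.chips v))

end Pool.Agent.Helper68.Chip
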