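import Pool.Agent.Helper68.PU

/-!
Constraint satisfaction problems given by unary polynomial time functions, and their reduction
to systems of incongruences.
-/

set_option autoImplicit false

namespace Pool.Agent.Helper68.Una

open Finset

theorem nth_prime_le (j : ℕ) : Nat.nth Nat.Prime j ≤ 4 * (j + 1) ^ 2 := by
  by_contra h
  push Not at h
  set X := 4 * (j + 1) ^ 2 with hX
  have hc : Nat.primeCounting X ≤ j := by
    by_contra h1
    push Not at h1
    have h2 : Nat.nth Nat.Prime j < X + 1 :=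
      (Nat.lt_nth_iff_count_lt Nat.infinite_setOfPred_prime).mp h1
    omega
  have h1 := Chebyshev.two_pow_le_mul_lcmUpto X
  have h2 : Nat.lcmUpto X ≤ X ^ j := by
    rw [Nat.lcmUpto_eq_prod_pow_log]
    calc ∏ p ∈ Nat.primesLE X, p ^ Nat.log p X ≤ ∏ p ∈ Nat.primesLE X, X :=
          Finset.prod_le_prod' (fun p _ => Nat.pow_log_le_self p (by positivity))
      _ = X ^ Nat.primeCounting X := by
          rw [Finset.prod_const, Nat.primesLE_card_eq_primeCounting]
      _ ≤ X ^ j := Nat.pow_le_pow_right (by positivity) hc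
  have h3 : X + 1 ≤ 2 ^ (2 * j + 3) := by
    have h4 : j + 1 ≤ 2 ^ j := Nat.lt_two_pow_self
    have h5 : (j + 1) ^ 2 ≤ (2 ^ j) ^ 2 := Nat.pow_le_pow_left h4 2
    have h6 : 2 ^ (2 * j + 3) = 8 * (2 ^ j) ^ 2 := by
      rw [pow_add, ← pow_mul, Nat.mul_comm 2 j]; ring
    have h7 : 1 ≤ (j + 1) ^ 2 := Nat.one_le_pow _ _ (by omega)
    rw [h6]
    omega
  have h4 : 2 ^ X ≤ 2 ^ ((2 * j + 3) * (j + 1)) := by
    calc 2 ^ X ≤ (X + 1) * Nat.lcmUpto X := h1
      _ ≤ (X + 1) * X ^ j := Nat.mul_le_mul_left _ h2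
      _ ≤ (X + 1) * (X + 1) ^ j := Nat.mul_le_mul_left _ (Nat.pow_le_pow_left (by omega) j)
      _ = (X + 1) ^ (j + 1) := by rw [pow_succ, Nat.mul_comm]
      _ ≤ (2 ^ (2 * j + 3)) ^ (j + 1) := Nat.pow_le_pow_left h3 _
      _ = 2 ^ ((2 * j + 3) * (j + 1)) := by rw [← pow_mul]
  have h5 : X ≤ (2 * j + 3) * (j + 1) := (Nat.pow_le_pow_iff_right (by norm_num)).mp h4
  rw [hX] at h5
  nlinarith

variable {α : Type} [Ctx α]

theorem PU.nthPrime {f : α → ℕ} (hf : PU f) : PU (fun a => Nat.nth Nat.Prime (f a)) := by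
  classical
  refine (PU.mu0 (n := fun a => 4 * (f a + 1) ^ 2 + 1)
    (Q := fun a m => m.Prime ∧ ((range m).filter Nat.Prime).card = f a)
    (((PU.const 4).mul ((hf.add (PU.const 1)).pow 2)).add (PU.const 1))
    ((PP.prime PU.snd).and (PP.eq (PU.count (Q := fun _ i => Nat.Prime i) PU.snd
      (PP.prime PU.snd)) hf.wk))).congr (fun a => ?_)
  have hcard : ∀ m, ((range m).filter Nat.Prime).card = Nat.count Nat.Prime m := fun m => by
    rw [Nat.count_eq_card_filter_range]
  refine mu0_eq _ _ (Nat.nth Nat.Prime (f a)) ?_ ?_ ?_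
  · have := nth_prime_le (f a)
    omega
  · refine ⟨Nat.prime_nth_prime _, ?_⟩
    rw [hcard, Nat.count_nth_of_infinite Nat.infinite_setOfPred_prime]
  · rintro i hi ⟨h1, h2⟩
    rw [hcard] at h2
    have h3 := Nat.nth_count h1
    rw [h2] at h3
    omega

theorem PU.lcm {f g : α → ℕ} (hf : PU f) (hg : PU g) (hf0 : ∀ a, 0 < f a) (hg0 : ∀ a, 0 < g a) :
    PU (fun a => Nat.lcm (f a) (g a)) := by
  classical
  refine (PU.mu0 (n := fun a => f a * g a + 1)
    (Q := fun a m => 0 < m ∧ (f a ∣ m ∧ g a ∣ m))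
    ((hf.mul hg).add (PU.const 1))
    ((PP.lt (PU.const 0) PU.snd).and ((PP.dvd hf.wk PU.snd).and (PP.dvd hg.wk PU.snd)))).congr
    (fun a => ?_)
  refine mu0_eq _ _ (Nat.lcm (f a) (g a)) ?_ ?_ ?_
  · have := Nat.lcm_le_mul (hf0 a) (hg0 a)
    omega
  · exact ⟨Nat.lcm_pos (hf0 a) (hg0 a), Nat.dvd_lcm_left _ _, Nat.dvd_lcm_right _ _⟩
  · rintro i hi ⟨h1, h2, h3⟩
    have := Nat.le_of_dvd h1 (Nat.lcm_dvd h2 h3)
    omega

theorem PP.finAll (c : ℕ) {Q : ℕ → α → Prop} (h : ∀ e < c, PP (Q e)) :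
    PP (fun a => ∀ e < c, Q e a) := by
  induction c with
  | zero => exact PP.true.congr (fun a => by simp)
  | succ c ih =>
    refine ((ih (fun e he => h e (by omega))).and (h c (by omega))).congr (fun a => ?_)
    constructor
    · rintro ⟨h1, h2⟩ e he
      rcases Nat.lt_succ_iff_lt_or_eq.mp he with h3 | h3
      · exact h1 e h3
      · exact h3 ▸ h2
    · intro h1
      exact ⟨fun e he => h1 e (by omega), h1 c (by omega)⟩

theorem mu0_lt (n : ℕ) (Q : ℕ → Prop) [DecidablePred Q] (h : mu0 n Q < n) : Q (mu0 n Q) := by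
  by_cases h1 : ∃ i < n, Q i
  · exact (mu0_spec n Q h1).1
  · exfalso
    push Not at h1
    have : mu0 n Q = n := by
      unfold mu0
      rw [Finset.filter_true_of_mem, Finset.card_range]
      intro i hi k hk
      exact h1 k (by have := Finset.mem_range.mp hi; omega)
    omega

/-- A uniform family of constraint satisfaction problems: for every word `w` a list of `m w`
forbidden patterns, each given by the values of `c` variables. -/
structure CspData where
  /-- size of the domain -/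
  d : ℕ
  /-- length of the patterns -/
  c : ℕ
  /-- number of the patterns -/
  m : List Bool → ℕ
  /-- number of the variables -/
  nv : List Bool → ℕ
  /-- the variables of the patterns -/
  var : ℕ → List Bool → ℕ → ℕ
  /-- the values of the patterns -/
  val : ℕ → List Bool → ℕ → ℕ
  hc : 0 < c
  hm : PU m
  hnv : PU nv
  hvar : ∀ e, PU (fun p : List Bool × ℕ => var e p.1 p.2)
  hval : ∀ e, PU (fun p : List Bool × ℕ => val e p.1 p.2)
  var_lt : ∀ w, ∀ j < m w, ∀ e < c, var e w j < nv w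

namespace CspData

variable (D : CspData)

/-- Satisfiability. -/
def Sat (w : List Bool) : Prop :=
  ∃ x : ℕ → ℕ, (∀ v < D.nv w, x v < D.d) ∧ ∀ j < D.m w, ∃ e < D.c, x (D.var e w j) ≠ D.val e w j

/-- The prime of a variable. -/
noncomputable def q (v : ℕ) : ℕ := Nat.nth Nat.Prime (v + (D.d + 7))

theorem q_prime (v : ℕ) : (D.q v).Prime := Nat.prime_nth_prime _

theorem q_ge (v : ℕ) : v + D.d + 9 ≤ D.q v := by
  have := Nat.add_two_le_nth_prime (v + (D.d + 7))
  unfold q
  omega

theorem q_ge2 (v : ℕ) : D.d + 9 ≤ D.q v := by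
  have := D.q_ge v
  omega

theorem q_mono {u v : ℕ} (h : u ≤ v) : D.q u ≤ D.q v :=
  Nat.nth_monotone Nat.infinite_setOfPred_prime (by omega)

theorem q_inj {u v : ℕ} (h : D.q u = D.q v) : u = v := by
  have := Nat.nth_injective Nat.infinite_setOfPred_prime h
  omega

/-- Bound on the primes. -/
noncomputable def Qm (w : List Bool) : ℕ := D.q (D.nv w)

/-- Common multiple of the first moduli. -/
noncomputable def Lc : ℕ → List Bool → ℕ → ℕ
  | 0, _, _ => 1
  | e + 1, w, j => Nat.lcm (Lc e w j) (D.q (D.var e w j))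

theorem Lc_pos (e : ℕ) (w : List Bool) (j : ℕ) : 0 < D.Lc e w j := by
  induction e with
  | zero => simp [Lc]
  | succ e ih => exact Nat.lcm_pos ih (D.q_prime _).pos

theorem dvd_Lc (e : ℕ) (w : List Bool) (j : ℕ) (e' : ℕ) (h : e' < e) :
    D.q (D.var e' w j) ∣ D.Lc e w j := by
  induction e with
  | zero => omega
  | succ e ih =>
    rcases Nat.lt_succ_iff_lt_or_eq.mp h with h1 | h1
    · exact (ih h1).trans (Nat.dvd_lcm_left _ _)
    · rw [h1]
      exact Nat.dvd_lcm_right _ _

theorem Lc_dvd (e : ℕ) (w : List Bool) (j : ℕ) (z : ℤ)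
    (h : ∀ e' < e, ((D.q (D.var e' w j) : ℕ) : ℤ) ∣ z) : ((D.Lc e w j : ℕ) : ℤ) ∣ z := by
  induction e with
  | zero => simp [Lc]
  | succ e ih =>
    have h1 := ih (fun e' he => h e' (by omega))
    have h2 := h e (by omega)
    rw [Lc]
    rw [Int.natCast_dvd] at h1 h2 ⊢
    exact Nat.lcm_dvd h1 h2

theorem Lc_le (w : List Bool) (j : ℕ) (hj : j < D.m w) (e : ℕ) (he : e ≤ D.c) :
    D.Lc e w j ≤ D.Qm w ^ e := by
  induction e with
  | zero => simp [Lc]
  | succ e ih =>
    rw [Lc, pow_succ]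
    refine (Nat.lcm_le_mul (D.Lc_pos e w j) (D.q_prime _).pos).trans ?_
    exact Nat.mul_le_mul (ih (by omega)) (D.q_mono (D.var_lt w j hj e (by omega)).le)

/-- Residue of a pattern. -/
noncomputable def R (w : List Bool) (j : ℕ) : ℕ :=
  mu0 (D.Lc D.c w j) (fun r => ∀ e < D.c, r % D.q (D.var e w j) = D.val e w j)

/-- Moduli of the system of incongruences. -/
noncomputable def sb (w : List Bool) (g : ℕ) : ℕ :=
  if g < D.m w then (if D.R w g < D.Lc D.c w g then D.Lc D.c w g else D.q 0)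
  else D.q ((g - D.m w) / D.Qm w)

/-- Residues of the system of incongruences. -/
noncomputable def sa (w : List Bool) (g : ℕ) : ℕ :=
  if g < D.m w then (if D.R w g < D.Lc D.c w g then D.R w g else D.d)
  else (if D.d ≤ (g - D.m w) % D.Qm w ∧ (g - D.m w) % D.Qm w < D.q ((g - D.m w) / D.Qm w)
    then (g - D.m w) % D.Qm w else D.d)

/-- Number of incongruences. -/
noncomputable def sN (w : List Bool) : ℕ := D.m w + D.nv w * D.Qm w

/-- Bound for the moduli. -/
noncomputable def sM (w : List Bool) : ℕ := D.Qm w ^ D.c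

theorem Qm_ge (w : List Bool) : 9 ≤ D.Qm w := by
  have := D.q_ge (D.nv w)
  unfold Qm
  omega

theorem div_lt (w : List Bool) (g : ℕ) (h1 : g < D.sN w) (h2 : ¬ g < D.m w) :
    (g - D.m w) / D.Qm w < D.nv w := by
  rw [Nat.div_lt_iff_lt_mul (by have := D.Qm_ge w; omega)]
  unfold sN at h1
  omega

theorem sb_bound (w : List Bool) (g : ℕ) (hg : g < D.sN w) : 7 ≤ D.sb w g ∧ D.sb w g ≤ D.sM w := by
  have hQ := D.Qm_ge w
  have hc := D.hc
  have hQM : D.Qm w ≤ D.sM w := by
    calc D.Qm w = D.Qm w ^ 1 := (pow_one _).symm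
      _ ≤ D.Qm w ^ D.c := Nat.pow_le_pow_right (by omega) hc
  unfold sb
  split_ifs with h1 h2
  · refine ⟨?_, D.Lc_le w g h1 D.c le_rfl⟩
    have h3 := Nat.le_of_dvd (D.Lc_pos D.c w g) (D.dvd_Lc D.c w g 0 hc)
    have h4 := D.q_ge (D.var 0 w g)
    omega
  · have h3 := D.q_ge 0
    have h4 : D.q 0 ≤ D.Qm w := D.q_mono (Nat.zero_le _)
    exact ⟨by omega, h4.trans hQM⟩
  · have h3 := D.q_ge2 ((g - D.m w) / D.Qm w)
    have h4 : D.q ((g - D.m w) / D.Qm w) ≤ D.Qm w := D.q_mono (D.div_lt w g hg h1).le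
    exact ⟨by omega, h4.trans hQM⟩

theorem sa_lt (w : List Bool) (g : ℕ) : D.sa w g < D.sb w g := by
  unfold sb sa
  split_ifs with h1 h2 h3
  · exact h2
  · have := D.q_ge 0
    omega
  · exact h3.2
  · have := D.q_ge2 ((g - D.m w) / D.Qm w)
    omega

theorem incongruences_iff (w : List Bool) :
    (∃ k : ℤ, ∀ g < D.sN w, ¬ (((D.sb w g : ℕ) : ℤ) ∣ k - ((D.sa w g : ℕ) : ℤ))) ↔ D.Sat w := by
  constructor
  · rintro ⟨k, hk⟩
    have hx : ∀ v, (((k % (D.q v : ℤ)).toNat : ℕ) : ℤ) = k % (D.q v : ℤ) := fun v =>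
      Int.toNat_of_nonneg (Int.emod_nonneg _ (by have := (D.q_prime v).pos; omega))
    refine ⟨fun v => (k % (D.q v : ℤ)).toNat, ?_, ?_⟩
    · intro v hv
      by_contra hd
      push Not at hd
      have hr : (k % (D.q v : ℤ)).toNat < D.q v := by
        have := Int.emod_lt_of_pos k (show (0 : ℤ) < D.q v by have := (D.q_prime v).pos; omega)
        have := hx v
        omega
      have hq : D.q v ≤ D.Qm w := D.q_mono hv.le
      have hQ := D.Qm_ge w
      set r := (k % (D.q v : ℤ)).toNat with hrdef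
      have hg : D.m w + (r + D.Qm w * v) < D.sN w := by
        have : (v + 1) * D.Qm w ≤ D.nv w * D.Qm w := Nat.mul_le_mul_right _ hv
        rw [Nat.add_mul, Nat.one_mul, Nat.mul_comm v] at this
        unfold sN
        omega
      have h := hk _ hg
      have h1 : ¬ D.m w + (r + D.Qm w * v) < D.m w := by omega
      have h2 : D.m w + (r + D.Qm w * v) - D.m w = r + D.Qm w * v := by omega
      have h3 : (r + D.Qm w * v) / D.Qm w = v := by
        rw [Nat.add_mul_div_left _ _ (by omega), Nat.div_eq_of_lt (by omega), Nat.zero_add]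
      have h4 : (r + D.Qm w * v) % D.Qm w = r := by
        rw [Nat.add_mul_mod_self_left, Nat.mod_eq_of_lt (by omega)]
      rw [sb, sa, if_neg h1, if_neg h1, h2, h3, h4, if_pos ⟨hd, hr⟩] at h
      apply h
      rw [hrdef, hx v]
      exact Int.dvd_self_sub_emod
    · intro j hj
      by_contra hcon
      push Not at hcon
      have hcon' : ∀ e < D.c, k % (D.q (D.var e w j) : ℤ) = (D.val e w j : ℤ) := by
        intro e he
        have h1 := hcon e he
        have h2 := hx (D.var e w j)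
        rw [h1] at h2
        exact h2.symm
      have hL := D.Lc_pos D.c w j
      have hex : ∃ r < D.Lc D.c w j, ∀ e < D.c, r % D.q (D.var e w j) = D.val e w j := by
        refine ⟨(k % (D.Lc D.c w j : ℤ)).toNat, ?_, ?_⟩
        · have h1 := Int.emod_lt_of_pos k (show (0 : ℤ) < D.Lc D.c w j by omega)
          have h2 := Int.emod_nonneg k (show ((D.Lc D.c w j : ℕ) : ℤ) ≠ 0 by omega)
          omega
        · intro e he
          have h2 := Int.emod_nonneg k (show ((D.Lc D.c w j : ℕ) : ℤ) ≠ 0 by omega)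
          have h3 : (((k % (D.Lc D.c w j : ℤ)).toNat % D.q (D.var e w j) : ℕ) : ℤ) =
              (D.val e w j : ℤ) := by
            rw [Int.natCast_mod, Int.toNat_of_nonneg h2, Int.emod_emod_of_dvd, hcon' e he]
            exact Int.natCast_dvd_natCast.mpr (D.dvd_Lc D.c w j e he)
          exact_mod_cast h3
      obtain ⟨h1, h2⟩ := mu0_spec _ _ hex
      have hg : j < D.sN w := by unfold sN; omega
      have h := hk j hg
      have h2' : D.R w j < D.Lc D.c w j := h2
      rw [sb, sa, if_pos hj, if_pos hj, if_pos h2', if_pos h2'] at h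
      apply h
      apply D.Lc_dvd
      intro e he
      have h3 : D.R w j % D.q (D.var e w j) = D.val e w j := h1 e he
      have h4 := hcon' e he
      rw [← h3] at h4
      rw [Int.natCast_mod] at h4
      exact Int.ModEq.dvd (Int.ModEq.symm h4)
  · rintro ⟨x, hx, hsat⟩
    have hco : Set.Pairwise (↑(range (D.nv w)) : Set ℕ)
        (Function.onFun Nat.Coprime D.q) := by
      intro u _ v _ huv
      exact (Nat.coprime_primes (D.q_prime u) (D.q_prime v)).mpr (fun h => huv (D.q_inj h))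
    obtain ⟨k, hk⟩ := Nat.chineseRemainderOfFinset x D.q (range (D.nv w))
      (fun i _ => (D.q_prime i).ne_zero) hco
    have hk' : ∀ v < D.nv w, k % D.q v = x v := by
      intro v hv
      have h1 := hk v (Finset.mem_range.mpr hv)
      have h2 : x v < D.q v := by
        have := hx v hv
        have := D.q_ge v
        omega
      rw [Nat.ModEq, Nat.mod_eq_of_lt h2] at h1
      exact h1
    refine ⟨(k : ℤ), ?_⟩
    have key : ∀ (q a : ℕ), ((q : ℤ) ∣ (k : ℤ) - (a : ℤ)) → k % q = a % q := by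
      intro q a h
      have h1 : (a : ℤ) ≡ (k : ℤ) [ZMOD (q : ℤ)] := Int.modEq_iff_dvd.mpr h
      exact ((Int.natCast_modEq_iff).mp h1).symm
    intro g hg hdvd
    by_cases hgm : g < D.m w
    · rw [sb, sa, if_pos hgm, if_pos hgm] at hdvd
      by_cases hR : D.R w g < D.Lc D.c w g
      · rw [if_pos hR, if_pos hR] at hdvd
        have h1 := mu0_lt _ _ hR
        obtain ⟨e, he, hne⟩ := hsat g hgm
        apply hne
        have h2 : ((D.q (D.var e w g) : ℕ) : ℤ) ∣ (k : ℤ) - (D.R w g : ℤ) :=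
          (Int.natCast_dvd_natCast.mpr (D.dvd_Lc D.c w g e he)).trans hdvd
        have h3 := key _ _ h2
        rw [hk' _ (D.var_lt w g hgm e he)] at h3
        rw [h3]
        exact h1 e he
      · rw [if_neg hR, if_neg hR] at hdvd
        have h0 : 0 < D.nv w := by
          have := D.var_lt w g hgm 0 D.hc
          omega
        have h1 := key _ _ hdvd
        rw [hk' 0 h0, Nat.mod_eq_of_lt (by have := D.q_ge 0; omega)] at h1
        have := hx 0 h0
        omega
    · rw [sb, sa, if_neg hgm, if_neg hgm] at hdvd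
      have hv := D.div_lt w g hg hgm
      have h1 := key _ _ hdvd
      rw [hk' _ hv] at h1
      have h2 := hx _ hv
      have h3 := D.q_ge2 ((g - D.m w) / D.Qm w)
      split_ifs at h1 with h4
      · rw [Nat.mod_eq_of_lt h4.2] at h1
        omega
      · rw [Nat.mod_eq_of_lt (by omega)] at h1
        omega

theorem PU.q {f : α → ℕ} (hf : PU f) : PU (fun a => D.q (f a)) :=
  (hf.add (PU.const (D.d + 7))).nthPrime

theorem PU.Qm : PU (fun w : List Bool => D.Qm w) := PU.q D D.hnv

theorem PU.Lc (e : ℕ) : PU (fun p : List Bool × ℕ => D.Lc e p.1 p.2) := by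
  induction e with
  | zero => exact PU.const 1
  | succ e ih =>
    exact Una.PU.lcm ih (PU.q D (D.hvar e)) (fun a => D.Lc_pos e a.1 a.2)
      (fun a => (D.q_prime _).pos)

theorem PU.R : PU (fun p : List Bool × ℕ => D.R p.1 p.2) := by
  refine Una.PU.mu0 (α := List Bool × ℕ) (n := fun p => D.Lc D.c p.1 p.2)
    (Q := fun p r => ∀ e < D.c, r % D.q (D.var e p.1 p.2) = D.val e p.1 p.2) (PU.Lc D D.c) ?_
  exact PP.finAll D.c (fun e _ => PP.eq (Una.PU.mod Una.PU.snd (PU.q D (D.hvar e)).wk)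
    (D.hval e).wk)

theorem PU.sb : PU (fun p : List Bool × ℕ => D.sb p.1 p.2) := by
  have hm := (D.hm).wk
  have hR := PU.R D
  have hL := PU.Lc D D.c
  exact Una.PU.ite (PP.lt Una.PU.snd hm)
    (Una.PU.ite (PP.lt hR hL) hL (PU.q D (Una.PU.const 0)))
    (PU.q D ((Una.PU.snd.sub hm).div (PU.Qm D).wk))

theorem PU.sa : PU (fun p : List Bool × ℕ => D.sa p.1 p.2) := by
  have hm := (D.hm).wk
  have hR := PU.R D
  have hL := PU.Lc D D.c
  have hd : Una.PU (fun _ : List Bool × ℕ => D.d) := Una.PU.const D.d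
  have hr := (Una.PU.snd.sub hm).mod (PU.Qm D).wk
  exact Una.PU.ite (PP.lt Una.PU.snd hm)
    (Una.PU.ite (PP.lt hR hL) hR hd)
    (Una.PU.ite ((PP.le hd hr).and (PP.lt hr (PU.q D ((Una.PU.snd.sub hm).div (PU.Qm D).wk))))
      hr hd)

theorem PU.sN : PU (fun w : List Bool => D.sN w) := D.hm.add (D.hnv.mul (PU.Qm D))

theorem PU.sM : PU (fun w : List Bool => D.sM w) := (PU.Qm D).pow D.c

end CspData

/-- Digits. -/
def dig (d e n : ℕ) : ℕ := n / d ^ e % d

/-- The number with given digits. -/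
def cod (d : ℕ) : ℕ → (ℕ → ℕ) → ℕ
  | 0, _ => 0
  | c + 1, a => a 0 + d * cod d c (fun e => a (e + 1))

theorem cod_lt (d c : ℕ) : ∀ (a : ℕ → ℕ), (∀ e < c, a e < d) → cod d c a < d ^ c := by
  induction c with
  | zero => intro a _; simp [cod]
  | succ c ih =>
    intro a ha
    have h1 := ih (fun e => a (e + 1)) (fun e he => ha (e + 1) (by omega))
    have h2 := ha 0 (by omega)
    rw [cod, pow_succ, Nat.mul_comm (d ^ c) d]
    have h3 : d * (cod d c (fun e => a (e + 1)) + 1) ≤ d * d ^ c := Nat.mul_le_mul_left d h1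
    rw [Nat.mul_add, Nat.mul_one] at h3
    omega

theorem dig_cod (d c : ℕ) : ∀ (a : ℕ → ℕ), (∀ e < c, a e < d) → ∀ e < c,
    dig d e (cod d c a) = a e := by
  induction c with
  | zero => intro a _ e he; omega
  | succ c ih =>
    intro a ha e he
    have h0 := ha 0 (by omega)
    rcases e with _ | e
    · unfold dig
      rw [pow_zero, Nat.div_one, cod, Nat.add_mul_mod_self_left, Nat.mod_eq_of_lt h0]
    · have h1 := ih (fun e => a (e + 1)) (fun e he => ha (e + 1) (by omega)) e (by omega)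
      rw [← h1]
      unfold dig
      rw [cod, pow_succ, Nat.mul_comm (d ^ e) d, ← Nat.div_div_eq_div_mul,
        Nat.add_mul_div_left _ _ (by omega), Nat.div_eq_of_lt h0, Nat.zero_add]

/-- Uniform families of local constraints are constraint satisfaction problems. -/
theorem csp_of_local (d c S : ℕ) (hd : 0 < d) (hc : 0 < c) (m nv : List Bool → ℕ)
    (var : ℕ → List Bool → ℕ → ℕ) (cnd : List Bool → ℕ → ℕ) (bad : ℕ → (ℕ → ℕ) → Prop)
    (hbad : ∀ s u u', (∀ e < c, u e = u' e) → bad s u → bad s u')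
    (hm : PU m) (hnv : PU nv) (hvar : ∀ e, PU (fun p : List Bool × ℕ => var e p.1 p.2))
    (hcnd : PU (fun p : List Bool × ℕ => cnd p.1 p.2)) (hS : ∀ w, ∀ y < m w, cnd w y < S)
    (hlt : ∀ w, ∀ y < m w, ∀ e < c, var e w y < nv w) :
    ∃ D : CspData, ∀ w, D.Sat w ↔ ∃ x : ℕ → ℕ, (∀ v < nv w, x v < d) ∧
      ∀ y < m w, ¬ bad (cnd w y) (fun e => x (var e w y)) := by
  classical
  have hdc : 0 < d ^ c := Nat.pow_pos hd
  let isbad : ℕ → Prop := fun z => bad (z / d ^ c) (fun e => dig d e (z % d ^ c))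
  have hy : PU (fun p : List Bool × ℕ => p.2 / d ^ c) := PU.snd.div (PU.const _)
  have hπ : PU (fun p : List Bool × ℕ => p.2 % d ^ c) := PU.snd.mod (PU.const _)
  have hcy : PU (fun p : List Bool × ℕ => cnd p.1 (p.2 / d ^ c)) :=
    PU.subst (f := fun (p : List Bool × ℕ) k => cnd p.1 k) (PU.mid hcnd) hy
  have hcode : PU (fun p : List Bool × ℕ => cnd p.1 (p.2 / d ^ c) * d ^ c + p.2 % d ^ c) :=
    (hcy.mul (PU.const _)).add hπ
  have htbl := PP.table hcode isbad (S * d ^ c)
  refine ⟨{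
    d := d
    c := c
    m := fun w => m w * d ^ c
    nv := nv
    var := fun e w j => var e w (j / d ^ c)
    val := fun e w j => if cnd w (j / d ^ c) * d ^ c + j % d ^ c < S * d ^ c ∧
      isbad (cnd w (j / d ^ c) * d ^ c + j % d ^ c) then dig d e (j % d ^ c) else d
    hc := hc
    hm := hm.mul (PU.const _)
    hnv := hnv
    hvar := fun e => PU.subst (f := fun (p : List Bool × ℕ) k => var e p.1 k) (PU.mid (hvar e)) hy
    hval := fun e => PU.ite htbl ((hπ.div (PU.const _)).mod (PU.const _)) (PU.const d)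
    var_lt := fun w j hj e he => hlt w _ ((Nat.div_lt_iff_lt_mul hdc).mpr hj) e he }, ?_⟩
  intro w
  unfold CspData.Sat
  simp only
  constructor
  · rintro ⟨x, hx, h⟩
    refine ⟨x, hx, fun y hy hb => ?_⟩
    have ha : ∀ e < c, x (var e w y) < d := fun e he => hx _ (hlt w y hy e he)
    set π := cod d c (fun e => x (var e w y)) with hπdef
    have hπlt : π < d ^ c := cod_lt d c _ ha
    have hj : y * d ^ c + π < m w * d ^ c := by
      have : (y + 1) * d ^ c ≤ m w * d ^ c := Nat.mul_le_mul_right _ hy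
      rw [Nat.add_mul, Nat.one_mul] at this
      omega
    obtain ⟨e, he, hne⟩ := h _ hj
    have e1 : (y * d ^ c + π) / d ^ c = y := by
      rw [Nat.add_comm, Nat.add_mul_div_right _ _ hdc, Nat.div_eq_of_lt hπlt, Nat.zero_add]
    have e2 : (y * d ^ c + π) % d ^ c = π := by
      rw [Nat.add_comm, Nat.add_mul_mod_self_right, Nat.mod_eq_of_lt hπlt]
    rw [e1, e2] at hne
    have e3 : (cnd w y * d ^ c + π) / d ^ c = cnd w y := by
      rw [Nat.add_comm, Nat.add_mul_div_right _ _ hdc, Nat.div_eq_of_lt hπlt, Nat.zero_add]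
    have e4 : (cnd w y * d ^ c + π) % d ^ c = π := by
      rw [Nat.add_comm, Nat.add_mul_mod_self_right, Nat.mod_eq_of_lt hπlt]
    have hdig : ∀ e < c, dig d e π = x (var e w y) := fun e he => dig_cod d c _ ha e he
    have hcond : cnd w y * d ^ c + π < S * d ^ c ∧ isbad (cnd w y * d ^ c + π) := by
      constructor
      · have : (cnd w y + 1) * d ^ c ≤ S * d ^ c := Nat.mul_le_mul_right _ (hS w y hy)
        rw [Nat.add_mul, Nat.one_mul] at this
        omega
      · simp only [isbad, e3, e4]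
        exact hbad _ _ _ (fun e he => (hdig e he).symm) hb
    rw [if_pos hcond] at hne
    exact hne (hdig e he).symm
  · rintro ⟨x, hx, h⟩
    refine ⟨x, hx, fun j hj => ?_⟩
    have hy : j / d ^ c < m w := (Nat.div_lt_iff_lt_mul hdc).mpr hj
    by_cases hcond : cnd w (j / d ^ c) * d ^ c + j % d ^ c < S * d ^ c ∧
      isbad (cnd w (j / d ^ c) * d ^ c + j % d ^ c)
    · by_contra hall
      push Not at hall
      have hπlt : j % d ^ c < d ^ c := Nat.mod_lt _ hdc
      have e3 : (cnd w (j / d ^ c) * d ^ c + j % d ^ c) / d ^ c = cnd w (j / d ^ c) := by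
        rw [Nat.add_comm, Nat.add_mul_div_right _ _ hdc, Nat.div_eq_of_lt hπlt, Nat.zero_add]
      have e4 : (cnd w (j / d ^ c) * d ^ c + j % d ^ c) % d ^ c = j % d ^ c := by
        rw [Nat.add_comm, Nat.add_mul_mod_self_right, Nat.mod_eq_of_lt hπlt]
      have hb := hcond.2
      simp only [isbad, e3, e4] at hb
      refine h _ hy (hbad _ _ _ (fun e he => ?_) hb)
      have := hall e he
      rw [if_pos hcond] at this
      exact this.symm
    · refine ⟨0, hc, ?_⟩
      rw [if_neg hcond]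
      have := hx _ (hlt w _ hy 0 hc)
      omega

end Pool.Agent.Helper68.Una
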