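import Mathlib

/-!
Nondeterministic Turing machines and the class NP.
-/

set_option autoImplicit false

namespace Pool.Agent.Helper68.NP

/-- Head moves of a Turing machine. -/
inductive Dir : Type
  | left | stay | right

/-- The displacement of the head. -/
def Dir.toInt : Dir → ℤ
  | .left => -1
  | .stay => 0
  | .right => 1

/-- Nondeterministic Turing machines with one tape, infinite in both directions: finite sets of
states and of tape symbols, a blank symbol, symbols for the letters of the input, a start state,
a set of accepting states and a transition relation. -/
structure NTM where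
  /-- states -/
  Q : Type
  /-- tape symbols -/
  Γ : Type
  finQ : Finite Q
  finΓ : Finite Γ
  /-- the blank symbol -/
  blank : Γ
  /-- the symbols of the input letters -/
  sym : Bool → Γ
  /-- the start state -/
  start : Q
  /-- the accepting states -/
  accept : Set Q
  /-- the transition relation: `(q', a', D) ∈ δ q a` if in state `q` reading `a` the machine may
  write `a'`, move the head by `D` and pass to state `q'` -/
  δ : Q → Γ → Set (Q × Γ × Dir)

/-- Configurations of a machine. -/
structure Cfg (M : NTM) where
  /-- current state -/
  state : M.Q
  /-- position of the head -/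
  pos : ℤ
  /-- contents of the tape -/
  tape : ℤ → M.Γ

/-- The initial configuration: the input word stands at the positions `0, 1, ...`. -/
def init (M : NTM) (w : List Bool) : Cfg M where
  state := M.start
  pos := 0
  tape := fun i => if 0 ≤ i then ((w[i.toNat]?).map M.sym).getD M.blank else M.blank

/-- One step of the machine. -/
def Step (M : NTM) (c c' : Cfg M) : Prop :=
  ∃ q a D, (q, a, D) ∈ M.δ c.state (c.tape c.pos) ∧
    c' = ⟨q, c.pos + D.toInt, Function.update c.tape c.pos a⟩

/-- Some computation of at most `T` steps on the input `w` reaches an accepting state. -/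
def AcceptsIn (M : NTM) (w : List Bool) (T : ℕ) : Prop :=
  ∃ t ≤ T, ∃ c : ℕ → Cfg M, c 0 = init M w ∧ (∀ i < t, Step M (c i) (c (i + 1))) ∧
    (c t).state ∈ M.accept

/-- The class NP of languages over `{0, 1}`. -/
def InNP (L : Set (List Bool)) : Prop :=
  ∃ (M : NTM) (p : Polynomial ℕ), ∀ w, w ∈ L ↔ AcceptsIn M w (p.eval w.length)

end Pool.Agent.Helper68.NP
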