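import Pool.Agent.Helper68.Csp
import Pool.Agent.Helper68.NP

/-!
The tableau of a nondeterministic Turing machine as a constraint satisfaction problem.
-/

set_option autoImplicit false

namespace Pool.Agent.Helper68.Tab

open NP Una Calc

instance : Finite Dir := by
  have : Function.Surjective (fun k : Fin 3 => if k = 0 then Dir.left else if k = 1 then Dir.stay
      else Dir.right) := by
    intro D
    cases D
    · exact ⟨0, rfl⟩
    · exact ⟨1, rfl⟩
    · exact ⟨2, rfl⟩
  exact Finite.of_surjective _ this

theorem exists_coding (A : Type) [Finite A] (a0 : A) :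
    ∃ (n : ℕ) (cd : A → ℕ) (dc : ℕ → A), (∀ a, cd a < n) ∧ ∀ a, dc (cd a) = a := by
  obtain ⟨n, ⟨e⟩⟩ := Finite.exists_equiv_fin A
  refine ⟨n, fun a => e a, fun k => if h : k < n then e.symm ⟨k, h⟩ else a0, fun a => (e a).isLt,
    fun a => ?_⟩
  simp

/-- The variables of the constraint at time `t` and cell `i`. -/
def vr (T t i : ℕ) : ℕ → ℕ
  | 0 => t * (2 * T + 3) + (2 * T + 1)
  | 1 => t * (2 * T + 3) + (2 * T + 2)
  | 2 => t * (2 * T + 3) + T
  | 3 => t * (2 * T + 3) + (i - 1)
  | 4 => t * (2 * T + 3) + i
  | 5 => t * (2 * T + 3) + (i + 1)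
  | 6 => (t + 1) * (2 * T + 3) + i
  | _ => (t + 1) * (2 * T + 3) + (2 * T + 1)

/-- The type of the constraint at time `t` and cell `i`. -/
def cn (w : List Bool) (T t i : ℕ) : ℕ → ℕ
  | 0 => if t = 0 then 1 else 0
  | 1 => if t + 1 = T then 1 else 0
  | 2 => if i + 1 = T then 1 else if i = T then 2 else if i = T + 1 then 3 else 0
  | _ => if T ≤ i then bitw w (i - T) else 2

theorem bitw_lt (w : List Bool) (n : ℕ) : bitw w n < 4 := by
  unfold bitw
  split <;> norm_num

theorem cn_lt (w : List Bool) (T t i e : ℕ) : cn w T t i e < 4 := by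
  unfold cn
  split
  · split <;> norm_num
  · split <;> norm_num
  · split_ifs <;> norm_num
  · split
    · exact bitw_lt _ _
    · norm_num

/-- The symbol with a given number. -/
def symb (M : NTM) (b : ℕ) : M.Γ :=
  if b = 0 then M.sym false else if b = 1 then M.sym true else M.blank

theorem symb_bitw (M : NTM) (w : List Bool) (n : ℕ) :
    symb M (bitw w n) = ((w[n]?).map M.sym).getD M.blank := by
  unfold bitw
  rcases h : w[n]? with _ | b
  · simp [symb]
  · cases b <;> simp [symb]

/-- The local rule. -/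
def Good (M : NTM) (dQ : ℕ → M.Q) (dG : ℕ → M.Γ) (dC : ℕ → M.Q × M.Γ × Dir) (f : ℕ → ℕ)
    (u : ℕ → ℕ) : Prop :=
  (f 0 = 1 → dQ (u 0) = M.start ∧ dG (u 4) = symb M (f 3)) ∧
  (f 1 = 1 → dQ (u 0) ∈ M.accept) ∧
  (dQ (u 0) ∈ M.accept → dQ (u 7) = dQ (u 0)) ∧
  (dQ (u 0) ∉ M.accept → dC (u 1) ∈ M.δ (dQ (u 0)) (dG (u 2)) ∧ dQ (u 7) = (dC (u 1)).1 ∧
    dG (u 6) = match (dC (u 1)).2.2 with
      | .left => if f 2 = 3 then (dC (u 1)).2.1 else dG (u 3)
      | .stay => if f 2 = 2 then (dC (u 1)).2.1 else dG (u 4)
      | .right => if f 2 = 1 then (dC (u 1)).2.1 else dG (u 5))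

theorem Good.congr {M : NTM} {dQ : ℕ → M.Q} {dG : ℕ → M.Γ} {dC : ℕ → M.Q × M.Γ × Dir}
    {f f' : ℕ → ℕ} {u u' : ℕ → ℕ} (hf : ∀ k < 4, f k = f' k) (hu : ∀ k < 8, u k = u' k)
    (h : Good M dQ dG dC f u) : Good M dQ dG dC f' u' := by
  unfold Good at *
  rw [← hf 0 (by norm_num), ← hf 1 (by norm_num), ← hf 2 (by norm_num), ← hf 3 (by norm_num),
    ← hu 0 (by norm_num), ← hu 1 (by norm_num), ← hu 2 (by norm_num), ← hu 3 (by norm_num),
    ← hu 4 (by norm_num), ← hu 5 (by norm_num), ← hu 6 (by norm_num), ← hu 7 (by norm_num)]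
  exact h

section semantics

variable (M : NTM) (dQ : ℕ → M.Q) (dG : ℕ → M.Γ) (dC : ℕ → M.Q × M.Γ × Dir) (w : List Bool)
  (T : ℕ) (x : ℕ → ℕ)

/-- The computation read off from an assignment. -/
def run : ℕ → Cfg M
  | 0 => init M w
  | t + 1 =>
    ⟨(dC (x (t * (2 * T + 3) + (2 * T + 2)))).1,
      (run t).pos + (dC (x (t * (2 * T + 3) + (2 * T + 2)))).2.2.toInt,
      Function.update (run t).tape (run t).pos (dC (x (t * (2 * T + 3) + (2 * T + 2)))).2.1⟩

theorem run_inv (hT : 0 < T)
    (h : ∀ t < T, ∀ i, 1 ≤ i → i ≤ 2 * T - 1 → Good M dQ dG dC (cn w T t i)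
      (fun e => x (vr T t i e))) (t : ℕ) (ht : t < T)
    (hna : ∀ t' < t, dQ (x (t' * (2 * T + 3) + (2 * T + 1))) ∉ M.accept) :
    (run M dC w T x t).state = dQ (x (t * (2 * T + 3) + (2 * T + 1))) ∧
    ∀ i, t + 1 ≤ i → i + t + 1 ≤ 2 * T →
      (run M dC w T x t).tape ((run M dC w T x t).pos + ((i : ℤ) - T)) =
        dG (x (t * (2 * T + 3) + i)) := by
  induction t with
  | zero =>
    constructor
    · have h1 := (h 0 hT 1 le_rfl (by omega)).1 rfl
      exact h1.1.symm
    · intro i hi1 hi2
      have h1 := ((h 0 hT i (by omega) (by omega)).1 rfl).2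
      change dG (x (0 * (2 * T + 3) + i)) = _ at h1
      rw [h1]
      simp only [run, init, cn]
      by_cases hi : T ≤ i
      · rw [if_pos (by omega), if_pos hi, symb_bitw]
        have : ((0 : ℤ) + ((i : ℤ) - T)).toNat = i - T := by omega
        rw [this]
      · rw [if_neg (by omega), if_neg hi]
        rfl
  | succ t ih =>
    obtain ⟨ih1, ih2⟩ := ih (by omega) (fun t' ht' => hna t' (by omega))
    have hnt := hna t (by omega)
    constructor
    · have h1 := ((h t (by omega) 1 le_rfl (by omega)).2.2.2 hnt).2.1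
      exact h1.symm
    · intro i hi1 hi2
      have h1 := ((h t (by omega) i (by omega) (by omega)).2.2.2 hnt).2.2
      change dG (x ((t + 1) * (2 * T + 3) + i)) = _ at h1
      rw [h1]
      simp only [run]
      simp only [vr, cn]
      rcases hD : (dC (x (t * (2 * T + 3) + (2 * T + 2)))).2.2 with _ | _ | _
      · simp only [Dir.toInt]
        by_cases h2 : i = T + 1
        · subst h2
          have e1 : (run M dC w T x t).pos + -1 + (((T + 1 : ℕ) : ℤ) - T) =
              (run M dC w T x t).pos := by push_cast; ring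
          have e3 : (if T + 1 + 1 = T then 1 else if T + 1 = T then 2
              else if T + 1 = T + 1 then 3 else 0) = 3 := by
            rw [if_neg (by omega), if_neg (by omega), if_pos rfl]
          rw [e1, Function.update_self, if_pos e3]
        · have e1 : (run M dC w T x t).pos + -1 + ((i : ℤ) - T) =
              (run M dC w T x t).pos + (((i - 1 : ℕ) : ℤ) - T) := by
            have : ((i - 1 : ℕ) : ℤ) = (i : ℤ) - 1 := by omega
            rw [this]; ring
          have e2 : (run M dC w T x t).pos + (((i - 1 : ℕ) : ℤ) - T) ≠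
              (run M dC w T x t).pos := by omega
          rw [e1, Function.update_of_ne e2, ih2 (i - 1) (by omega) (by omega)]
          have e3 : ¬ ((if i + 1 = T then 1 else if i = T then 2 else if i = T + 1 then 3 else 0) =
              3) := by
            split_ifs <;> simp
          rw [if_neg e3]
      · simp only [Dir.toInt]
        by_cases h2 : i = T
        · subst h2
          have e1 : (run M dC w i x t).pos + 0 + ((i : ℤ) - i) =
              (run M dC w i x t).pos := by ring
          have e3 : (if i + 1 = i then 1 else if i = i then 2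
              else if i = i + 1 then 3 else 0) = 2 := by
            rw [if_neg (by omega), if_pos rfl]
          rw [e1, Function.update_self, if_pos e3]
        · have e1 : (run M dC w T x t).pos + 0 + ((i : ℤ) - T) =
              (run M dC w T x t).pos + ((i : ℤ) - T) := by ring
          have e2 : (run M dC w T x t).pos + ((i : ℤ) - T) ≠
              (run M dC w T x t).pos := by omega
          rw [e1, Function.update_of_ne e2, ih2 i (by omega) (by omega)]
          have e3 : ¬ ((if i + 1 = T then 1 else if i = T then 2 else if i = T + 1 then 3 else 0) =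
              2) := by
            split_ifs <;> simp
          rw [if_neg e3]
      · simp only [Dir.toInt]
        by_cases h2 : i + 1 = T
        · subst h2
          have e1 : (run M dC w (i + 1) x t).pos + 1 + ((i : ℤ) - ((i + 1 : ℕ) : ℤ)) =
              (run M dC w (i + 1) x t).pos := by push_cast; ring
          have e3 : (if i + 1 = i + 1 then 1 else if i = i + 1 then 2
              else if i = i + 1 + 1 then 3 else 0) = 1 := if_pos rfl
          rw [e1, Function.update_self, if_pos e3]
        · have e1 : (run M dC w T x t).pos + 1 + ((i : ℤ) - T) =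
              (run M dC w T x t).pos + (((i + 1 : ℕ) : ℤ) - T) := by
            push_cast; ring
          have e2 : (run M dC w T x t).pos + (((i + 1 : ℕ) : ℤ) - T) ≠
              (run M dC w T x t).pos := by omega
          rw [e1, Function.update_of_ne e2, ih2 (i + 1) (by omega) (by omega)]
          have e3 : ¬ ((if i + 1 = T then 1 else if i = T then 2 else if i = T + 1 then 3 else 0) =
              1) := by
            split_ifs <;> simp
          rw [if_neg e3]

theorem accepts_of_assignment (P : ℕ) (hT : T = P + 1)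
    (h : ∀ t < T, ∀ i, 1 ≤ i → i ≤ 2 * T - 1 → Good M dQ dG dC (cn w T t i)
      (fun e => x (vr T t i e))) : AcceptsIn M w P := by
  classical
  have hex : ∃ t, dQ (x (t * (2 * T + 3) + (2 * T + 1))) ∈ M.accept := by
    refine ⟨P, ?_⟩
    have h1 := (h P (by omega) 1 le_rfl (by omega)).2.1
    apply h1
    simp [cn, hT]
  have hP : Nat.find hex ≤ P := by
    apply Nat.find_min'
    have h1 := (h P (by omega) 1 le_rfl (by omega)).2.1
    apply h1
    simp [cn, hT]
  have hmin : ∀ t' < Nat.find hex, dQ (x (t' * (2 * T + 3) + (2 * T + 1))) ∉ M.accept :=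
    fun t' ht' => Nat.find_min hex ht'
  refine ⟨Nat.find hex, hP, run M dC w T x, rfl, ?_, ?_⟩
  · intro t ht
    obtain ⟨i1, i2⟩ := run_inv M dQ dG dC w T x (by omega) h t (by omega)
      (fun t' ht' => hmin t' (by omega))
    have h1 := ((h t (by omega) 1 le_rfl (by omega)).2.2.2 (hmin t ht)).1
    refine ⟨_, _, _, ?_, rfl⟩
    have h2 := i2 T (by omega) (by omega)
    rw [sub_self, add_zero] at h2
    rw [i1, h2]
    exact h1
  · rw [(run_inv M dQ dG dC w T x (by omega) h (Nat.find hex) (by omega) hmin).1]
    exact Nat.find_spec hex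

end semantics

theorem div_block (T t k : ℕ) (hk : k < 2 * T + 3) : (t * (2 * T + 3) + k) / (2 * T + 3) = t := by
  rw [Nat.add_comm, Nat.add_mul_div_right _ _ (by omega), Nat.div_eq_of_lt hk, Nat.zero_add]

theorem mod_block (T t k : ℕ) (hk : k < 2 * T + 3) : (t * (2 * T + 3) + k) % (2 * T + 3) = k := by
  rw [Nat.add_comm, Nat.add_mul_mod_self_right, Nat.mod_eq_of_lt hk]

theorem assignment_of_accepts (M : NTM) (dQ : ℕ → M.Q) (dG : ℕ → M.Γ)
    (dC : ℕ → M.Q × M.Γ × Dir) (w : List Bool) (T P d : ℕ) (hT : T = P + 1)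
    (cQ : M.Q → ℕ) (cG : M.Γ → ℕ) (cC : M.Q × M.Γ × Dir → ℕ)
    (hQ : ∀ q, cQ q < d) (hG : ∀ q, cG q < d) (hC : ∀ q, cC q < d)
    (iQ : ∀ q, dQ (cQ q) = q) (iG : ∀ q, dG (cG q) = q) (iC : ∀ q, dC (cC q) = q)
    (h : AcceptsIn M w P) :
    ∃ x : ℕ → ℕ, (∀ v, x v < d) ∧ ∀ t < T, ∀ i, 1 ≤ i → i ≤ 2 * T - 1 →
      Good M dQ dG dC (cn w T t i) (fun e => x (vr T t i e)) := by
  classical
  obtain ⟨t1, ht1, c, hc0, hstep, hacc⟩ := h
  have hex : ∃ t, (c t).state ∈ M.accept := ⟨t1, hacc⟩
  set t0 := Nat.find hex with ht0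
  have h01 : t0 ≤ t1 := Nat.find_min' hex hacc
  have hacc0 : (c t0).state ∈ M.accept := Nat.find_spec hex
  have hna : ∀ t < t0, (c t).state ∉ M.accept := fun t ht => Nat.find_min hex ht
  have hch : ∀ t, ∃ r : M.Q × M.Γ × Dir, t < t0 →
      (r ∈ M.δ (c t).state ((c t).tape (c t).pos) ∧
        c (t + 1) = ⟨r.1, (c t).pos + r.2.2.toInt,
          Function.update (c t).tape (c t).pos r.2.1⟩) := by
    intro t
    by_cases ht : t < t0
    · obtain ⟨q, a, D, h1, h2⟩ := hstep t (by omega)
      exact ⟨(q, a, D), fun _ => ⟨h1, h2⟩⟩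
    · exact ⟨(M.start, M.blank, .stay), fun h => absurd h ht⟩
  choose r hr using hch
  let x : ℕ → ℕ := fun v =>
    if v % (2 * T + 3) < 2 * T + 1 then
      cG ((c (min (v / (2 * T + 3)) t0)).tape ((c (min (v / (2 * T + 3)) t0)).pos +
        (((v % (2 * T + 3) : ℕ) : ℤ) - T)))
    else if v % (2 * T + 3) = 2 * T + 1 then cQ (c (min (v / (2 * T + 3)) t0)).state
    else cC (r (v / (2 * T + 3)))
  have xG : ∀ t k, k < 2 * T + 1 → dG (x (t * (2 * T + 3) + k)) =
      (c (min t t0)).tape ((c (min t t0)).pos + ((k : ℤ) - T)) := by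
    intro t k hk
    simp only [x]
    rw [div_block T t k (by omega), mod_block T t k (by omega), if_pos hk, iG]
  have xQ : ∀ t, dQ (x (t * (2 * T + 3) + (2 * T + 1))) = (c (min t t0)).state := by
    intro t
    simp only [x]
    rw [div_block T t _ (by omega), mod_block T t _ (by omega), if_neg (by omega), if_pos rfl, iQ]
  have xC : ∀ t, dC (x (t * (2 * T + 3) + (2 * T + 2))) = r t := by
    intro t
    simp only [x]
    rw [div_block T t _ (by omega), mod_block T t _ (by omega), if_neg (by omega),
      if_neg (by omega), iC]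
  refine ⟨x, ?_, ?_⟩
  · intro v
    simp only [x]
    split_ifs
    · exact hG _
    · exact hQ _
    · exact hC _
  · intro t ht i hi1 hi2
    refine ⟨?_, ?_, ?_, ?_⟩
    · intro h1
      have ht0 : t = 0 := by
        by_contra hne
        simp [cn, hne] at h1
      subst ht0
      have e0 : min 0 t0 = 0 := Nat.zero_min _
      constructor
      · change dQ (x (0 * (2 * T + 3) + (2 * T + 1))) = _
        rw [xQ, e0, hc0]
        rfl
      · change dG (x (0 * (2 * T + 3) + i)) = _
        rw [xG 0 i (by omega), e0, hc0]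
        simp only [init, cn]
        by_cases hi : T ≤ i
        · rw [if_pos (by omega), if_pos hi, symb_bitw]
          have : ((0 : ℤ) + ((i : ℤ) - T)).toNat = i - T := by omega
          rw [this]
        · rw [if_neg (by omega), if_neg hi]
          rfl
    · intro h1
      have htT : t + 1 = T := by
        by_contra hne
        simp [cn, hne] at h1
      change dQ (x (t * (2 * T + 3) + (2 * T + 1))) ∈ M.accept
      rw [xQ, Nat.min_eq_right (by omega)]
      exact hacc0
    · intro h1
      change dQ (x (t * (2 * T + 3) + (2 * T + 1))) ∈ M.accept at h1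
      change dQ (x ((t + 1) * (2 * T + 3) + (2 * T + 1))) =
        dQ (x (t * (2 * T + 3) + (2 * T + 1)))
      rw [xQ] at h1
      have : t0 ≤ t := by
        by_contra hlt
        push Not at hlt
        rw [Nat.min_eq_left hlt.le] at h1
        exact hna t hlt h1
      rw [xQ, xQ, Nat.min_eq_right this, Nat.min_eq_right (by omega)]
    · intro h1
      change dQ (x (t * (2 * T + 3) + (2 * T + 1))) ∉ M.accept at h1
      rw [xQ] at h1
      have hlt : t < t0 := by
        by_contra hge
        push Not at hge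
        rw [Nat.min_eq_right hge] at h1
        exact h1 hacc0
      obtain ⟨r1, r2⟩ := hr t hlt
      refine ⟨?_, ?_, ?_⟩
      · change dC (x (t * (2 * T + 3) + (2 * T + 2))) ∈
          M.δ (dQ (x (t * (2 * T + 3) + (2 * T + 1)))) (dG (x (t * (2 * T + 3) + T)))
        rw [xC, xQ, xG t T (by omega), Nat.min_eq_left hlt.le, sub_self, add_zero]
        exact r1
      · change dQ (x ((t + 1) * (2 * T + 3) + (2 * T + 1))) =
          (dC (x (t * (2 * T + 3) + (2 * T + 2)))).1
        rw [xC, xQ, Nat.min_eq_left (by omega), r2]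
      · change dG (x ((t + 1) * (2 * T + 3) + i)) =
          match (dC (x (t * (2 * T + 3) + (2 * T + 2)))).2.2 with
          | .left => if cn w T t i 2 = 3 then (dC (x (t * (2 * T + 3) + (2 * T + 2)))).2.1
              else dG (x (t * (2 * T + 3) + (i - 1)))
          | .stay => if cn w T t i 2 = 2 then (dC (x (t * (2 * T + 3) + (2 * T + 2)))).2.1
              else dG (x (t * (2 * T + 3) + i))
          | .right => if cn w T t i 2 = 1 then (dC (x (t * (2 * T + 3) + (2 * T + 2)))).2.1
              else dG (x (t * (2 * T + 3) + (i + 1)))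
        rw [xG (t + 1) i (by omega), xC, xG t (i - 1) (by omega), xG t i (by omega),
          xG t (i + 1) (by omega), Nat.min_eq_left (by omega : t + 1 ≤ t0),
          Nat.min_eq_left hlt.le, r2]
        simp only [cn]
        rcases hD : (r t).2.2 with _ | _ | _
        · simp only [Dir.toInt]
          by_cases h2 : i = T + 1
          · have e3 : (if i + 1 = T then 1 else if i = T then 2
                else if i = T + 1 then 3 else 0) = 3 := by
              rw [if_neg (by omega), if_neg (by omega), if_pos h2]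
            have e1 : (c t).pos + -1 + ((i : ℤ) - T) = (c t).pos := by
              rw [h2]; push_cast; ring
            rw [if_pos e3, e1, Function.update_self]
          · have e3 : ¬ ((if i + 1 = T then 1 else if i = T then 2
                else if i = T + 1 then 3 else 0) = 3) := by
              split_ifs <;> simp
            have e1 : (c t).pos + -1 + ((i : ℤ) - T) = (c t).pos + (((i - 1 : ℕ) : ℤ) - T) := by
              have : ((i - 1 : ℕ) : ℤ) = (i : ℤ) - 1 := by omega
              rw [this]; ring
            have e2 : (c t).pos + (((i - 1 : ℕ) : ℤ) - T) ≠ (c t).pos := by omega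
            rw [if_neg e3, e1, Function.update_of_ne e2]
        · simp only [Dir.toInt]
          by_cases h2 : i = T
          · have e3 : (if i + 1 = T then 1 else if i = T then 2
                else if i = T + 1 then 3 else 0) = 2 := by
              rw [if_neg (by omega), if_pos h2]
            have e1 : (c t).pos + 0 + ((i : ℤ) - T) = (c t).pos := by
              rw [h2]; ring
            rw [if_pos e3, e1, Function.update_self]
          · have e3 : ¬ ((if i + 1 = T then 1 else if i = T then 2
                else if i = T + 1 then 3 else 0) = 2) := by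
              split_ifs <;> simp
            have e1 : (c t).pos + 0 + ((i : ℤ) - T) = (c t).pos + ((i : ℤ) - T) := by ring
            have e2 : (c t).pos + ((i : ℤ) - T) ≠ (c t).pos := by omega
            rw [if_neg e3, e1, Function.update_of_ne e2]
        · simp only [Dir.toInt]
          by_cases h2 : i + 1 = T
          · have e3 : (if i + 1 = T then 1 else if i = T then 2
                else if i = T + 1 then 3 else 0) = 1 := if_pos h2
            have e1 : (c t).pos + 1 + ((i : ℤ) - T) = (c t).pos := by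
              rw [← h2]; push_cast; ring
            rw [if_pos e3, e1, Function.update_self]
          · have e3 : ¬ ((if i + 1 = T then 1 else if i = T then 2
                else if i = T + 1 then 3 else 0) = 1) := by
              split_ifs <;> simp
            have e1 : (c t).pos + 1 + ((i : ℤ) - T) = (c t).pos + (((i + 1 : ℕ) : ℤ) - T) := by
              push_cast; ring
            have e2 : (c t).pos + (((i + 1 : ℕ) : ℤ) - T) ≠ (c t).pos := by omega
            rw [if_neg e3, e1, Function.update_of_ne e2]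

/-- The theorem of Cook and Levin for constraint satisfaction problems. -/
theorem tableau (M : NTM) (p : Polynomial ℕ) :
    ∃ D : CspData, ∀ w, AcceptsIn M w (p.eval w.length) ↔ D.Sat w := by
  classical
  have hfQ := M.finQ
  have hfG := M.finΓ
  obtain ⟨nQ, cQ, dQ, hQ, iQ⟩ := exists_coding M.Q M.start
  obtain ⟨nG, cG, dG, hG, iG⟩ := exists_coding M.Γ M.blank
  obtain ⟨nC, cC, dC, hC, iC⟩ := exists_coding (M.Q × M.Γ × Dir) (M.start, M.blank, .stay)
  let d := nQ + nG + nC + 1
  let T : List Bool → ℕ := fun w => p.eval w.length + 1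
  have hT : PU T := (PU.poly PU.len p).add (PU.const 1)
  have hTw : PU (fun q : List Bool × ℕ => T q.1) := hT.wk
  have ht : PU (fun q : List Bool × ℕ => q.2 / (2 * T q.1 - 1)) :=
    PU.snd.div (((PU.const 2).mul hTw).sub (PU.const 1))
  have hi : PU (fun q : List Bool × ℕ => q.2 % (2 * T q.1 - 1) + 1) :=
    (PU.snd.mod (((PU.const 2).mul hTw).sub (PU.const 1))).add (PU.const 1)
  have hB : PU (fun q : List Bool × ℕ => 2 * T q.1 + 3) :=
    ((PU.const 2).mul hTw).add (PU.const 3)
  have hB1 : PU (fun q : List Bool × ℕ => 2 * T q.1 + 1) :=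
    ((PU.const 2).mul hTw).add (PU.const 1)
  have hB2 : PU (fun q : List Bool × ℕ => 2 * T q.1 + 2) :=
    ((PU.const 2).mul hTw).add (PU.const 2)
  obtain ⟨D, hD⟩ := csp_of_local d 8 256 (by omega) (by norm_num)
    (fun w => T w * (2 * T w - 1)) (fun w => (T w + 1) * (2 * T w + 3))
    (fun e w y => vr (T w) (y / (2 * T w - 1)) (y % (2 * T w - 1) + 1) e)
    (fun w y => cod 4 4 (cn w (T w) (y / (2 * T w - 1)) (y % (2 * T w - 1) + 1)))
    (fun s u => ¬ Good M dQ dG dC (fun k => dig 4 k s) u)
    (fun s u u' hu hb hg => hb (Good.congr (fun _ _ => rfl) (fun k hk => (hu k hk).symm) hg))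
    (hT.mul (((PU.const 2).mul hT).sub (PU.const 1)))
    ((hT.add (PU.const 1)).mul (((PU.const 2).mul hT).add (PU.const 3)))
    (by
      intro e
      rcases e with _ | _ | _ | _ | _ | _ | _ | e
      · exact (ht.mul hB).add hB1
      · exact (ht.mul hB).add hB2
      · exact (ht.mul hB).add hTw
      · exact (ht.mul hB).add (hi.sub (PU.const 1))
      · exact (ht.mul hB).add hi
      · exact (ht.mul hB).add (hi.add (PU.const 1))
      · exact ((ht.add (PU.const 1)).mul hB).add hi
      · exact ((ht.add (PU.const 1)).mul hB).add hB1)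
    (by
      have f0 : PU (fun q : List Bool × ℕ => cn q.1 (T q.1) (q.2 / (2 * T q.1 - 1))
          (q.2 % (2 * T q.1 - 1) + 1) 0) :=
        PU.ind (PP.eq ht (PU.const 0))
      have f1 : PU (fun q : List Bool × ℕ => cn q.1 (T q.1) (q.2 / (2 * T q.1 - 1))
          (q.2 % (2 * T q.1 - 1) + 1) 1) :=
        PU.ind (PP.eq (ht.add (PU.const 1)) hTw)
      have f2 : PU (fun q : List Bool × ℕ => cn q.1 (T q.1) (q.2 / (2 * T q.1 - 1))
          (q.2 % (2 * T q.1 - 1) + 1) 2) :=
        PU.ite (PP.eq (hi.add (PU.const 1)) hTw) (PU.const 1)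
          (PU.ite (PP.eq hi hTw) (PU.const 2)
            (PU.ite (PP.eq hi (hTw.add (PU.const 1))) (PU.const 3) (PU.const 0)))
      have f3 : PU (fun q : List Bool × ℕ => cn q.1 (T q.1) (q.2 / (2 * T q.1 - 1))
          (q.2 % (2 * T q.1 - 1) + 1) 3) :=
        PU.ite (PP.le hTw hi) (PU.bit (hi.sub hTw)) (PU.const 2)
      exact f0.add ((PU.const 4).mul (f1.add ((PU.const 4).mul (f2.add ((PU.const 4).mul
        (f3.add (PU.const (4 * 0)))))))))
    (fun w y _ => cod_lt 4 4 _ (fun e _ => cn_lt _ _ _ _ _))
    (by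
      intro w y hy e he
      have hT1 : 1 ≤ T w := by simp only [T]; omega
      have h1 : y / (2 * T w - 1) < T w := (Nat.div_lt_iff_lt_mul (by omega)).mpr hy
      have h2 : y % (2 * T w - 1) < 2 * T w - 1 := Nat.mod_lt _ (by omega)
      have h3 : (y / (2 * T w - 1) + 1) * (2 * T w + 3) ≤ T w * (2 * T w + 3) :=
        Nat.mul_le_mul_right _ h1
      rw [Nat.add_mul, Nat.one_mul] at h3
      have h4 : (T w + 1) * (2 * T w + 3) = T w * (2 * T w + 3) + (2 * T w + 3) := by ring
      have h5 : (y / (2 * T w - 1) + 1) * (2 * T w + 3) =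
        y / (2 * T w - 1) * (2 * T w + 3) + (2 * T w + 3) := by ring
      rw [h4]
      rcases e with _ | _ | _ | _ | _ | _ | _ | e <;> simp only [vr] <;> omega)
  refine ⟨D, fun w => ?_⟩
  rw [hD w]
  have hT1 : 1 ≤ T w := by simp only [T]; omega
  have hcn : ∀ y, ∀ k < 4, dig 4 k (cod 4 4 (cn w (T w) (y / (2 * T w - 1))
      (y % (2 * T w - 1) + 1))) = cn w (T w) (y / (2 * T w - 1)) (y % (2 * T w - 1) + 1) k :=
    fun y k hk => dig_cod 4 4 _ (fun e _ => cn_lt _ _ _ _ _) k hk
  constructor
  · intro h
    obtain ⟨x, hx, hg⟩ := assignment_of_accepts M dQ dG dC w (T w) (p.eval w.length) d rfl cQ cG cC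
      (fun q => by have := hQ q; omega) (fun q => by have := hG q; omega)
      (fun q => by have := hC q; omega) iQ iG iC h
    refine ⟨x, fun v _ => hx v, fun y hy hb => hb ?_⟩
    have h1 : y / (2 * T w - 1) < T w := (Nat.div_lt_iff_lt_mul (by omega)).mpr hy
    have h2 : y % (2 * T w - 1) < 2 * T w - 1 := Nat.mod_lt _ (by omega)
    exact Good.congr (fun k hk => (hcn y k hk).symm) (fun _ _ => rfl)
      (hg _ h1 (y % (2 * T w - 1) + 1) (by omega) (by omega))
  · rintro ⟨x, hx, hg⟩
    refine accepts_of_assignment M dQ dG dC w (T w) x (p.eval w.length) rfl ?_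
    intro t ht i hi1 hi2
    have hy : t * (2 * T w - 1) + (i - 1) < T w * (2 * T w - 1) := by
      have : (t + 1) * (2 * T w - 1) ≤ T w * (2 * T w - 1) := Nat.mul_le_mul_right _ ht
      rw [Nat.add_mul, Nat.one_mul] at this
      omega
    have e1 : (t * (2 * T w - 1) + (i - 1)) / (2 * T w - 1) = t := by
      rw [Nat.add_comm, Nat.add_mul_div_right _ _ (by omega), Nat.div_eq_of_lt (by omega),
        Nat.zero_add]
    have e2 : (t * (2 * T w - 1) + (i - 1)) % (2 * T w - 1) + 1 = i := by
      rw [Nat.add_comm (t * (2 * T w - 1)), Nat.add_mul_mod_self_right,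
        Nat.mod_eq_of_lt (by omega)]
      omega
    have h1 := hg _ hy
    push Not at h1
    have h2 := Good.congr (fun k hk => hcn (t * (2 * T w - 1) + (i - 1)) k hk)
      (fun _ _ => rfl) h1
    simp only [e1, e2] at h2
    exact h2

end Pool.Agent.Helper68.Tab
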