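import Pool.Agent.Helper68.Gadget
import Pool.Agent.Helper68.Tab
import Pool.Agent.Helper68.ChipDefs

/-!
Assembly of the reduction.
-/

set_option autoImplicit false

namespace Pool.Agent.Helper68.Final

open Una Calc Chip Gadget Computability

theorem PP.ite {α : Type} [Ctx α] {Q R S : α → Prop} (hQ : PP Q) (hR : PP R) (hS : PP S) :
    PP (fun a => (Q a ∧ R a) ∨ (¬ Q a ∧ S a)) := (hQ.and hR).or (hQ.not.and hS)

theorem arc_iff (M : ℕ) (b : ℕ → ℕ) (u v : ℕ) : arc M b u v = true ↔
    ((u = 0 ∧ (v = 1 ∨ (2 ≤ v ∧ ((v - 2) % M ≤ 1 ∨ b ((v - 2) / M) ≤ (v - 2) % M + 1)))) ∨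
    (¬ u = 0 ∧ ((u = 1 ∧ v = 0) ∨ (¬ u = 1 ∧
      ((b ((u - 2) / M) ≤ (u - 2) % M + 1 ∧ v = 0) ∨ (¬ b ((u - 2) / M) ≤ (u - 2) % M + 1 ∧
        (((u - 2) % M = 0 ∧ (v = u + 2 ∨ v + 2 = u + b ((u - 2) / M))) ∨ (¬ (u - 2) % M = 0 ∧
          (((u - 2) % M + 2 = b ((u - 2) / M) ∧ (v = 0 ∨ v = 1 ∨ v + 4 = u)) ∨
            (¬ (u - 2) % M + 2 = b ((u - 2) / M) ∧ (v + 1 = u ∨ v = u + 1))))))))))) := by
  unfold arc
  split_ifs with h1 h2 h3 h4 h5
  · simp [h1]
  · simp [h2]
  · simp [h1, h2, h3]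
  · rw [h4, Nat.zero_add] at h3
    simp [h1, h2, h3, h4]
  · simp [h1, h2, h3, h4, h5]
  · simp [h1, h2, h3, h4, h5]

/-- The divisor as a natural number. -/
def dvC (a b i : ℕ) : ℕ :=
  if a = 0 then (if i = 0 then 0 else if i = 1 ∨ i + 2 = b then 2 else 1)
  else if i + 1 = a then 2 else 1

theorem dvC_eq (a b i : ℕ) : (dvC a b i : ℤ) = dv a b i + 1 := by
  unfold dvC dv
  split_ifs <;> simp

theorem dvC_le (a b i : ℕ) : dvC a b i ≤ 2 := by
  unfold dvC
  split_ifs <;> simp

/-- The number of chips plus one. -/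
def chipC (M : ℕ) (a b : ℕ → ℕ) (v : ℕ) : ℕ :=
  if v = 0 then 0 else if v = 1 then 2
  else if b ((v - 2) / M) ≤ (v - 2) % M + 1 then 2
  else (if (v - 2) % M ≤ 1 ∨ (v - 2) % M + 2 = b ((v - 2) / M) then 4 else 3) -
    dvC (a ((v - 2) / M)) (b ((v - 2) / M)) ((v - 2) % M)

theorem chipC_eq (M : ℕ) (a b : ℕ → ℕ) (v : ℕ) : (chipC M a b v : ℤ) = chipN M a b v + 1 := by
  unfold chipC chipN
  have h1 := dvC_eq (a ((v - 2) / M)) (b ((v - 2) / M)) ((v - 2) % M)
  have h2 := dvC_le (a ((v - 2) / M)) (b ((v - 2) / M)) ((v - 2) % M)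
  split_ifs <;> push_cast <;> omega

theorem chipC_le (M : ℕ) (a b : ℕ → ℕ) (v : ℕ) : chipC M a b v ≤ 4 := by
  unfold chipC
  split_ifs <;> omega

/-- The table of blocks. -/
def tb : List (List Γ') :=
  [[Γ'.bit false], [Γ'.bit true], Γ'.comma :: encodeInt (-1), Γ'.comma :: encodeInt 0,
    Γ'.comma :: encodeInt 1, Γ'.comma :: encodeInt 2, Γ'.comma :: encodeInt 3]

theorem tb_bit (c : Bool) : tb.getD (if c = true then 1 else 0) [] = [Γ'.bit c] := by
  cases c <;> rfl

theorem tb_chip (c : ℕ) (z : ℤ) (h : (c : ℤ) = z + 1) (hc : c ≤ 4) :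
    tb.getD (2 + c) [] = Γ'.comma :: encodeInt z := by
  have hz : z = (c : ℤ) - 1 := by omega
  subst hz
  interval_cases c <;> rfl

theorem range_mul_flatMap {A : Type} (n m : ℕ) (hn : 0 < n) (F : ℕ → ℕ → List A) :
    (List.range (m * n)).flatMap (fun i => F (i / n) (i % n)) =
      (List.range m).flatMap (fun u => (List.range n).flatMap (fun v => F u v)) := by
  induction m with
  | zero => simp
  | succ m ih =>
    rw [Nat.add_mul, Nat.one_mul, List.range_add, List.flatMap_append, ih, List.range_succ,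
      List.flatMap_append, List.flatMap_map]
    congr 1
    simp only [List.flatMap_cons, List.flatMap_nil, List.append_nil]
    apply List.flatMap_congr
    intro v hv
    have hv : v < n := List.mem_range.mp hv
    rw [Nat.add_comm (m * n) v, Nat.add_mul_div_right _ _ hn, Nat.div_eq_of_lt hv, Nat.zero_add,
      Nat.add_mul_mod_self_right, Nat.mod_eq_of_lt hv]

theorem finRange_flatMap {A : Type} (n : ℕ) (F : ℕ → List A) :
    (List.finRange n).flatMap (fun v : Fin n => F v) = (List.range n).flatMap F := by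
  rw [← List.map_coe_finRange_eq_range, List.flatMap_map]

section

variable (D : CspData)

/-- The number of vertices. -/
noncomputable def nn (w : List Bool) : ℕ := 2 + D.sN w * D.sM w

theorem hb (w : List Bool) (g : ℕ) (hg : g < D.sN w) : 7 ≤ D.sb w g ∧ D.sb w g ≤ D.sM w + 1 := by
  have := D.sb_bound w g hg
  omega

/-- The instance of a word. -/
noncomputable def inst (w : List Bool) : ChipInstance where
  n := nn D w
  adj := adjG (D.sN w) (D.sM w) (D.sb w)
  loopless := fun v => adjG_loopless _ _ _ v (hb D w)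
  chips := fun v => chipN (D.sM w) (D.sa w) (D.sb w) v

theorem inst_connected (w : List Bool) : StronglyConnected (inst D w).adj :=
  strongly_connected _ _ _ (hb D w)

theorem inst_chips (w : List Bool) (v : Fin (inst D w).n) :
    -1 ≤ (inst D w).chips v ∧ (inst D w).chips v ≤ 3 := by
  have h1 := chipC_eq (D.sM w) (D.sa w) (D.sb w) v
  have h2 := chipC_le (D.sM w) (D.sa w) (D.sb w) v
  change -1 ≤ chipN (D.sM w) (D.sa w) (D.sb w) v ∧ chipN (D.sM w) (D.sa w) (D.sb w) v ≤ 3
  omega

theorem inst_terminating (w : List Bool) :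
    Terminating (inst D w).adj (inst D w).chips ↔ D.Sat w := by
  rw [← D.incongruences_iff w]
  exact terminating_iff_incongruences _ _ _ _ (hb D w) (fun g _ => D.sa_lt w g)

/-- The blocks of the encoding. -/
noncomputable def blk (w : List Bool) (i : ℕ) : ℕ :=
  if i < nn D w * nn D w then
    (if arc (D.sM w) (D.sb w) (i / nn D w) (i % nn D w) = true then 1 else 0)
  else 2 + chipC (D.sM w) (D.sa w) (D.sb w) (i - nn D w * nn D w)

theorem encode_eq (w : List Bool) :
    encodeInstance (inst D w) =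
      (List.range (nn D w * nn D w + nn D w)).flatMap (fun i => tb.getD (blk D w i) []) := by
  have hn : 0 < nn D w := by unfold nn; omega
  rw [List.range_add, List.flatMap_append, List.flatMap_map]
  unfold encodeInstance
  congr 1
  · have h1 : (List.range (nn D w * nn D w)).flatMap (fun i => tb.getD (blk D w i) []) =
        (List.range (nn D w * nn D w)).flatMap (fun i =>
          (fun u v => [Γ'.bit (arc (D.sM w) (D.sb w) u v)]) (i / nn D w) (i % nn D w)) := by
      apply List.flatMap_congr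
      intro i hi
      have hi : i < nn D w * nn D w := List.mem_range.mp hi
      rw [blk, if_pos hi, tb_bit]
    rw [h1]
    refine Eq.trans ?_ (range_mul_flatMap (nn D w) (nn D w) hn
      (fun u v => [Γ'.bit (arc (D.sM w) (D.sb w) u v)])).symm
    rw [← finRange_flatMap (nn D w)]
    apply List.flatMap_congr
    intro u _
    have h2 : ∀ (l : List (Fin (nn D w))) (F : Fin (nn D w) → Γ'),
        l.map F = l.flatMap (fun v => [F v]) := by
      intro l F
      induction l with
      | nil => rfl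
      | cons c l ih => rw [List.map_cons, List.flatMap_cons, ih]; rfl
    refine Eq.trans (h2 _ _) ?_
    exact finRange_flatMap (nn D w) (fun v => [Γ'.bit (arc (D.sM w) (D.sb w) u v)])
  · rw [← finRange_flatMap (nn D w)]
    apply List.flatMap_congr
    intro v _
    have h1 : ¬ nn D w * nn D w + (v : ℕ) < nn D w * nn D w := by omega
    have h2 : nn D w * nn D w + (v : ℕ) - nn D w * nn D w = v := by omega
    rw [blk, if_neg h1, h2]
    exact (tb_chip _ _ (chipC_eq _ _ _ _) (chipC_le _ _ _ _)).symm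

theorem pu_nn : PU (fun w : List Bool => nn D w) :=
  (PU.const 2).add ((CspData.PU.sN D).mul (CspData.PU.sM D))

theorem pu_blk : PU (fun p : List Bool × ℕ => blk D p.1 p.2) := by
  classical
  have hn : PU (fun p : List Bool × ℕ => nn D p.1) := (pu_nn D).wk
  have hnn := hn.mul hn
  have hM : PU (fun p : List Bool × ℕ => D.sM p.1) := (CspData.PU.sM D).wk
  have c0 : PU (fun _ : List Bool × ℕ => 0) := PU.const 0
  have c1 : PU (fun _ : List Bool × ℕ => 1) := PU.const 1
  have c2 : PU (fun _ : List Bool × ℕ => 2) := PU.const 2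
  have c3 : PU (fun _ : List Bool × ℕ => 3) := PU.const 3
  have c4 : PU (fun _ : List Bool × ℕ => 4) := PU.const 4
  have hb : ∀ {g : List Bool × ℕ → ℕ}, PU g → PU (fun p => D.sb p.1 (g p)) := fun hg =>
    PU.subst (f := fun (p : List Bool × ℕ) k => D.sb p.1 k) (PU.mid (CspData.PU.sb D)) hg
  have ha : ∀ {g : List Bool × ℕ → ℕ}, PU g → PU (fun p => D.sa p.1 (g p)) := fun hg =>
    PU.subst (f := fun (p : List Bool × ℕ) k => D.sa p.1 k) (PU.mid (CspData.PU.sa D)) hg
  have harc : ∀ {u v : List Bool × ℕ → ℕ}, PU u → PU v →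
      PP (fun p : List Bool × ℕ => arc (D.sM p.1) (D.sb p.1) (u p) (v p) = true) := by
    intro u v hu hv
    have ud := (hu.sub c2).div hM
    have um := (hu.sub c2).mod hM
    have vd := (hv.sub c2).div hM
    have vm := (hv.sub c2).mod hM
    refine (PP.ite (PP.eq hu c0)
      ((PP.eq hv c1).or ((PP.le c2 hv).and ((PP.le vm c1).or (PP.le (hb vd) (vm.add c1)))))
      (PP.ite (PP.eq hu c1) (PP.eq hv c0)
      (PP.ite (PP.le (hb ud) (um.add c1)) (PP.eq hv c0)
      (PP.ite (PP.eq um c0) ((PP.eq hv (hu.add c2)).or (PP.eq (hv.add c2) (hu.add (hb ud))))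
      (PP.ite (PP.eq (um.add c2) (hb ud))
        ((PP.eq hv c0).or ((PP.eq hv c1).or (PP.eq (hv.add c4) hu)))
        ((PP.eq (hv.add c1) hu).or (PP.eq hv (hu.add c1)))))))).congr (fun p => ?_)
    exact (arc_iff _ _ _ _).symm
  have hdv : ∀ {a b i : List Bool × ℕ → ℕ}, PU a → PU b → PU i →
      PU (fun p : List Bool × ℕ => dvC (a p) (b p) (i p)) := by
    intro a b i ha hb hi
    exact PU.ite (PP.eq ha c0)
      (PU.ite (PP.eq hi c0) c0 (PU.ite ((PP.eq hi c1).or (PP.eq (hi.add c2) hb)) c2 c1))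
      (PU.ite (PP.eq (hi.add c1) ha) c2 c1)
  have hchip : ∀ {v : List Bool × ℕ → ℕ}, PU v →
      PU (fun p : List Bool × ℕ => chipC (D.sM p.1) (D.sa p.1) (D.sb p.1) (v p)) := by
    intro v hv
    have vd := (hv.sub c2).div hM
    have vm := (hv.sub c2).mod hM
    exact PU.ite (PP.eq hv c0) c0 (PU.ite (PP.eq hv c1) c2
      (PU.ite (PP.le (hb vd) (vm.add c1)) c2
        ((PU.ite ((PP.le vm c1).or (PP.eq (vm.add c2) (hb vd))) c4 c3).sub
          (hdv (ha vd) (hb vd) vm))))
  exact PU.ite (PP.lt PU.snd hnn)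
    (PU.ite (harc (PU.snd.div hn) (PU.snd.mod hn)) c1 c0)
    (c2.add (hchip (PU.snd.sub hnn)))

theorem polytime_inst :
    Nonempty (Turing.TM2ComputableInPolyTime (id : List Bool → List Bool) encodeInstance
      (inst D)) :=
  polytime (fun w => nn D w * nn D w + nn D w) (blk D) tb (((pu_nn D).mul (pu_nn D)).add (pu_nn D))
    (pu_blk D) encodeInstance (inst D) (encode_eq D)

end

theorem np_hard (L : Set (List Bool)) (hL : NP.InNP L) :
    ∃ f : List Bool → ChipInstance,
      Nonempty (Turing.TM2ComputableInPolyTime (id : List Bool → List Bool) encodeInstance f) ∧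
      (∀ w, StronglyConnected (f w).adj) ∧
      (∀ w v, -1 ≤ (f w).chips v ∧ (f w).chips v ≤ 3) ∧
      ∀ w, w ∈ L ↔ Terminating (f w).adj (f w).chips := by
  obtain ⟨M, p, hM⟩ := hL
  obtain ⟨D, hD⟩ := Tab.tableau M p
  exact ⟨inst D, polytime_inst D, inst_connected D, inst_chips D,
    fun w => (hM w).trans ((hD w).trans (inst_terminating D w).symm)⟩

end Pool.Agent.Helper68.Final
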