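import Pool.Agent.Helper68.ChipCrit

/-!
The gadget digraph: a reduction from simultaneous incongruences to the halting problem of
chip-firing on strongly connected simple digraphs.
-/

set_option autoImplicit false
set_option linter.unusedSectionVars false

namespace Pool.Agent.Helper68.Gadget

open Relation Pool.Agent.Helper68.Chip

/-- The arcs of the gadget digraph. Vertex `0` is the root, vertex `1` a second copy of it,
vertex `2 + g * M + i` is the `i`-th vertex of gadget `g`. -/
def arc (M : ℕ) (b : ℕ → ℕ) (u v : ℕ) : Bool :=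
  if u = 0 then
    decide (v = 1 ∨ (2 ≤ v ∧ ((v - 2) % M ≤ 1 ∨ b ((v - 2) / M) ≤ (v - 2) % M + 1)))
  else if u = 1 then decide (v = 0)
  else if b ((u - 2) / M) ≤ (u - 2) % M + 1 then decide (v = 0)
  else if (u - 2) % M = 0 then decide (v = u + 2 ∨ v + 2 = u + b ((u - 2) / M))
  else if (u - 2) % M + 2 = b ((u - 2) / M) then decide (v = 0 ∨ v = 1 ∨ v + 4 = u)
  else decide (v + 1 = u ∨ v = u + 1)

/-- The divisor of the gadget with forbidden residue `a` modulo `b`. -/
def dv (a b i : ℕ) : ℤ :=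
  if a = 0 then (if i = 0 then -1 else if i = 1 ∨ i + 2 = b then 1 else 0)
  else if i + 1 = a then 1 else 0

/-- The chips. -/
def chipN (M : ℕ) (a b : ℕ → ℕ) (v : ℕ) : ℤ :=
  if v = 0 then -1 else if v = 1 then 1
  else if b ((v - 2) / M) ≤ (v - 2) % M + 1 then 1
  else (if (v - 2) % M ≤ 1 ∨ (v - 2) % M + 2 = b ((v - 2) / M) then 2 else 1) -
    dv (a ((v - 2) / M)) (b ((v - 2) / M)) ((v - 2) % M)

section sums

variable {A : Type*} [AddCommMonoid A]

theorem idx_div (M g i : ℕ) (hi : i < M) : (2 + g * M + i - 2) / M = g := by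
  have : 2 + g * M + i - 2 = i + M * g := by
    rw [Nat.mul_comm g M]; omega
  rw [this, Nat.add_mul_div_left _ _ (by omega), Nat.div_eq_of_lt hi, Nat.zero_add]

theorem idx_mod (M g i : ℕ) (hi : i < M) : (2 + g * M + i - 2) % M = i := by
  have : 2 + g * M + i - 2 = i + M * g := by
    rw [Nat.mul_comm g M]; omega
  rw [this, Nat.add_mul_mod_self_left, Nat.mod_eq_of_lt hi]

theorem idx_lt (N M g i : ℕ) (hg : g < N) (hi : i < M) : 2 + g * M + i < 2 + N * M := by
  have : (g + 1) * M ≤ N * M := Nat.mul_le_mul_right M hg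
  rw [Nat.add_mul, Nat.one_mul] at this
  omega

theorem sum_vertices (N M : ℕ) (F : ℕ → A) :
    ∑ v ∈ Finset.range (2 + N * M), F v =
      F 0 + F 1 + ∑ g ∈ Finset.range N, ∑ i ∈ Finset.range M, F (2 + g * M + i) := by
  rw [Finset.sum_range_add]
  congr 1
  · simp [Finset.sum_range_succ]
  · induction N with
    | zero => simp
    | succ N ih =>
      rw [Finset.sum_range_succ, ← ih, Nat.add_mul, Nat.one_mul, Finset.sum_range_add]
      congr 1
      apply Finset.sum_congr rfl
      intro i _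
      rw [Nat.add_assoc]

/-- cases on vertices -/
theorem vertex_cases (N M u : ℕ) (hu : u < 2 + N * M) :
    u = 0 ∨ u = 1 ∨ ∃ g i, g < N ∧ i < M ∧ u = 2 + g * M + i := by
  rcases Nat.lt_or_ge u 2 with h | h
  · have : u = 0 ∨ u = 1 := by omega
    rcases this with h | h
    · exact Or.inl h
    · exact Or.inr (Or.inl h)
  · right; right
    have hM : 0 < M := by
      rcases Nat.eq_zero_or_pos M with h0 | h0
      · subst h0; simp at hu; omega
      · exact h0
    refine ⟨(u - 2) / M, (u - 2) % M, ?_, Nat.mod_lt _ hM, ?_⟩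
    · rw [Nat.div_lt_iff_lt_mul hM]; omega
    · have := Nat.div_add_mod (u - 2) M
      rw [Nat.mul_comm] at this
      omega

theorem sum_two (n p q : ℕ) (hp : p < n) (hq : q < n) (hpq : p ≠ q) (F : ℕ → A) (P : ℕ → Prop)
    [DecidablePred P] (hP : ∀ v, P v ↔ v = p ∨ v = q) :
    ∑ v ∈ Finset.range n, (if P v then F v else 0) = F p + F q := by
  rw [← Finset.sum_filter]
  have : Finset.filter P (Finset.range n) = {p, q} := by
    ext v
    simp only [Finset.mem_filter, Finset.mem_range, hP, Finset.mem_insert, Finset.mem_singleton]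
    constructor
    · exact fun h => h.2
    · rintro (h | h)
      · exact ⟨h ▸ hp, Or.inl h⟩
      · exact ⟨h ▸ hq, Or.inr h⟩
  rw [this, Finset.sum_pair hpq]

theorem sum_one (n p : ℕ) (hp : p < n) (F : ℕ → A) (P : ℕ → Prop)
    [DecidablePred P] (hP : ∀ v, P v ↔ v = p) :
    ∑ v ∈ Finset.range n, (if P v then F v else 0) = F p := by
  rw [← Finset.sum_filter]
  have : Finset.filter P (Finset.range n) = {p} := by
    ext v
    simp only [Finset.mem_filter, Finset.mem_range, hP, Finset.mem_singleton]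
    constructor
    · exact fun h => h.2
    · intro h
      exact ⟨h ▸ hp, h⟩
  rw [this, Finset.sum_singleton]

theorem sum_three (n p q r : ℕ) (hp : p < n) (hq : q < n) (hr : r < n) (hpq : p ≠ q)
    (hpr : p ≠ r) (hqr : q ≠ r) (F : ℕ → A) (P : ℕ → Prop)
    [DecidablePred P] (hP : ∀ v, P v ↔ v = p ∨ v = q ∨ v = r) :
    ∑ v ∈ Finset.range n, (if P v then F v else 0) = F p + (F q + F r) := by
  rw [← Finset.sum_filter]
  have : Finset.filter P (Finset.range n) = {p, q, r} := by
    ext v
    simp only [Finset.mem_filter, Finset.mem_range, hP, Finset.mem_insert, Finset.mem_singleton]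
    constructor
    · exact fun h => h.2
    · rintro (h | h | h)
      · exact ⟨h ▸ hp, Or.inl h⟩
      · exact ⟨h ▸ hq, Or.inr (Or.inl h)⟩
      · exact ⟨h ▸ hr, Or.inr (Or.inr h)⟩
  rw [this, Finset.sum_insert (by simp [hpq, hpr]), Finset.sum_pair hqr]

/-- sum over the out-neighbours -/
def osum (N M : ℕ) (b : ℕ → ℕ) (u : ℕ) (h : ℕ → A) : A :=
  ∑ v ∈ Finset.range (2 + N * M), (if arc M b u v = true then h v else 0)

variable (N M : ℕ) (b : ℕ → ℕ)

theorem osum_one (h : ℕ → A) : osum N M b 1 h = h 0 := by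
  unfold osum
  apply sum_one _ 0 (by omega)
  intro v
  simp [arc]

theorem osum_dummy (g i : ℕ) (hi : i < M) (hb : b g ≤ i + 1) (h : ℕ → A) :
    osum N M b (2 + g * M + i) h = h 0 := by
  unfold osum
  apply sum_one _ 0 (by omega)
  intro v
  have h0 : 2 + g * M + i ≠ 0 := by omega
  have h1 : 2 + g * M + i ≠ 1 := by omega
  simp only [arc, h0, h1, if_false, idx_div M g i hi, idx_mod M g i hi, hb, if_true,
    decide_eq_true_eq]

theorem osum_start (g : ℕ) (hg : g < N) (hb : 7 ≤ b g) (hb2 : b g ≤ M + 1) (h : ℕ → A) :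
    osum N M b (2 + g * M) h = h (2 + g * M + 2) + h (2 + g * M + (b g - 2)) := by
  unfold osum
  apply sum_two
  · exact idx_lt N M g 2 hg (by omega)
  · exact idx_lt N M g (b g - 2) hg (by omega)
  · omega
  · intro v
    have h0 : 2 + g * M ≠ 0 := by omega
    have h1 : 2 + g * M ≠ 1 := by omega
    have e1 := idx_div M g 0 (by omega)
    have e2 := idx_mod M g 0 (by omega)
    rw [Nat.add_zero] at e1 e2
    have h3 : ¬ b g ≤ 0 + 1 := by omega
    simp only [arc, h0, h1, if_false, e1, e2, h3, if_true, decide_eq_true_eq]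
    omega

theorem osum_end (g : ℕ) (hg : g < N) (hb : 7 ≤ b g) (hb2 : b g ≤ M + 1) (h : ℕ → A) :
    osum N M b (2 + g * M + (b g - 2)) h = h 0 + (h 1 + h (2 + g * M + (b g - 6))) := by
  unfold osum
  apply sum_three
  · omega
  · omega
  · exact idx_lt N M g (b g - 6) hg (by omega)
  · omega
  · omega
  · omega
  · intro v
    have h0 : 2 + g * M + (b g - 2) ≠ 0 := by omega
    have h1 : 2 + g * M + (b g - 2) ≠ 1 := by omega
    have e1 := idx_div M g (b g - 2) (by omega)
    have e2 := idx_mod M g (b g - 2) (by omega)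
    have h3 : ¬ b g ≤ b g - 2 + 1 := by omega
    have h4 : ¬ b g - 2 = 0 := by omega
    have h5 : b g - 2 + 2 = b g := by omega
    simp only [arc, h0, h1, if_false, e1, e2, h3, h4, h5, if_true, decide_eq_true_eq]
    omega

theorem osum_mid (g i : ℕ) (hg : g < N) (_hb : 7 ≤ b g) (hb2 : b g ≤ M + 1) (hi : 1 ≤ i)
    (hi2 : i + 3 ≤ b g) (h : ℕ → A) :
    osum N M b (2 + g * M + i) h = h (2 + g * M + (i - 1)) + h (2 + g * M + (i + 1)) := by
  unfold osum
  apply sum_two
  · exact idx_lt N M g (i - 1) hg (by omega)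
  · exact idx_lt N M g (i + 1) hg (by omega)
  · omega
  · intro v
    have h0 : 2 + g * M + i ≠ 0 := by omega
    have h1 : 2 + g * M + i ≠ 1 := by omega
    have e1 := idx_div M g i (by omega)
    have e2 := idx_mod M g i (by omega)
    have h3 : ¬ b g ≤ i + 1 := by omega
    have h4 : ¬ i = 0 := by omega
    have h5 : ¬ i + 2 = b g := by omega
    simp only [arc, h0, h1, if_false, e1, e2, h3, h4, h5, decide_eq_true_eq]
    omega

theorem osum_root (hb : ∀ g < N, 7 ≤ b g ∧ b g ≤ M + 1) (h : ℕ → A) :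
    osum N M b 0 h = h 1 + ∑ g ∈ Finset.range N, (h (2 + g * M) + h (2 + g * M + 1) +
      ∑ i ∈ Finset.range M, (if b g ≤ i + 1 then h (2 + g * M + i) else 0)) := by
  unfold osum
  rw [sum_vertices]
  have e0 : arc M b 0 0 = false := by simp [arc]
  have e1 : arc M b 0 1 = true := by simp [arc]
  simp only [e0, e1, if_true, Bool.false_eq_true, if_false, zero_add]
  congr 1
  apply Finset.sum_congr rfl
  intro g hg
  rw [Finset.mem_range] at hg
  obtain ⟨h7, hM⟩ := hb g hg
  have key : ∀ i ∈ Finset.range M, (if arc M b 0 (2 + g * M + i) = true then h (2 + g * M + i) else 0)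
      = (if i = 0 then h (2 + g * M) else 0) + (if i = 1 then h (2 + g * M + 1) else 0) +
        (if b g ≤ i + 1 then h (2 + g * M + i) else 0) := by
    intro i hi
    rw [Finset.mem_range] at hi
    have h1 : ¬ 2 + g * M + i = 1 := by omega
    have h2 : 2 ≤ 2 + g * M + i := by omega
    simp only [arc, if_true, idx_div M g i hi, idx_mod M g i hi, h1, h2, true_and, false_or,
      decide_eq_true_eq]
    by_cases c0 : i = 0
    · subst c0
      have : ¬ b g ≤ 0 + 1 := by omega
      simp [this]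
    · by_cases c1 : i = 1
      · subst c1
        have : ¬ b g ≤ 1 + 1 := by omega
        simp [this]
      · have : ¬ i ≤ 1 := by omega
        simp [c0, c1, this]
  rw [Finset.sum_congr rfl key, Finset.sum_add_distrib, Finset.sum_add_distrib]
  congr 1
  congr 1
  · rw [Finset.sum_ite_eq']
    simp only [Finset.mem_range]
    rw [if_pos (by omega)]
  · rw [Finset.sum_ite_eq']
    simp only [Finset.mem_range]
    rw [if_pos (by omega)]

end sums


/-- The gadget digraph on `Fin (2 + N * M)`. -/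
def adjG (N M : ℕ) (b : ℕ → ℕ) (u v : Fin (2 + N * M)) : Bool := arc M b u v

section brackets

variable (N M : ℕ) (b : ℕ → ℕ)

theorem sum_adjG {A : Type*} [AddCommMonoid A] (u : Fin (2 + N * M)) (h : ℕ → A) :
    ∑ v : Fin (2 + N * M), (if adjG N M b u v = true then h v else 0) = osum N M b u h := by
  unfold osum adjG
  rw [Finset.sum_range]

theorem outdeg_adjG (u : Fin (2 + N * M)) :
    outdeg (adjG N M b) u = osum N M b u (fun _ => (1 : ℤ)) := by
  rw [← sum_adjG]
  simp [outdeg]

theorem cast_osum {A : Type*} [CommRing A] (u : ℕ) :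
    ((osum N M b u (fun _ => (1 : ℤ)) : ℤ) : A) = osum N M b u (fun _ => (1 : A)) := by
  unfold osum
  push_cast
  apply Finset.sum_congr rfl
  intro v _
  split <;> simp

/-- weights of the vertices of gadget `g0` -/
def wgt {A : Type*} [Zero A] (g0 : ℕ) (ω : ℕ → A) (v : ℕ) : A :=
  if 2 ≤ v ∧ (v - 2) / M = g0 ∧ (v - 2) % M + 1 < b g0 then ω ((v - 2) % M) else 0

variable {A : Type*} [CommRing A]

theorem wgt_zero (g0 : ℕ) (ω : ℕ → A) : wgt M b g0 ω 0 = 0 := by simp [wgt]
theorem wgt_one (g0 : ℕ) (ω : ℕ → A) : wgt M b g0 ω 1 = 0 := by simp [wgt]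

theorem wgt_idx (g0 g i : ℕ) (ω : ℕ → A) (hi : i < M) :
    wgt M b g0 ω (2 + g * M + i) = if g = g0 ∧ i + 1 < b g0 then ω i else 0 := by
  unfold wgt
  rw [idx_div M g i hi, idx_mod M g i hi]
  have : 2 ≤ 2 + g * M + i := by omega
  simp [this]

theorem bracket_root (hb : ∀ g < N, 7 ≤ b g ∧ b g ≤ M + 1) (g0 : ℕ) (hg0 : g0 < N) (ω : ℕ → A) :
    osum N M b 0 (fun _ => (1 : A)) * wgt M b g0 ω 0 - osum N M b 0 (wgt M b g0 ω) =
      -(ω 0 + ω 1) := by
  rw [wgt_zero, mul_zero, zero_sub, osum_root N M b hb, wgt_one, zero_add]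
  congr 1
  rw [Finset.sum_eq_single g0]
  · obtain ⟨h7, hM⟩ := hb g0 hg0
    have e0 := wgt_idx M b g0 g0 0 ω (by omega)
    have e1 := wgt_idx M b g0 g0 1 ω (by omega)
    rw [Nat.add_zero] at e0
    rw [e0, e1, if_pos ⟨rfl, by omega⟩, if_pos ⟨rfl, by omega⟩]
    have : ∑ i ∈ Finset.range M, (if b g0 ≤ i + 1 then wgt M b g0 ω (2 + g0 * M + i) else 0) = 0 := by
      apply Finset.sum_eq_zero
      intro i hi
      rw [Finset.mem_range] at hi
      split
      · rw [wgt_idx M b g0 g0 i ω hi, if_neg (by omega)]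
      · rfl
    rw [this, add_zero]
  · intro g hg hne
    rw [Finset.mem_range] at hg
    obtain ⟨h7, hM⟩ := hb g hg
    have e0 := wgt_idx M b g0 g 0 ω (by omega)
    have e1 := wgt_idx M b g0 g 1 ω (by omega)
    rw [Nat.add_zero] at e0
    rw [e0, e1, if_neg (fun h => hne h.1), if_neg (fun h => hne h.1)]
    have : ∑ i ∈ Finset.range M, (if b g ≤ i + 1 then wgt M b g0 ω (2 + g * M + i) else 0) = 0 := by
      apply Finset.sum_eq_zero
      intro i hi
      rw [Finset.mem_range] at hi
      split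
      · rw [wgt_idx M b g0 g i ω hi, if_neg (fun h => hne h.1)]
      · rfl
    rw [this]
    simp
  · intro h
    exact absurd (Finset.mem_range.mpr hg0) h

/-- If the weight function satisfies the relations of the gadget then the bracket of every
vertex but the root vanishes. -/
theorem bracket_other (hb : ∀ g < N, 7 ≤ b g ∧ b g ≤ M + 1) (g0 : ℕ) (hg0 : g0 < N) (ω : ℕ → A)
    (h1 : 2 * ω 0 = ω 2 + ω (b g0 - 2)) (h2 : 3 * ω (b g0 - 2) = ω (b g0 - 6))
    (h3 : ∀ i, 1 ≤ i → i + 3 ≤ b g0 → 2 * ω i = ω (i - 1) + ω (i + 1))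
    (u : ℕ) (hu : u < 2 + N * M) (hu0 : u ≠ 0) :
    osum N M b u (fun _ => (1 : A)) * wgt M b g0 ω u - osum N M b u (wgt M b g0 ω) = 0 := by
  rcases vertex_cases N M u hu with h | h | ⟨g, i, hg, hi, rfl⟩
  · exact absurd h hu0
  · subst h
    rw [osum_one, osum_one, wgt_one, wgt_zero]
    simp
  · obtain ⟨h7, hM⟩ := hb g hg
    by_cases hd : b g ≤ i + 1
    · rw [osum_dummy N M b g i hi hd, osum_dummy N M b g i hi hd, wgt_zero,
        wgt_idx M b g0 g i ω hi, if_neg]
      · simp
      · rintro ⟨rfl, h⟩; omega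
    · by_cases c0 : i = 0
      · subst c0
        have e0 := wgt_idx M b g0 g 0 ω (by omega)
        rw [Nat.add_zero] at e0 ⊢
        rw [osum_start N M b g hg h7 hM, osum_start N M b g hg h7 hM, e0,
          wgt_idx M b g0 g 2 ω (by omega), wgt_idx M b g0 g (b g - 2) ω (by omega)]
        by_cases hgg : g = g0
        · subst hgg
          rw [if_pos ⟨rfl, by omega⟩, if_pos ⟨rfl, by omega⟩, if_pos ⟨rfl, by omega⟩, ← h1]
          ring
        · rw [if_neg (fun h => hgg h.1), if_neg (fun h => hgg h.1), if_neg (fun h => hgg h.1)]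
          ring
      · by_cases c1 : i + 2 = b g
        · have c1' : i = b g - 2 := by omega
          subst c1'
          rw [osum_end N M b g hg h7 hM, osum_end N M b g hg h7 hM,
            wgt_idx M b g0 g (b g - 2) ω (by omega), wgt_idx M b g0 g (b g - 6) ω (by omega),
            wgt_zero, wgt_one]
          by_cases hgg : g = g0
          · subst hgg
            rw [if_pos ⟨rfl, by omega⟩, if_pos ⟨rfl, by omega⟩, ← h2]
            ring
          · rw [if_neg (fun h => hgg h.1), if_neg (fun h => hgg h.1)]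
            ring
        · rw [osum_mid N M b g i hg h7 hM (by omega) (by omega),
            osum_mid N M b g i hg h7 hM (by omega) (by omega), wgt_idx M b g0 g i ω (by omega),
            wgt_idx M b g0 g (i - 1) ω (by omega), wgt_idx M b g0 g (i + 1) ω (by omega)]
          by_cases hgg : g = g0
          · subst hgg
            rw [if_pos ⟨rfl, by omega⟩, if_pos ⟨rfl, by omega⟩, if_pos ⟨rfl, by omega⟩,
              ← h3 i (by omega) (by omega)]
            ring
          · rw [if_neg (fun h => hgg h.1), if_neg (fun h => hgg h.1), if_neg (fun h => hgg h.1)]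
            ring

/-- The weighted sum of a Laplacian vector. -/
theorem weighted_lap (hb : ∀ g < N, 7 ≤ b g ∧ b g ≤ M + 1) (g0 : ℕ) (hg0 : g0 < N) (ω : ℕ → A)
    (h1 : 2 * ω 0 = ω 2 + ω (b g0 - 2)) (h2 : 3 * ω (b g0 - 2) = ω (b g0 - 6))
    (h3 : ∀ i, 1 ≤ i → i + 3 ≤ b g0 → 2 * ω i = ω (i - 1) + ω (i + 1))
    (z : Fin (2 + N * M) → ℤ) :
    ∑ v : Fin (2 + N * M), wgt M b g0 ω v * (lap (adjG N M b) z v : A) =
      - (z ⟨0, by omega⟩ : A) * (ω 0 + ω 1) := by
  have h := sum_swap (adjG N M b) z (fun v => wgt M b g0 ω v.val)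
  rw [h, Finset.sum_eq_single (⟨0, by omega⟩ : Fin (2 + N * M))]
  · rw [sum_adjG N M b ⟨0, by omega⟩ (wgt M b g0 ω), outdeg_adjG, cast_osum]
    simp only
    rw [bracket_root N M b hb g0 hg0 ω]
    ring
  · intro u _ hu
    rw [sum_adjG N M b u (wgt M b g0 ω), outdeg_adjG, cast_osum,
      bracket_other N M b hb g0 hg0 ω h1 h2 h3 u u.isLt (fun h => hu (Fin.ext h))]
    ring
  · intro h
    exact absurd (Finset.mem_univ _) h

end brackets


/-- the divisor of the instance -/
def Dn (M : ℕ) (a b : ℕ → ℕ) (v : ℕ) : ℤ :=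
  if v < 2 then 0 else if b ((v - 2) / M) ≤ (v - 2) % M + 1 then 0
  else dv (a ((v - 2) / M)) (b ((v - 2) / M)) ((v - 2) % M)

theorem Dn_idx (M : ℕ) (a b : ℕ → ℕ) (g i : ℕ) (hi : i < M) :
    Dn M a b (2 + g * M + i) = if b g ≤ i + 1 then 0 else dv (a g) (b g) i := by
  unfold Dn
  rw [idx_div M g i hi, idx_mod M g i hi, if_neg (by omega)]

theorem sum_dv {A : Type*} [AddCommGroup A] (M a b : ℕ) (h7 : 7 ≤ b) (hM : b ≤ M + 1)
    (ha : a < b) (c : ℕ → A) :
    ∑ i ∈ Finset.range M, (if b ≤ i + 1 then (0 : ℤ) else dv a b i) • c i =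
      if a = 0 then - c 0 + c 1 + c (b - 2) else c (a - 1) := by
  by_cases h0 : a = 0
  · subst h0
    rw [if_pos rfl]
    have key : ∀ i ∈ Finset.range M, (if b ≤ i + 1 then (0 : ℤ) else dv 0 b i) • c i =
        (if i = 0 then - c 0 else 0) + (if i = 1 then c 1 else 0) +
          (if i = b - 2 then c (b - 2) else 0) := by
      intro i hi
      unfold dv
      rw [if_pos rfl]
      by_cases c0 : i = 0
      · subst c0
        rw [if_neg (by omega), if_pos rfl, if_pos rfl, if_neg (by omega), if_neg (by omega)]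
        simp
      · by_cases c1 : i = 1
        · subst c1
          rw [if_neg (by omega), if_neg (by omega), if_pos (Or.inl rfl), if_neg (by omega),
            if_pos rfl, if_neg (by omega)]
          simp
        · by_cases c2 : i = b - 2
          · subst c2
            rw [if_neg (by omega), if_neg (by omega), if_pos (Or.inr (by omega)),
              if_neg (by omega), if_neg (by omega), if_pos rfl]
            simp
          · have : ¬ (i = 1 ∨ i + 2 = b) := by omega
            rw [if_neg c0, if_neg this, if_neg c0, if_neg c1, if_neg c2]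
            simp
    rw [Finset.sum_congr rfl key, Finset.sum_add_distrib, Finset.sum_add_distrib,
      Finset.sum_ite_eq', Finset.sum_ite_eq', Finset.sum_ite_eq']
    rw [if_pos (Finset.mem_range.mpr (by omega)), if_pos (Finset.mem_range.mpr (by omega)),
      if_pos (Finset.mem_range.mpr (by omega))]
  · rw [if_neg h0]
    rw [Finset.sum_eq_single (a - 1)]
    · rw [if_neg (by omega)]
      unfold dv
      rw [if_neg h0, if_pos (by omega)]
      simp
    · intro i _ hne
      unfold dv
      rw [if_neg h0, if_neg (by omega : ¬ i + 1 = a)]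
      simp
    · intro h
      exact absurd (Finset.mem_range.mpr (by omega)) h

theorem exists_of_sum_eq_one {α : Type*} (s : Finset α) (F : α → ℤ) (h0 : ∀ v ∈ s, 0 ≤ F v)
    (h : ∑ v ∈ s, F v = 1) : ∃ v ∈ s, F v = 1 ∧ ∀ w ∈ s, w ≠ v → F w = 0 := by
  classical
  obtain ⟨v, hv, hv1⟩ : ∃ v ∈ s, 0 < F v := by
    by_contra hcon
    push Not at hcon
    have := Finset.sum_nonpos hcon
    omega
  have h1 := Finset.add_sum_erase s F hv
  have h2 : 0 ≤ ∑ w ∈ s.erase v, F w :=
    Finset.sum_nonneg (fun w hw => h0 w (Finset.mem_of_mem_erase hw))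
  have h3 : ∑ w ∈ s.erase v, F w = 0 := by omega
  refine ⟨v, hv, by omega, ?_⟩
  intro w hw hne
  exact (Finset.sum_eq_zero_iff_of_nonneg
    (fun w hw => h0 w (Finset.mem_of_mem_erase hw))).mp h3 w (Finset.mem_erase.mpr ⟨hne, hw⟩)

section forward

variable (N M : ℕ) (a b : ℕ → ℕ)

theorem weighted_D {A : Type*} [CommRing A] (hb : ∀ g < N, 7 ≤ b g ∧ b g ≤ M + 1)
    (ha : ∀ g < N, a g < b g) (g0 : ℕ) (hg0 : g0 < N) (ω : ℕ → A) :
    ∑ v : Fin (2 + N * M), wgt M b g0 ω v * (Dn M a b v : A) =
      if a g0 = 0 then - ω 0 + ω 1 + ω (b g0 - 2) else ω (a g0 - 1) := by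
  obtain ⟨h7, hM⟩ := hb g0 hg0
  rw [← sum_dv M (a g0) (b g0) h7 hM (ha g0 hg0) ω,
    ← Finset.sum_range (fun v => wgt M b g0 ω v * (Dn M a b v : A)), sum_vertices, wgt_zero,
    wgt_one, zero_mul, zero_mul, zero_add, zero_add, Finset.sum_eq_single g0]
  · apply Finset.sum_congr rfl
    intro i hi
    rw [Finset.mem_range] at hi
    rw [wgt_idx M b g0 g0 i ω hi, Dn_idx M a b g0 i hi]
    by_cases h : b g0 ≤ i + 1
    · rw [if_pos h, if_neg (by omega)]
      simp
    · rw [if_neg h, if_pos ⟨rfl, by omega⟩, zsmul_eq_mul]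
      ring
  · intro g _ hne
    apply Finset.sum_eq_zero
    intro i hi
    rw [Finset.mem_range] at hi
    rw [wgt_idx M b g0 g i ω hi, if_neg (fun h => hne h.1), zero_mul]
  · intro h
    exact absurd (Finset.mem_range.mpr hg0) h

theorem sum_Dn (hb : ∀ g < N, 7 ≤ b g ∧ b g ≤ M + 1)
    (ha : ∀ g < N, a g < b g) : ∑ v : Fin (2 + N * M), Dn M a b v = N := by
  rw [← Finset.sum_range (fun v => Dn M a b v), sum_vertices]
  have e0 : Dn M a b 0 = 0 := by simp [Dn]
  have e1 : Dn M a b 1 = 0 := by simp [Dn]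
  rw [e0, e1, zero_add, zero_add]
  have : ∀ g ∈ Finset.range N, ∑ i ∈ Finset.range M, Dn M a b (2 + g * M + i) = 1 := by
    intro g hg
    rw [Finset.mem_range] at hg
    have h := sum_dv (A := ℤ) M (a g) (b g) (hb g hg).1 (hb g hg).2 (ha g hg) (fun _ => 1)
    have h2 : (if a g = 0 then -(1 : ℤ) + 1 + 1 else 1) = 1 := by split <;> rfl
    rw [h2] at h
    rw [← h]
    apply Finset.sum_congr rfl
    intro i hi
    rw [Finset.mem_range] at hi
    rw [Dn_idx M a b g i hi]
    simp
  rw [Finset.sum_congr rfl this]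
  simp

theorem sum_F (hb : ∀ g < N, 7 ≤ b g ∧ b g ≤ M + 1)
    (ha : ∀ g < N, a g < b g) (z : Fin (2 + N * M) → ℤ) :
    ∑ v : Fin (2 + N * M), (Dn M a b v + lap (adjG N M b) z v) = N := by
  rw [Finset.sum_add_distrib, sum_Dn N M a b hb ha, sum_lap, add_zero]

theorem weighted_F {A : Type*} [CommRing A] (hb : ∀ g < N, 7 ≤ b g ∧ b g ≤ M + 1)
    (ha : ∀ g < N, a g < b g) (g0 : ℕ) (hg0 : g0 < N) (ω : ℕ → A)
    (h1 : 2 * ω 0 = ω 2 + ω (b g0 - 2)) (h2 : 3 * ω (b g0 - 2) = ω (b g0 - 6))
    (h3 : ∀ i, 1 ≤ i → i + 3 ≤ b g0 → 2 * ω i = ω (i - 1) + ω (i + 1))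
    (z : Fin (2 + N * M) → ℤ) :
    ∑ v : Fin (2 + N * M), wgt M b g0 ω v * ((Dn M a b v + lap (adjG N M b) z v : ℤ) : A) =
      (if a g0 = 0 then - ω 0 + ω 1 + ω (b g0 - 2) else ω (a g0 - 1))
      - (z ⟨0, by omega⟩ : A) * (ω 0 + ω 1) := by
  simp only [Int.cast_add, mul_add, Finset.sum_add_distrib]
  rw [weighted_D N M a b hb ha g0 hg0 ω, weighted_lap N M b hb g0 hg0 ω h1 h2 h3 z]
  ring

/-- the vertices of gadget `g0` -/
def gset (g0 : ℕ) : Finset (Fin (2 + N * M)) :=
  Finset.univ.filter (fun v : Fin (2 + N * M) => 2 ≤ v.val ∧ (v.val - 2) / M = g0 ∧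
    (v.val - 2) % M + 1 < b g0)

theorem sum_wgt {A : Type*} [CommRing A] (g0 : ℕ) (ω : ℕ → A) (F : Fin (2 + N * M) → A) :
    ∑ v : Fin (2 + N * M), wgt M b g0 ω v * F v =
      ∑ v ∈ gset N M b g0, ω ((v.val - 2) % M) * F v := by
  unfold gset wgt
  rw [Finset.sum_filter]
  apply Finset.sum_congr rfl
  intro v _
  split <;> simp

/-- Forward direction: an effective divisor in the class gives a solution of the
incongruences. -/
theorem forward (hb : ∀ g < N, 7 ≤ b g ∧ b g ≤ M + 1)
    (ha : ∀ g < N, a g < b g) (z : Fin (2 + N * M) → ℤ)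
    (hF : ∀ v : Fin (2 + N * M), 0 ≤ Dn M a b v + lap (adjG N M b) z v) :
    ∀ g < N, ¬ ((b g : ℤ) ∣ z ⟨0, by omega⟩ - a g) := by
  set F : Fin (2 + N * M) → ℤ := fun v => Dn M a b v + lap (adjG N M b) z v with hFdef
  -- number of chips in a gadget is odd
  have hT : ∀ g < N, 1 ≤ ∑ v ∈ gset N M b g, F v := by
    intro g hg
    have h := weighted_F (A := ZMod 2) N M a b hb ha g hg (fun _ => 1) (by ring)
      (by decide) (by intro i _ _; ring) z
    rw [sum_wgt N M b g] at h
    have h2 : (if a g = 0 then -(1 : ZMod 2) + 1 + 1 else 1) = 1 := by split <;> rfl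
    have h3 : (1 : ZMod 2) + 1 = 0 := by decide
    rw [h2, h3, mul_zero, sub_zero] at h
    simp only [one_mul] at h
    have h4 : ((∑ v ∈ gset N M b g, F v : ℤ) : ZMod 2) = 1 := by
      rw [← h, Int.cast_sum]
    have h5 : 0 ≤ ∑ v ∈ gset N M b g, F v := Finset.sum_nonneg (fun v _ => hF v)
    by_contra hcon
    have h6 : ∑ v ∈ gset N M b g, F v = 0 := by omega
    rw [h6] at h4
    exact absurd h4 (by decide)
  have hdisj : ∀ g ∈ Finset.range N, ∀ g' ∈ Finset.range N, g ≠ g' →
      Disjoint (gset N M b g) (gset N M b g') := by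
    intro g _ g' _ hne
    rw [Finset.disjoint_left]
    intro v hv hv'
    simp only [gset, Finset.mem_filter, Finset.mem_univ, true_and] at hv hv'
    exact hne (hv.2.1.symm.trans hv'.2.1)
  have htot : ∑ g ∈ Finset.range N, ∑ v ∈ gset N M b g, F v ≤ N := by
    rw [← Finset.sum_biUnion hdisj, ← sum_F N M a b hb ha z]
    exact Finset.sum_le_sum_of_subset_of_nonneg (Finset.subset_univ _) (fun v _ _ => hF v)
  have hT1 : ∀ g < N, ∑ v ∈ gset N M b g, F v = 1 := by
    intro g hg
    by_contra hne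
    have h1 : ∑ g ∈ Finset.range N, (1 : ℤ) < ∑ g ∈ Finset.range N, ∑ v ∈ gset N M b g, F v := by
      apply Finset.sum_lt_sum
      · intro g' hg'
        exact hT g' (Finset.mem_range.mp hg')
      · exact ⟨g, Finset.mem_range.mpr hg, lt_of_le_of_ne (hT g hg) (Ne.symm hne)⟩
    simp at h1
    omega
  intro g hg hdiv
  obtain ⟨h7, hM⟩ := hb g hg
  obtain ⟨v, hv, hv1, hv2⟩ := exists_of_sum_eq_one _ F (fun v _ => hF v) (hT1 g hg)
  have h := weighted_F (A := ZMod (b g)) N M a b hb ha g hg (fun i => (i : ZMod (b g)))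
    (by
      have : ((b g - 2 : ℕ) : ZMod (b g)) = -2 := by
        rw [Nat.cast_sub (by omega)]; simp
      simp [this])
    (by
      have e1 : ((b g - 2 : ℕ) : ZMod (b g)) = -2 := by
        rw [Nat.cast_sub (by omega)]; simp
      have e2 : ((b g - 6 : ℕ) : ZMod (b g)) = -6 := by
        rw [Nat.cast_sub (by omega)]; simp
      rw [e1, e2]; ring)
    (by
      intro i hi _
      rw [Nat.cast_sub hi]
      push_cast
      ring) z
  rw [sum_wgt N M b g] at h
  have h2 : ∑ w ∈ gset N M b g, (((w.val - 2) % M : ℕ) : ZMod (b g)) * ((F w : ℤ) : ZMod (b g)) =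
      (((v.val - 2) % M : ℕ) : ZMod (b g)) := by
    rw [Finset.sum_eq_single v]
    · rw [hv1]; simp
    · intro w hw hne
      rw [hv2 w hw hne]; simp
    · intro h; exact absurd hv h
  rw [h2] at h
  have h3 : (if a g = 0 then -((0 : ℕ) : ZMod (b g)) + ((1 : ℕ) : ZMod (b g)) +
      ((b g - 2 : ℕ) : ZMod (b g)) else ((a g - 1 : ℕ) : ZMod (b g))) = (a g : ZMod (b g)) - 1 := by
    split
    · next h0 =>
      rw [h0, Nat.cast_sub (by omega)]
      simp
      ring
    · next h0 =>
      rw [Nat.cast_sub (by omega)]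
      simp
  rw [h3] at h
  have h4 : ((z ⟨0, by omega⟩ : ℤ) : ZMod (b g)) = (a g : ZMod (b g)) := by
    have := (ZMod.intCast_zmod_eq_zero_iff_dvd (z ⟨0, by omega⟩ - a g) (b g)).mpr hdiv
    push_cast at this
    exact sub_eq_zero.mp this
  rw [h4] at h
  have h5 : ((((v.val - 2) % M + 1 : ℕ)) : ZMod (b g)) = 0 := by
    push_cast
    rw [h]
    push_cast
    ring
  rw [ZMod.natCast_eq_zero_iff] at h5
  have h6 : (v.val - 2) % M + 1 < b g := by
    simp only [gset, Finset.mem_filter, Finset.mem_univ, true_and] at hv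
    exact hv.2.2
  exact absurd (Nat.le_of_dvd (by omega) h5) (by omega)

end forward


section backward

variable (N M : ℕ) (a b : ℕ → ℕ)

theorem osum_const_root {A : Type*} [AddCommGroup A] (hb : ∀ g < N, 7 ≤ b g ∧ b g ≤ M + 1)
    (ρ : A) :
    (osum N M b 0 (fun _ => (1 : ℤ))) • ρ = ρ + ∑ g ∈ Finset.range N, (ρ + ρ +
      ∑ i ∈ Finset.range M, (if b g ≤ i + 1 then ρ else 0)) := by
  rw [osum_root N M b hb]
  rw [add_smul, one_smul, Finset.sum_smul]
  congr 1
  apply Finset.sum_congr rfl
  intro g _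
  rw [add_smul, add_smul, one_smul, Finset.sum_smul]
  congr 1
  apply Finset.sum_congr rfl
  intro i _
  split <;> simp

/-- The computation in the group of divisor classes. -/
theorem backward_group {A : Type*} [AddCommGroup A] (hb : ∀ g < N, 7 ≤ b g ∧ b g ≤ M + 1)
    (ha : ∀ g < N, a g < b g) (c : ℕ → A)
    (hc : ∀ u < 2 + N * M, (osum N M b u (fun _ => (1 : ℤ))) • c u = osum N M b u c)
    (k : ℤ) (hk : ∀ g < N, ¬ ((b g : ℤ) ∣ k - a g)) :
    ∃ j : ℕ → ℕ, (∀ g < N, j g + 1 < b g) ∧
      ∑ v ∈ Finset.range (2 + N * M), Dn M a b v • c v =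
        ∑ g ∈ Finset.range N, c (2 + g * M + j g) := by
  have hc1 : c 1 = c 0 := by
    have := hc 1 (by omega)
    rw [osum_one, osum_one, one_smul] at this
    exact this
  have hcd : ∀ g < N, ∀ i < M, b g ≤ i + 1 → c (2 + g * M + i) = c 0 := by
    intro g hg i hi hd
    have := hc _ (idx_lt N M g i hg hi)
    rw [osum_dummy N M b g i hi hd, osum_dummy N M b g i hi hd, one_smul] at this
    exact this
  have hlin : ∀ g < N, ∀ i, i + 2 ≤ b g →
      c (2 + g * M + i) = c (2 + g * M) + (i : ℤ) • (c (2 + g * M + 1) - c (2 + g * M)) ∧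
      (i + 3 ≤ b g → c (2 + g * M + (i + 1)) =
        c (2 + g * M) + ((i : ℤ) + 1) • (c (2 + g * M + 1) - c (2 + g * M))) := by
    intro g hg i
    obtain ⟨h7, hM⟩ := hb g hg
    induction i with
    | zero => intro _; constructor <;> simp
    | succ i ih =>
      intro hi
      obtain ⟨ih1, ih2⟩ := ih (by omega)
      have e1 := ih2 (by omega)
      refine ⟨by rw [e1]; push_cast; rfl, ?_⟩
      intro hi3
      have := hc _ (idx_lt N M g (i + 1) hg (by omega))
      rw [osum_mid N M b g (i + 1) hg h7 hM (by omega) (by omega),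
        osum_mid N M b g (i + 1) hg h7 hM (by omega) (by omega), Nat.add_sub_cancel, ih1, e1]
        at this
      have h2 : c (2 + g * M + (i + 1 + 1)) =
          ((1 : ℤ) + 1) • (c (2 + g * M) + ((i : ℤ) + 1) • (c (2 + g * M + 1) - c (2 + g * M))) -
          (c (2 + g * M) + (i : ℤ) • (c (2 + g * M + 1) - c (2 + g * M))) := by
        rw [this]; abel
      rw [h2]
      push_cast
      module
  have hbX : ∀ g < N, (b g : ℤ) • (c (2 + g * M + 1) - c (2 + g * M)) = 0 := by
    intro g hg
    obtain ⟨h7, hM⟩ := hb g hg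
    have := hc _ (idx_lt N M g 0 hg (by omega))
    rw [Nat.add_zero, osum_start N M b g hg h7 hM, osum_start N M b g hg h7 hM,
      (hlin g hg 2 (by omega)).1, (hlin g hg (b g - 2) (by omega)).1] at this
    have e : ((b g - 2 : ℕ) : ℤ) = (b g : ℤ) - 2 := by
      push_cast [Nat.cast_sub (show 2 ≤ b g by omega)]; ring
    rw [e] at this
    have h2 : (c (2 + g * M) + ((2 : ℕ) : ℤ) • (c (2 + g * M + 1) - c (2 + g * M)) +
        (c (2 + g * M) + ((b g : ℤ) - 2) • (c (2 + g * M + 1) - c (2 + g * M)))) -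
        ((1 : ℤ) + 1) • c (2 + g * M) = 0 := by rw [this]; abel
    rw [← h2]
    push_cast
    module
  have hW : ∀ g < N, (2 : ℤ) • c (2 + g * M) = (2 : ℤ) • c 0 := by
    intro g hg
    obtain ⟨h7, hM⟩ := hb g hg
    have := hc _ (idx_lt N M g (b g - 2) hg (by omega))
    rw [osum_end N M b g hg h7 hM, osum_end N M b g hg h7 hM,
      (hlin g hg (b g - 6) (by omega)).1, (hlin g hg (b g - 2) (by omega)).1, hc1] at this
    have e : ((b g - 2 : ℕ) : ℤ) = (b g : ℤ) - 2 := by
      push_cast [Nat.cast_sub (show 2 ≤ b g by omega)]; ring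
    have e2 : ((b g - 6 : ℕ) : ℤ) = (b g : ℤ) - 6 := by
      push_cast [Nat.cast_sub (show 6 ≤ b g by omega)]; ring
    rw [e, e2] at this
    have hX := hbX g hg
    have h3 : (2 : ℤ) • c (2 + g * M) - (2 : ℤ) • c 0 =
        (((1 : ℤ) + (1 + 1)) • (c (2 + g * M) + ((b g : ℤ) - 2) •
          (c (2 + g * M + 1) - c (2 + g * M))) -
        (c 0 + (c 0 + (c (2 + g * M) + ((b g : ℤ) - 6) •
          (c (2 + g * M + 1) - c (2 + g * M)))))) -
        (2 : ℤ) • ((b g : ℤ) • (c (2 + g * M + 1) - c (2 + g * M))) := by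
      module
    rw [this, hX, smul_zero, sub_self, sub_zero] at h3
    exact sub_eq_zero.mp h3
  have hX0 : ∑ g ∈ Finset.range N, (c (2 + g * M + 1) - c (2 + g * M)) = 0 := by
    have h := hc 0 (by omega)
    rw [osum_const_root N M b hb, osum_root N M b hb, hc1] at h
    have h2 := add_left_cancel h
    rw [← sub_eq_zero, ← Finset.sum_sub_distrib] at h2
    rw [← neg_eq_zero, ← Finset.sum_neg_distrib, ← h2]
    apply Finset.sum_congr rfl
    intro g hg
    rw [Finset.mem_range] at hg
    have e1 : ∑ i ∈ Finset.range M, (if b g ≤ i + 1 then c (2 + g * M + i) else 0) =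
        ∑ i ∈ Finset.range M, (if b g ≤ i + 1 then c 0 else 0) := by
      apply Finset.sum_congr rfl
      intro i hi
      rw [Finset.mem_range] at hi
      split
      · next hd => exact hcd g hg i hi hd
      · rfl
    rw [e1]
    have e2 := hW g hg
    rw [two_smul, two_smul] at e2
    rw [← e2]
    abel
  have hcong : ∀ g < N, ∀ m m' : ℤ, (b g : ℤ) ∣ m - m' →
      m • (c (2 + g * M + 1) - c (2 + g * M)) = m' • (c (2 + g * M + 1) - c (2 + g * M)) := by
    intro g hg m m' ⟨q, hq⟩
    have : m = m' + q * b g := by rw [mul_comm]; omega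
    rw [this, add_smul, mul_smul, hbX g hg, smul_zero, add_zero]
  refine ⟨fun g => (((a g : ℤ) - 1 - k) % b g).toNat, ?_, ?_⟩
  · intro g hg
    obtain ⟨h7, hM⟩ := hb g hg
    have h0 : 0 ≤ ((a g : ℤ) - 1 - k) % b g := Int.emod_nonneg _ (by omega)
    have h1 : ((a g : ℤ) - 1 - k) % b g < b g := Int.emod_lt_of_pos _ (by omega)
    have h2 : ((a g : ℤ) - 1 - k) % b g ≠ b g - 1 := by
      intro h
      apply hk g hg
      have h3 := Int.emod_add_mul_ediv ((a g : ℤ) - 1 - k) (b g)
      refine ⟨-(((a g : ℤ) - 1 - k) / b g) - 1, ?_⟩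
      rw [h] at h3
      have : k - a g = -((b g : ℤ) * (((a g : ℤ) - 1 - k) / b g)) - b g := by omega
      rw [this]; ring
    simp only
    omega
  · rw [sum_vertices]
    have e0 : Dn M a b 0 = 0 := by simp [Dn]
    have e1 : Dn M a b 1 = 0 := by simp [Dn]
    rw [e0, e1, zero_smul, zero_smul, zero_add, zero_add]
    have key : ∀ g ∈ Finset.range N, ∑ i ∈ Finset.range M,
        Dn M a b (2 + g * M + i) • c (2 + g * M + i) =
        c (2 + g * M + (((a g : ℤ) - 1 - k) % b g).toNat) +
          k • (c (2 + g * M + 1) - c (2 + g * M)) := by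
      intro g hg
      rw [Finset.mem_range] at hg
      obtain ⟨h7, hM⟩ := hb g hg
      have h0 : 0 ≤ ((a g : ℤ) - 1 - k) % b g := Int.emod_nonneg _ (by omega)
      have h1 : ((a g : ℤ) - 1 - k) % b g < b g := Int.emod_lt_of_pos _ (by omega)
      have h2 : ((a g : ℤ) - 1 - k) % b g ≠ b g - 1 := by
        intro h
        apply hk g hg
        have h3 := Int.emod_add_mul_ediv ((a g : ℤ) - 1 - k) (b g)
        refine ⟨-(((a g : ℤ) - 1 - k) / b g) - 1, ?_⟩
        rw [h] at h3
        have : k - a g = -((b g : ℤ) * (((a g : ℤ) - 1 - k) / b g)) - b g := by omega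
        rw [this]; ring
      have hs := sum_dv M (a g) (b g) h7 hM (ha g hg) (fun i => c (2 + g * M + i))
      have hs2 : ∑ i ∈ Finset.range M, Dn M a b (2 + g * M + i) • c (2 + g * M + i) =
          ∑ i ∈ Finset.range M, (if b g ≤ i + 1 then (0 : ℤ) else dv (a g) (b g) i) •
            c (2 + g * M + i) := by
        apply Finset.sum_congr rfl
        intro i hi
        rw [Finset.mem_range] at hi
        rw [Dn_idx M a b g i hi]
      rw [hs2, hs, (hlin g hg ((((a g : ℤ) - 1 - k) % b g).toNat) (by omega)).1,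
        Int.toNat_of_nonneg h0,
        hcong g hg (((a g : ℤ) - 1 - k) % b g) ((a g : ℤ) - 1 - k)
          (by
            have h3 := Int.emod_add_mul_ediv ((a g : ℤ) - 1 - k) (b g)
            exact ⟨-(((a g : ℤ) - 1 - k) / b g), by
              have : ((a g : ℤ) - 1 - k) % b g - ((a g : ℤ) - 1 - k) =
                -((b g : ℤ) * (((a g : ℤ) - 1 - k) / b g)) := by omega
              rw [this]; ring⟩)]
      split
      · next h0 =>
        rw [(hlin g hg (b g - 2) (by omega)).1, h0,
          hcong g hg ((b g - 2 : ℕ) : ℤ) (-2) ⟨1, by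
            push_cast [Nat.cast_sub (show 2 ≤ b g by omega)]; ring⟩]
        simp only [Nat.add_zero]
        push_cast
        module
      · next h0 =>
        rw [(hlin g hg (a g - 1) (by have := ha g hg; omega)).1,
          show ((a g - 1 : ℕ) : ℤ) = (a g : ℤ) - 1 by
            push_cast [Nat.cast_sub (show 1 ≤ a g by omega)]; ring]
        module
    rw [Finset.sum_congr rfl key, Finset.sum_add_distrib, ← Finset.smul_sum, hX0, smul_zero,
      add_zero]

end backward


section main

variable (N M : ℕ) (a b : ℕ → ℕ)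

theorem adjG_loopless (v : Fin (2 + N * M)) (hb : ∀ g < N, 7 ≤ b g ∧ b g ≤ M + 1) :
    adjG N M b v v = false := by
  unfold adjG
  rcases vertex_cases N M v v.isLt with h | h | ⟨g, i, hg, hi, h⟩
  · rw [h]; simp [arc]
  · rw [h]; simp [arc]
  · rw [h]
    obtain ⟨h7, hM⟩ := hb g hg
    have h0 : 2 + g * M + i ≠ 0 := by omega
    have h1 : 2 + g * M + i ≠ 1 := by omega
    simp only [arc, h0, h1, if_false, idx_div M g i hi, idx_mod M g i hi]
    split
    · simp
    · split
      · simp; omega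
      · split
        · simp
        · simp

theorem chip_eq (hb : ∀ g < N, 7 ≤ b g ∧ b g ≤ M + 1) (v : Fin (2 + N * M)) :
    outdeg (adjG N M b) v - 1 - chipN M a b v =
      Dn M a b v + lap (adjG N M b) (Pi.single ⟨0, by omega⟩ 1) v := by
  have hlap : lap (adjG N M b) (Pi.single ⟨0, by omega⟩ 1) v =
      (if v.val = 0 then outdeg (adjG N M b) v else 0) - (if arc M b 0 v = true then 1 else 0) := by
    simp only [lap]
    congr 1
    · by_cases h : v.val = 0
      · have : v = ⟨0, by omega⟩ := Fin.ext h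
        rw [if_pos h, this]; simp
      · have : v ≠ ⟨0, by omega⟩ := fun h' => h (by rw [h'])
        rw [if_neg h, Pi.single_eq_of_ne this, mul_zero]
    · rw [Finset.sum_eq_single (⟨0, by omega⟩ : Fin (2 + N * M))]
      · simp [adjG]
      · intro u _ hu
        rw [Pi.single_eq_of_ne hu]
        simp
      · intro h; exact absurd (Finset.mem_univ _) h
  rw [hlap]
  rcases vertex_cases N M v v.isLt with h | h | ⟨g, i, hg, hi, h⟩
  · have e0 : arc M b 0 0 = false := by simp [arc]
    rw [h, if_pos rfl, e0]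
    simp [chipN, Dn]
  · have e0 : arc M b 0 1 = true := by simp [arc]
    rw [outdeg_adjG, h, osum_one, e0]
    simp [chipN, Dn]
  · obtain ⟨h7, hM⟩ := hb g hg
    rw [outdeg_adjG, h, Dn_idx M a b g i hi, if_neg (by omega : ¬ 2 + g * M + i = 0)]
    have h0 : 2 + g * M + i ≠ 0 := by omega
    have h1 : 2 + g * M + i ≠ 1 := by omega
    have h2 : 2 ≤ 2 + g * M + i := by omega
    have hchip : chipN M a b (2 + g * M + i) = if b g ≤ i + 1 then 1 else
        (if i ≤ 1 ∨ i + 2 = b g then 2 else 1) - dv (a g) (b g) i := by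
      simp only [chipN, h0, h1, if_false, idx_div M g i hi, idx_mod M g i hi]
    have harc : arc M b 0 (2 + g * M + i) = decide (i ≤ 1 ∨ b g ≤ i + 1) := by
      simp only [arc, if_true, h1, false_or, h2, true_and, idx_div M g i hi, idx_mod M g i hi]
    rw [hchip, harc]
    by_cases hd : b g ≤ i + 1
    · rw [osum_dummy N M b g i hi hd]
      simp [hd]
    · by_cases c0 : i = 0
      · subst c0
        rw [Nat.add_zero, osum_start N M b g hg h7 hM]
        simp [hd]
        ring
      · by_cases c1 : i + 2 = b g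
        · have c1' : i = b g - 2 := by omega
          rw [c1', osum_end N M b g hg h7 hM]
          have h3 : ¬ b g ≤ b g - 2 + 1 := by omega
          have h4 : b g - 2 + 2 = b g := by omega
          have h5 : ¬ (b g - 2 ≤ 1) := by omega
          simp [h3, h4, h5]
        · rw [osum_mid N M b g i hg h7 hM (by omega) (by omega)]
          by_cases c2 : i ≤ 1
          · simp [hd, c2]
            ring
          · simp [hd, c2, c1]

theorem lap_single (u : Fin (2 + N * M)) :
    lap (adjG N M b) (Pi.single u 1) = outdeg (adjG N M b) u • (Pi.single u (1 : ℤ)) -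
      ∑ v : Fin (2 + N * M), (if adjG N M b u v = true then (Pi.single v (1 : ℤ)) else 0) := by
  funext w
  simp only [lap, Pi.sub_apply, Pi.smul_apply, smul_eq_mul, Finset.sum_apply]
  congr 1
  · by_cases h : w = u
    · subst h; rfl
    · rw [Pi.single_eq_of_ne h, mul_zero, mul_zero]
  · rw [Finset.sum_eq_single u, Finset.sum_eq_single w]
    · split <;> simp
    · intro v _ hv
      split
      · rw [Pi.single_eq_of_ne (Ne.symm hv)]
      · rfl
    · intro h; exact absurd (Finset.mem_univ _) h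
    · intro v _ hv
      rw [Pi.single_eq_of_ne hv]
      simp
    · intro h; exact absurd (Finset.mem_univ _) h

/-- the Laplacian as a homomorphism -/
def lapHom : (Fin (2 + N * M) → ℤ) →+ (Fin (2 + N * M) → ℤ) where
  toFun := lap (adjG N M b)
  map_zero' := by
    have := lap_smul (adjG N M b) 0 0
    simpa using this
  map_add' := lap_add (adjG N M b)

/-- Backward direction: a solution of the incongruences gives an effective divisor in the
class. -/
theorem backward (hb : ∀ g < N, 7 ≤ b g ∧ b g ≤ M + 1)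
    (ha : ∀ g < N, a g < b g) (k : ℤ) (hk : ∀ g < N, ¬ ((b g : ℤ) ∣ k - a g)) :
    ∃ z : Fin (2 + N * M) → ℤ, ∀ v : Fin (2 + N * M), 0 ≤ Dn M a b v + lap (adjG N M b) z v := by
  let Λ : AddSubgroup (Fin (2 + N * M) → ℤ) := (lapHom N M b).range
  let mk : (Fin (2 + N * M) → ℤ) →+ (Fin (2 + N * M) → ℤ) ⧸ Λ := QuotientAddGroup.mk' Λ
  let c : ℕ → (Fin (2 + N * M) → ℤ) ⧸ Λ := fun v =>
    if h : v < 2 + N * M then mk (Pi.single ⟨v, h⟩ 1) else 0
  have hcv : ∀ v : Fin (2 + N * M), c v = mk (Pi.single v 1) := by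
    intro v
    simp only [c]
    rw [dif_pos v.isLt]
  have hc : ∀ u < 2 + N * M, (osum N M b u (fun _ => (1 : ℤ))) • c u = osum N M b u c := by
    intro u hu
    have h1 := hcv ⟨u, hu⟩
    simp only at h1
    rw [h1, ← sum_adjG N M b ⟨u, hu⟩ c]
    have h2 := outdeg_adjG N M b ⟨u, hu⟩
    simp only at h2
    rw [← h2]
    have h3 : mk (lap (adjG N M b) (Pi.single ⟨u, hu⟩ 1)) = 0 := by
      have : lap (adjG N M b) (Pi.single ⟨u, hu⟩ 1) ∈ Λ :=
        ⟨Pi.single ⟨u, hu⟩ 1, rfl⟩
      exact (QuotientAddGroup.eq_zero_iff _).mpr this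
    rw [lap_single, map_sub, map_zsmul, map_sum] at h3
    rw [sub_eq_zero.mp h3]
    apply Finset.sum_congr rfl
    intro v _
    split
    · rw [hcv v]
    · simp
  obtain ⟨j, hj, hsum⟩ := backward_group N M a b hb ha c hc k hk
  have hjM : ∀ g < N, j g < M := by
    intro g hg
    have := hj g hg
    have := (hb g hg).2
    omega
  -- the effective divisor
  let F : Fin (2 + N * M) → ℤ := fun v =>
    ∑ g ∈ Finset.range N, if v.val = 2 + g * M + j g then 1 else 0
  have hF0 : ∀ v, 0 ≤ F v := by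
    intro v
    apply Finset.sum_nonneg
    intro g _
    split <;> omega
  have hD : mk (fun v => Dn M a b v) = ∑ v ∈ Finset.range (2 + N * M), Dn M a b v • c v := by
    rw [Finset.sum_range (fun v => Dn M a b v • c v)]
    have : (fun v : Fin (2 + N * M) => Dn M a b v) =
        ∑ v : Fin (2 + N * M), Dn M a b v • (Pi.single v (1 : ℤ)) := by
      funext w
      simp only [Finset.sum_apply, Pi.smul_apply, smul_eq_mul]
      rw [Finset.sum_eq_single w]
      · simp
      · intro v _ hv
        rw [Pi.single_eq_of_ne (Ne.symm hv), mul_zero]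
      · intro h; exact absurd (Finset.mem_univ _) h
    rw [this, map_sum]
    apply Finset.sum_congr rfl
    intro v _
    rw [map_zsmul, hcv v]
  have hFm : mk F = ∑ g ∈ Finset.range N, c (2 + g * M + j g) := by
    have : F = ∑ g ∈ Finset.range N, (fun v : Fin (2 + N * M) =>
        if v.val = 2 + g * M + j g then (1 : ℤ) else 0) := by
      funext w
      simp only [F, Finset.sum_apply]
    rw [this, map_sum]
    apply Finset.sum_congr rfl
    intro g hg
    rw [Finset.mem_range] at hg
    have hlt := idx_lt N M g (j g) hg (hjM g hg)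
    have h1 := hcv ⟨2 + g * M + j g, hlt⟩
    simp only at h1
    rw [h1]
    congr 1
    funext w
    by_cases h : w.val = 2 + g * M + j g
    · have : w = ⟨2 + g * M + j g, hlt⟩ := Fin.ext h
      rw [if_pos h, this, Pi.single_eq_same]
    · have : w ≠ ⟨2 + g * M + j g, hlt⟩ := fun h' => h (by rw [h'])
      rw [if_neg h, Pi.single_eq_of_ne this]
  have hmem : F - (fun v : Fin (2 + N * M) => Dn M a b v) ∈ Λ := by
    rw [← QuotientAddGroup.eq_zero_iff]
    have : mk (F - (fun v : Fin (2 + N * M) => Dn M a b v)) = 0 := by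
      rw [map_sub, hFm, hD, hsum, sub_self]
    exact this
  obtain ⟨z, hz⟩ := hmem
  refine ⟨z, fun v => ?_⟩
  have hzv := congrFun hz v
  simp only [lapHom, AddMonoidHom.coe_mk, ZeroHom.coe_mk, Pi.sub_apply] at hzv
  rw [hzv]
  have := hF0 v
  omega

theorem strongly_connected (hb : ∀ g < N, 7 ≤ b g ∧ b g ≤ M + 1) :
    StronglyConnected (adjG N M b) := by
  set R : Fin (2 + N * M) → Fin (2 + N * M) → Prop := fun u v => adjG N M b u v = true with hR
  have hr0 : (0 : ℕ) < 2 + N * M := by omega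
  have hr1 : (1 : ℕ) < 2 + N * M := by omega
  have step : ∀ (u v : ℕ) (hu : u < 2 + N * M) (hv : v < 2 + N * M), arc M b u v = true →
      R ⟨u, hu⟩ ⟨v, hv⟩ := fun u v hu hv h => h
  -- arcs of gadgets
  have aroot : ∀ g i, g < N → i < M → (i ≤ 1 ∨ b g ≤ i + 1) →
      arc M b 0 (2 + g * M + i) = true := by
    intro g i _ hi h
    have h1 : 2 + g * M + i ≠ 1 := by omega
    have h2 : 2 ≤ 2 + g * M + i := by omega
    simp only [arc, if_true, h1, false_or, h2, true_and, idx_div M g i hi, idx_mod M g i hi,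
      decide_eq_true_eq]
    exact h
  have adummy : ∀ g i, i < M → b g ≤ i + 1 → arc M b (2 + g * M + i) 0 = true := by
    intro g i hi h
    have h0 : 2 + g * M + i ≠ 0 := by omega
    have h1 : 2 + g * M + i ≠ 1 := by omega
    simp only [arc, h0, h1, if_false, idx_div M g i hi, idx_mod M g i hi, h, if_true,
      decide_true]
  have astart : ∀ g, g < N → arc M b (2 + g * M) (2 + g * M + (b g - 2)) = true := by
    intro g hg
    obtain ⟨h7, hM⟩ := hb g hg
    have h0 : 2 + g * M ≠ 0 := by omega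
    have h1 : 2 + g * M ≠ 1 := by omega
    have e1 := idx_div M g 0 (by omega)
    have e2 := idx_mod M g 0 (by omega)
    rw [Nat.add_zero] at e1 e2
    have h3 : ¬ b g ≤ 0 + 1 := by omega
    simp only [arc, h0, h1, if_false, e1, e2, h3, if_true, decide_eq_true_eq]
    omega
  have aend : ∀ g, g < N → arc M b (2 + g * M + (b g - 2)) 0 = true := by
    intro g hg
    obtain ⟨h7, hM⟩ := hb g hg
    have h0 : 2 + g * M + (b g - 2) ≠ 0 := by omega
    have h1 : 2 + g * M + (b g - 2) ≠ 1 := by omega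
    have e1 := idx_div M g (b g - 2) (by omega)
    have e2 := idx_mod M g (b g - 2) (by omega)
    have h3 : ¬ b g ≤ b g - 2 + 1 := by omega
    have h4 : ¬ b g - 2 = 0 := by omega
    have h5 : b g - 2 + 2 = b g := by omega
    simp only [arc, h0, h1, if_false, e1, e2, h3, h4, h5, if_true, decide_eq_true_eq]
    simp
  have amid : ∀ g i v, g < N → 1 ≤ i → i + 3 ≤ b g →
      (v + 1 = 2 + g * M + i ∨ v = 2 + g * M + i + 1) →
      arc M b (2 + g * M + i) v = true := by
    intro g i v hg h1i h2i hv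
    obtain ⟨h7, hM⟩ := hb g hg
    have h0 : 2 + g * M + i ≠ 0 := by omega
    have h1 : 2 + g * M + i ≠ 1 := by omega
    have e1 := idx_div M g i (by omega)
    have e2 := idx_mod M g i (by omega)
    have h3 : ¬ b g ≤ i + 1 := by omega
    have h4 : ¬ i = 0 := by omega
    have h5 : ¬ i + 2 = b g := by omega
    simp only [arc, h0, h1, if_false, e1, e2, h3, h4, h5, decide_eq_true_eq]
    exact hv
  -- the start vertex reaches the root
  have start_root : ∀ g (hg : g < N) (h : 2 + g * M < 2 + N * M),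
      ReflTransGen R ⟨2 + g * M, h⟩ ⟨0, hr0⟩ := by
    intro g hg h
    obtain ⟨h7, hM⟩ := hb g hg
    have hlt := idx_lt N M g (b g - 2) hg (by omega)
    exact (ReflTransGen.single (step _ _ h hlt (astart g hg))).tail (step _ _ hlt hr0 (aend g hg))
  have to_root : ∀ g (_ : g < N) i (_ : i + 1 < b g) (h : 2 + g * M + i < 2 + N * M),
      ReflTransGen R ⟨2 + g * M + i, h⟩ ⟨0, hr0⟩ := by
    intro g hg i
    obtain ⟨h7, hM⟩ := hb g hg
    induction i with
    | zero => intro _ h; exact start_root g hg h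
    | succ i ih =>
      intro hi h
      by_cases hend : i + 1 + 2 = b g
      · have : i + 1 = b g - 2 := by omega
        have ha := aend g hg
        rw [← this] at ha
        exact ReflTransGen.single (step _ _ h hr0 ha)
      · have hlt := idx_lt N M g i hg (by omega)
        exact ReflTransGen.head (step _ _ h hlt (amid g (i + 1) _ hg (by omega) (by omega)
          (Or.inl (by omega)))) (ih (by omega) hlt)
  have from_root : ∀ g (_ : g < N) i (_ : i + 1 < b g) (h : 2 + g * M + i < 2 + N * M),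
      ReflTransGen R ⟨0, hr0⟩ ⟨2 + g * M + i, h⟩ := by
    intro g hg i
    obtain ⟨h7, hM⟩ := hb g hg
    induction i with
    | zero =>
      intro _ h
      exact ReflTransGen.single (step _ _ hr0 h (aroot g 0 hg (by omega) (by omega)))
    | succ i ih =>
      intro hi h
      by_cases h0 : i = 0
      · subst h0
        exact ReflTransGen.single (step _ _ hr0 h (aroot g 1 hg (by omega) (by omega)))
      · have hlt := idx_lt N M g i hg (by omega)
        exact (ih (by omega) hlt).tail (step _ _ hlt h (amid g i _ hg (by omega) (by omega)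
          (Or.inr (by omega))))
  have h01 : arc M b 0 1 = true := by simp [arc]
  have h10 : arc M b 1 0 = true := by simp [arc]
  have to0 : ∀ u : Fin (2 + N * M), ReflTransGen R u ⟨0, hr0⟩ := by
    intro u
    rcases vertex_cases N M u u.isLt with h | h | ⟨g, i, hg, hi, h⟩
    · have : u = ⟨0, hr0⟩ := Fin.ext h
      rw [this]
    · have : u = ⟨1, hr1⟩ := Fin.ext h
      rw [this]
      exact ReflTransGen.single (step _ _ hr1 hr0 h10)
    · have hlt := idx_lt N M g i hg hi
      have : u = ⟨2 + g * M + i, hlt⟩ := Fin.ext h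
      rw [this]
      by_cases hd : b g ≤ i + 1
      · exact ReflTransGen.single (step _ _ hlt hr0 (adummy g i hi hd))
      · exact to_root g hg i (by omega) hlt
  have from0 : ∀ u : Fin (2 + N * M), ReflTransGen R ⟨0, hr0⟩ u := by
    intro u
    rcases vertex_cases N M u u.isLt with h | h | ⟨g, i, hg, hi, h⟩
    · have : u = ⟨0, hr0⟩ := Fin.ext h
      rw [this]
    · have : u = ⟨1, hr1⟩ := Fin.ext h
      rw [this]
      exact ReflTransGen.single (step _ _ hr0 hr1 h01)
    · have hlt := idx_lt N M g i hg hi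
      have : u = ⟨2 + g * M + i, hlt⟩ := Fin.ext h
      rw [this]
      by_cases hd : b g ≤ i + 1
      · exact ReflTransGen.single (step _ _ hr0 hlt (aroot g i hg hi (Or.inr hd)))
      · exact from_root g hg i (by omega) hlt
  intro u v
  exact (to0 u).trans (from0 v)

/-- Correctness of the gadget digraph. -/
theorem terminating_iff_incongruences (hb : ∀ g < N, 7 ≤ b g ∧ b g ≤ M + 1)
    (ha : ∀ g < N, a g < b g) :
    Terminating (adjG N M b) (fun v => chipN M a b v) ↔
      ∃ k : ℤ, ∀ g < N, ¬ ((b g : ℤ) ∣ k - a g) := by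
  rw [terminating_iff (adjG N M b) (fun v => adjG_loopless N M b v hb)
    (strongly_connected N M b hb)]
  constructor
  · rintro ⟨z, hz⟩
    have h := forward N M a b hb ha (z + Pi.single ⟨0, by omega⟩ 1) (by
      intro v
      have h1 := hz v
      have h2 := chip_eq N M a b hb v
      rw [lap_add]
      simp only [Pi.add_apply]
      omega)
    exact ⟨_, h⟩
  · rintro ⟨k, hk⟩
    obtain ⟨z, hz⟩ := backward N M a b hb ha k hk
    refine ⟨z - Pi.single ⟨0, by omega⟩ 1, fun v => ?_⟩
    have h1 := hz v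
    have h2 := chip_eq N M a b hb v
    rw [lap_sub]
    simp only [Pi.sub_apply]
    omega

end main

end Pool.Agent.Helper68.Gadget
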