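import Pool.Agent.Helper68.Calc

/-!
Closure properties of unary polynomial time functions.
-/

set_option autoImplicit false

namespace Pool.Agent.Helper68.Una

open SP Calc Finset

/-- Contexts: an input word and finitely many numbers. -/
class Ctx (α : Type) where
  /-- the input word -/
  inp : α → List Bool
  /-- the numbers -/
  vals : α → List ℕ

instance : Ctx (List Bool) := ⟨id, fun _ => []⟩
instance {α : Type} [Ctx α] : Ctx (α × ℕ) :=
  ⟨fun p => Ctx.inp p.1, fun p => p.2 :: Ctx.vals p.1⟩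

variable {α : Type} [Ctx α]

/-- Size of a context. -/
def mu (a : α) : ℕ := (Ctx.inp a).length + ((Ctx.vals a).map (· + 1)).sum + 2

theorem mu_ge (a : α) : 2 ≤ mu a := by unfold mu; omega

theorem mu_pair (a : α) (n : ℕ) : mu (a, n) = mu a + n + 1 := by
  simp only [mu, Ctx.inp, Ctx.vals, List.map_cons, List.sum_cons]
  omega

/-- Polynomially bounded functions. -/
def PolyB (g : α → ℕ) : Prop := ∃ d, ∀ a, g a ≤ mu a ^ d

theorem PolyB.mono {g h : α → ℕ} (hg : PolyB g) (hh : ∀ a, h a ≤ g a) : PolyB h := by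
  obtain ⟨d, hd⟩ := hg
  exact ⟨d, fun a => (hh a).trans (hd a)⟩

theorem PolyB.const (c : ℕ) : PolyB (fun _ : α => c) := by
  refine ⟨c, fun a => ?_⟩
  calc c ≤ 2 ^ c := Nat.lt_two_pow_self.le
    _ ≤ mu a ^ c := Nat.pow_le_pow_left (mu_ge a) c

theorem PolyB.size : PolyB (fun a : α => mu a) := ⟨1, fun a => by simp⟩

theorem PolyB.mul {g h : α → ℕ} (hg : PolyB g) (hh : PolyB h) : PolyB (fun a => g a * h a) := by
  obtain ⟨d, hd⟩ := hg
  obtain ⟨e, he⟩ := hh
  refine ⟨d + e, fun a => ?_⟩
  rw [pow_add]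
  exact Nat.mul_le_mul (hd a) (he a)

theorem PolyB.add {g h : α → ℕ} (hg : PolyB g) (hh : PolyB h) : PolyB (fun a => g a + h a) := by
  obtain ⟨d, hd⟩ := hg
  obtain ⟨e, he⟩ := hh
  refine ⟨max d e + 1, fun a => ?_⟩
  have h1 : mu a ^ d ≤ mu a ^ max d e :=
    Nat.pow_le_pow_right (by have := mu_ge a; omega) (le_max_left _ _)
  have h2 : mu a ^ e ≤ mu a ^ max d e :=
    Nat.pow_le_pow_right (by have := mu_ge a; omega) (le_max_right _ _)
  rw [pow_succ]
  have h3 := hd a
  have h4 := he a
  have h5 := mu_ge a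
  nlinarith

theorem PolyB.pow {g : α → ℕ} (hg : PolyB g) (k : ℕ) : PolyB (fun a => g a ^ k) := by
  obtain ⟨d, hd⟩ := hg
  refine ⟨d * k, fun a => ?_⟩
  rw [pow_mul]
  exact Nat.pow_le_pow_left (hd a) k

theorem PolyB.wk {g : α → ℕ} (hg : PolyB g) : PolyB (fun p : α × ℕ => g p.1) := by
  obtain ⟨d, hd⟩ := hg
  refine ⟨d, fun p => (hd p.1).trans (Nat.pow_le_pow_left ?_ d)⟩
  obtain ⟨a, n⟩ := p
  rw [mu_pair]
  simp only
  omega

/-- Bounds that are uniform in the last number. -/
theorem PolyB.unif {g : α × ℕ → ℕ} {n : α → ℕ} (hg : PolyB g) (hn : PolyB n) :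
    ∃ h : α → ℕ, PolyB h ∧ ∀ a, ∀ i ≤ n a, g (a, i) ≤ h a := by
  obtain ⟨d, hd⟩ := hg
  refine ⟨fun a => (mu a + n a + 1) ^ d, ?_, ?_⟩
  · exact ((PolyB.size.add hn).add (PolyB.const 1)).pow d
  · intro a i hi
    refine (hd (a, i)).trans (Nat.pow_le_pow_left ?_ d)
    rw [mu_pair]
    omega

theorem PolyB.sum {g : α × ℕ → ℕ} {n : α → ℕ} (hg : PolyB g) (hn : PolyB n) :
    PolyB (fun a => ∑ i ∈ range (n a), g (a, i)) := by
  obtain ⟨h, hh, hb⟩ := hg.unif hn
  refine (hn.mul hh).mono (fun a => ?_)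
  calc ∑ i ∈ range (n a), g (a, i) ≤ ∑ i ∈ range (n a), h a :=
        Finset.sum_le_sum (fun i hi => hb a i (Finset.mem_range.mp hi).le)
    _ = n a * h a := by rw [Finset.sum_const, Finset.card_range, smul_eq_mul]

/-- Functions computable in polynomial time with numbers in unary. -/
def PU (f : α → ℕ) : Prop :=
  ∃ (p : P) (t : α → ℕ), PolyB t ∧ ∀ (a : α) (s : List ℕ) (o : List Computability.Γ'),
    Does p (Ctx.inp a) (Ctx.vals a ++ s) o (t a) (f a :: (Ctx.vals a ++ s)) o

theorem PU.congr {f g : α → ℕ} (hf : PU f) (h : ∀ a, f a = g a) : PU g := by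
  have : f = g := funext h
  rwa [← this]

theorem PU.bound {f : α → ℕ} (hf : PU f) : PolyB f := by
  obtain ⟨p, t, ht, hp⟩ := hf
  refine ht.mono (fun a => ?_)
  obtain ⟨m, hm, hx⟩ := hp a [] [] []
  have := exec_len hx (some .e)
  simp only [st_e, enc, List.length_append, List.length_replicate, List.length_cons] at this
  omega

theorem PU.const (n : ℕ) : PU (fun _ : α => n) := by
  induction n with
  | zero => exact ⟨zeroP, fun _ => 1, PolyB.const 1, fun a s o => does_zero⟩
  | succ n ih =>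
    obtain ⟨p, t, ht, hp⟩ := ih
    exact ⟨.seq p succP, fun a => t a + 1, ht.add (PolyB.const 1),
      fun a s o => (hp a s o).seq does_succ⟩

theorem PU.len : PU (fun a : α => (Ctx.inp a).length) := by
  refine ⟨lenP, fun a => 10 * (Ctx.inp a).length + 10, ?_, fun a s o => does_len⟩
  refine ((PolyB.const 10).mul (PolyB.size)).mono (fun a => ?_)
  unfold mu
  omega

theorem PU.snd : PU (fun p : α × ℕ => p.2) := by
  refine ⟨dupP, fun p => 10 * p.2 + 10, ?_, ?_⟩
  · refine ((PolyB.const 10).mul (PolyB.size)).mono (fun p => ?_)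
    obtain ⟨a, n⟩ := p
    rw [mu_pair]
    simp only
    omega
  · intro p s o
    exact does_dup

theorem PU.wk {f : α → ℕ} (hf : PU f) : PU (fun p : α × ℕ => f p.1) := by
  have hb := hf.bound
  obtain ⟨p, t, ht, hp⟩ := hf
  refine ⟨belowP p, fun q => t q.1 + (6 * q.2 + 6) + (6 * f q.1 + 6), ?_, ?_⟩
  · exact (ht.wk.add (((PolyB.const 6).mul PU.snd.bound).add (PolyB.const 6))).add
      (((PolyB.const 6).mul hb.wk).add (PolyB.const 6))
  · rintro ⟨a, n⟩ s o
    exact does_below (hp a s o)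

/-- Binary operations. -/
theorem PU.op2 {f g : α → ℕ} (hf : PU f) (hg : PU g) (F : ℕ → ℕ → ℕ) (q : P)
    (c : ℕ → ℕ → ℕ) (hc : PolyB (fun a => c (f a) (g a)))
    (hq : ∀ w x y s o, Does q w (y :: x :: s) o (c x y) (F x y :: s) o) :
    PU (fun a => F (f a) (g a)) := by
  have hbf := hf.bound
  have hbg := hg.bound
  obtain ⟨p, t, ht, hp⟩ := hf
  obtain ⟨p', t', ht', hp'⟩ := hg
  refine ⟨.seq p (.seq (belowP p') q), fun a => t a + ((t' a + (6 * f a + 6) + (6 * g a + 6)) +
    c (f a) (g a)), ?_, ?_⟩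
  · exact ht.add (((ht'.add (((PolyB.const 6).mul hbf).add (PolyB.const 6))).add
      (((PolyB.const 6).mul hbg).add (PolyB.const 6))).add hc)
  · intro a s o
    exact (hp a s o).seq ((does_below (hp' a s o)).seq (hq _ _ _ _ _))

/-- Unary operations. -/
theorem PU.op1 {f : α → ℕ} (hf : PU f) (F : ℕ → ℕ) (q : P)
    (c : ℕ → ℕ) (hc : PolyB (fun a => c (f a)))
    (hq : ∀ w x s o, Does q w (x :: s) o (c x) (F x :: s) o) :
    PU (fun a => F (f a)) := by
  obtain ⟨p, t, ht, hp⟩ := hf
  exact ⟨.seq p q, fun a => t a + c (f a), ht.add hc,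
    fun a s o => (hp a s o).seq (hq _ _ _ _)⟩

theorem PU.bit {f : α → ℕ} (hf : PU f) : PU (fun a => bitw (Ctx.inp a) (f a)) := by
  have hb := hf.bound
  obtain ⟨p, t, ht, hp⟩ := hf
  exact ⟨.seq p inpP, fun a => t a + (10 * f a + 10),
    ht.add (((PolyB.const 10).mul hb).add (PolyB.const 10)),
    fun a s o => (hp a s o).seq does_inp⟩

theorem does_iter_succ (w : List Bool) (x y : ℕ) (s : List ℕ) (o : List Computability.Γ') :
    Does (loopP succP) w (y :: x :: s) o (6 * y + 5) ((x + y) :: s) o := by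
  have h := does_loop (w := w) (p := succP) y (fun i => (x + i) :: s) (fun _ => o) (fun _ => 1)
    (fun i _ => does_succ)
  refine h.mono ?_
  rw [Finset.sum_const, Finset.card_range, smul_eq_mul]
  omega

theorem does_iter_pred (w : List Bool) (x y : ℕ) (s : List ℕ) (o : List Computability.Γ') :
    Does (loopP predP) w (y :: x :: s) o (7 * y + 5) ((x - y) :: s) o := by
  have h := does_loop (w := w) (p := predP) y (fun i => (x - i) :: s) (fun _ => o) (fun _ => 2)
    (fun i _ => does_pred)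
  refine h.mono ?_
  rw [Finset.sum_const, Finset.card_range, smul_eq_mul]
  omega

theorem PU.add {f g : α → ℕ} (hf : PU f) (hg : PU g) : PU (fun a => f a + g a) :=
  PU.op2 hf hg (fun x y => x + y) (loopP succP) (fun _ y => 6 * y + 5)
    (((PolyB.const 6).mul hg.bound).add (PolyB.const 5)) (fun w x y s o => does_iter_succ w x y s o)

theorem PU.sub {f g : α → ℕ} (hf : PU f) (hg : PU g) : PU (fun a => f a - g a) :=
  PU.op2 hf hg (fun x y => x - y) (loopP predP) (fun _ y => 7 * y + 5)
    (((PolyB.const 7).mul hg.bound).add (PolyB.const 5)) (fun w x y s o => does_iter_pred w x y s o)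

theorem PU.sum {n : α → ℕ} {f : α → ℕ → ℕ} (hn : PU n) (hf : PU (fun p : α × ℕ => f p.1 p.2)) :
    PU (fun a => ∑ i ∈ range (n a), f a i) := by
  have hbn := hn.bound
  have hbf := hf.bound
  obtain ⟨p, t, ht, hp⟩ := hn
  obtain ⟨p', t', ht', hp'⟩ := hf
  obtain ⟨T, hT, hTb⟩ := ht'.unif hbn
  obtain ⟨F, hF, hFb⟩ := hbf.unif hbn
  -- the accumulator is at most `n a * F a`
  have hacc : ∀ a, ∀ i ≤ n a, ∑ k ∈ range i, f a k ≤ n a * F a := by
    intro a i hi
    calc ∑ k ∈ range i, f a k ≤ ∑ k ∈ range i, F a :=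
          Finset.sum_le_sum (fun k hk => hFb a k (by have := Finset.mem_range.mp hk; omega))
      _ = i * F a := by rw [Finset.sum_const, Finset.card_range, smul_eq_mul]
      _ ≤ n a * F a := Nat.mul_le_mul_right _ hi
  let body : P := .seq (belowP p') (.seq (loopP succP) (underP succP))
  let cst : α → ℕ := fun a => (T a + (6 * (n a * F a) + 6) + (6 * F a + 6)) +
    ((6 * F a + 5) + (1 + (6 * (n a * F a + F a) + 6)))
  have hbody : ∀ (a : α) (s : List ℕ) (o : List Computability.Γ') (i : ℕ), i < n a →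
      Does body (Ctx.inp a) ((∑ k ∈ range i, f a k) :: i :: (Ctx.vals a ++ s)) o (cst a)
        ((∑ k ∈ range (i + 1), f a k) :: (i + 1) :: (Ctx.vals a ++ s)) o := by
    intro a s o i hi
    have h1 := does_below (n := ∑ k ∈ range i, f a k) (hp' (a, i) s o)
    have h2 := does_iter_succ (Ctx.inp a) (∑ k ∈ range i, f a k) (f a i)
      (i :: (Ctx.vals a ++ s)) o
    have h3 := does_under (n := (∑ k ∈ range i, f a k) + f a i)
      (does_succ (w := Ctx.inp a) (n := i) (s := Ctx.vals a ++ s) (o := o))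
    have h4 := h1.seq (h2.seq h3)
    rw [Finset.sum_range_succ]
    refine h4.mono ?_
    have e1 := hacc a i hi.le
    have e2 := hTb a i hi.le
    have e3 := hFb a i hi.le
    simp only [cst]
    simp only at e2 e3 ⊢
    omega
  refine ⟨.seq p (.seq (underP (.seq zeroP zeroP)) (.seq (loopP body) (underP dropP))),
    fun a => t a + ((1 + 1 + (6 * n a + 6)) + ((n a * (cst a + 2) + (3 * n a + 5)) +
      ((2 * n a + 2) + (6 * (n a * F a) + 6)))), ?_, ?_⟩
  · have hcst : PolyB cst := by
      have h6 : PolyB (fun _ : α => 6) := PolyB.const 6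
      have hnF := hbn.mul hF
      exact ((hT.add ((h6.mul hnF).add h6)).add ((h6.mul hF).add h6)).add
        (((h6.mul hF).add (PolyB.const 5)).add ((PolyB.const 1).add ((h6.mul (hnF.add hF)).add h6)))
    have h6 : PolyB (fun _ : α => 6) := PolyB.const 6
    exact ht.add ((((PolyB.const 1).add (PolyB.const 1)).add ((h6.mul hbn).add h6)).add
      (((hbn.mul (hcst.add (PolyB.const 2))).add (((PolyB.const 3).mul hbn).add (PolyB.const 5))).add
      ((((PolyB.const 2).mul hbn).add (PolyB.const 2)).add ((h6.mul (hbn.mul hF)).add h6))))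
  · intro a s o
    have h1 := hp a s o
    have h2 := does_under (n := n a) ((does_zero (w := Ctx.inp a) (s := Ctx.vals a ++ s)
      (o := o)).seq (does_zero (w := Ctx.inp a) (s := 0 :: (Ctx.vals a ++ s)) (o := o)))
    have h3 := does_loop (w := Ctx.inp a) (p := body) (n a)
      (fun i => (∑ k ∈ range i, f a k) :: i :: (Ctx.vals a ++ s)) (fun _ => o)
      (fun _ => cst a) (fun i hi => hbody a s o i hi)
    rw [Finset.sum_const, Finset.card_range, smul_eq_mul] at h3
    have h4 := does_under (n := ∑ k ∈ range (n a), f a k)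
      (does_drop (w := Ctx.inp a) (n := n a) (s := Ctx.vals a ++ s) (o := o))
    have h5 := h1.seq (h2.seq (h3.seq h4))
    refine h5.mono ?_
    have := hacc a (n a) le_rfl
    simp only
    omega

theorem PU.mul {f g : α → ℕ} (hf : PU f) (hg : PU g) : PU (fun a => f a * g a) :=
  (PU.sum (f := fun a _ => g a) hf hg.wk).congr (fun a => by
    rw [Finset.sum_const, Finset.card_range, smul_eq_mul])

/-- Substitution. -/
theorem PU.subst {f : α → ℕ → ℕ} {g : α → ℕ} (hf : PU (fun p : α × ℕ => f p.1 p.2))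
    (hg : PU g) : PU (fun a => f a (g a)) := by
  have hbg := hg.bound
  have hbf := hf.bound
  obtain ⟨F, hF, hFb⟩ := hbf.unif hbg
  obtain ⟨p, t, ht, hp⟩ := hf
  obtain ⟨p', t', ht', hp'⟩ := hg
  obtain ⟨T, hT, hTb⟩ := ht.unif hbg
  refine ⟨.seq p' (.seq p (underP dropP)), fun a => t' a + (T a + ((2 * g a + 2) +
    (6 * F a + 6))), ?_, ?_⟩
  · exact ht'.add (hT.add ((((PolyB.const 2).mul hbg).add (PolyB.const 2)).add
      (((PolyB.const 6).mul hF).add (PolyB.const 6))))
  · intro a s o
    have h1 := hp' a s o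
    have h2 := hp (a, g a) s o
    have h3 := does_under (n := f a (g a))
      (does_drop (w := Ctx.inp a) (n := g a) (s := Ctx.vals a ++ s) (o := o))
    refine (h1.seq (h2.seq h3)).mono ?_
    have e1 := hTb a (g a) le_rfl
    have e2 := hFb a (g a) le_rfl
    simp only at e1 e2 ⊢
    omega

/-- Weakening below the last variable. -/
theorem PU.mid {f : α → ℕ → ℕ} (hf : PU (fun p : α × ℕ => f p.1 p.2)) :
    PU (fun p : (α × ℕ) × ℕ => f p.1.1 p.2) := by
  have hbf := hf.bound
  obtain ⟨p, t, ht, hp⟩ := hf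
  have hmap : ∀ {g : α × ℕ → ℕ}, PolyB g → PolyB (fun p : (α × ℕ) × ℕ => g (p.1.1, p.2)) := by
    intro g hg
    obtain ⟨d, hd⟩ := hg
    refine ⟨d, fun p => (hd (p.1.1, p.2)).trans (Nat.pow_le_pow_left ?_ d)⟩
    obtain ⟨⟨a, n⟩, k⟩ := p
    rw [mu_pair, mu_pair, mu_pair]
    simp only
    omega
  have hm1 := hmap ht
  have hm2 := hmap hbf
  have h6 : PolyB (fun _ : (α × ℕ) × ℕ => 3) := PolyB.const 3
  have hk : PolyB (fun p : (α × ℕ) × ℕ => 3 * p.2 + 3) := (h6.mul PU.snd.bound).add h6
  have hi : PolyB (fun p : (α × ℕ) × ℕ => 3 * p.1.2 + 3) := (h6.mul PU.snd.wk.bound).add h6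
  have hv : PolyB (fun p : (α × ℕ) × ℕ => 3 * f p.1.1 p.2 + 3) := (h6.mul hm2).add h6
  refine ⟨.seq (mvB .e .a) (.seq (mvB .e .r) (.seq (mvB .a .e) (.seq p (.seq (mvB .e .a)
    (.seq (mvB .e .a) (.seq (mvB .r .e) (.seq (mvB .a .e) (mvB .a .e)))))))),
    fun p => (3 * p.2 + 3) + ((3 * p.1.2 + 3) + ((3 * p.2 + 3) + (t (p.1.1, p.2) +
      ((3 * f p.1.1 p.2 + 3) + ((3 * p.2 + 3) + ((3 * p.1.2 + 3) + ((3 * p.2 + 3) +
        (3 * f p.1.1 p.2 + 3)))))))), ?_, ?_⟩
  · exact hk.add (hi.add (hk.add (hm1.add (hv.add (hk.add (hi.add (hk.add hv)))))))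
  · rintro ⟨⟨a, i⟩, k⟩ s o r
    have h1 := exec_stash k (i :: (Ctx.vals a ++ s)) (Ctx.inp a) [] r [] [] o
    have h2 := exec_hide i (Ctx.vals a ++ s) (Ctx.inp a) [] r
      (List.replicate k true ++ false :: []) [] o
    have h3 := exec_unstash k (Ctx.vals a ++ s) (Ctx.inp a) []
      (List.replicate i true ++ false :: r) [] [] o
    have h4 := hp (a, k) s o (List.replicate i true ++ false :: r)
    have h5 := exec_stash (f a k) (k :: (Ctx.vals a ++ s)) (Ctx.inp a) []
      (List.replicate i true ++ false :: r) [] [] o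
    have h6 := exec_stash k (Ctx.vals a ++ s) (Ctx.inp a) []
      (List.replicate i true ++ false :: r) (List.replicate (f a k) true ++ false :: []) [] o
    have h7 := exec_unhide i (Ctx.vals a ++ s) (Ctx.inp a) [] r
      (List.replicate k true ++ false :: (List.replicate (f a k) true ++ false :: [])) [] o
    have h8 := exec_unstash k (i :: (Ctx.vals a ++ s)) (Ctx.inp a) [] r
      (List.replicate (f a k) true ++ false :: []) [] o
    have h9 := exec_unstash (f a k) (k :: i :: (Ctx.vals a ++ s)) (Ctx.inp a) [] r [] [] o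
    exact h1.seq (h2.seq (h3.seq (h4.seq (h5.seq (h6.seq (h7.seq (h8.seq h9)))))))

theorem PU.pow {f : α → ℕ} (hf : PU f) (k : ℕ) : PU (fun a => f a ^ k) := by
  induction k with
  | zero => exact (PU.const 1).congr (fun a => by simp)
  | succ k ih => exact (ih.mul hf).congr (fun a => by rw [pow_succ])

/-- Decidable predicates. -/
def PP (Q : α → Prop) : Prop := ∃ f : α → ℕ, PU f ∧ ∀ a, (f a ≠ 0 ↔ Q a)

theorem PP.congr {Q R : α → Prop} (h : PP Q) (hR : ∀ a, (Q a ↔ R a)) : PP R := by
  obtain ⟨f, hf, hQ⟩ := h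
  exact ⟨f, hf, fun a => (hQ a).trans (hR a)⟩

theorem PP.wk {Q : α → Prop} (h : PP Q) : PP (fun p : α × ℕ => Q p.1) := by
  obtain ⟨f, hf, hQ⟩ := h
  exact ⟨fun p => f p.1, hf.wk, fun p => hQ p.1⟩

theorem PP.and {Q R : α → Prop} (hQ : PP Q) (hR : PP R) : PP (fun a => Q a ∧ R a) := by
  obtain ⟨f, hf, hQ⟩ := hQ
  obtain ⟨g, hg, hR⟩ := hR
  refine ⟨fun a => f a * g a, hf.mul hg, fun a => ?_⟩
  have h1 := hQ a
  have h2 := hR a
  simp only
  rw [← h1, ← h2]
  exact Nat.mul_ne_zero_iff

theorem PP.or {Q R : α → Prop} (hQ : PP Q) (hR : PP R) : PP (fun a => Q a ∨ R a) := by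
  obtain ⟨f, hf, hQ⟩ := hQ
  obtain ⟨g, hg, hR⟩ := hR
  refine ⟨fun a => f a + g a, hf.add hg, fun a => ?_⟩
  have h1 := hQ a
  have h2 := hR a
  simp only
  rw [← h1, ← h2]
  omega

theorem PP.not {Q : α → Prop} (hQ : PP Q) : PP (fun a => ¬ Q a) := by
  obtain ⟨f, hf, hQ⟩ := hQ
  refine ⟨fun a => 1 - f a, (PU.const 1).sub hf, fun a => ?_⟩
  have h1 := hQ a
  simp only
  rw [← h1]
  omega

theorem PP.imp {Q R : α → Prop} (hQ : PP Q) (hR : PP R) : PP (fun a => Q a → R a) :=
  (hQ.not.or hR).congr (fun a => by tauto)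

theorem PP.lt {f g : α → ℕ} (hf : PU f) (hg : PU g) : PP (fun a => f a < g a) :=
  ⟨fun a => g a - f a, hg.sub hf, fun a => by simp only; omega⟩

theorem PP.le {f g : α → ℕ} (hf : PU f) (hg : PU g) : PP (fun a => f a ≤ g a) :=
  (PP.lt hg hf).not.congr (fun a => by omega)

theorem PP.eq {f g : α → ℕ} (hf : PU f) (hg : PU g) : PP (fun a => f a = g a) :=
  ((PP.le hf hg).and (PP.le hg hf)).congr (fun a => by omega)

theorem PP.true : PP (fun _ : α => True) := (PP.eq (PU.const 0) (PU.const 0)).congr (by simp)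

theorem PP.false : PP (fun _ : α => False) := PP.true.not.congr (by simp)

theorem PP.const (Q : Prop) : PP (fun _ : α => Q) := by
  by_cases h : Q
  · exact PP.true.congr (fun _ => by simp [h])
  · exact PP.false.congr (fun _ => by simp [h])

theorem PP.exLt {n : α → ℕ} {Q : α → ℕ → Prop} (hn : PU n)
    (hQ : PP (fun p : α × ℕ => Q p.1 p.2)) : PP (fun a => ∃ i < n a, Q a i) := by
  obtain ⟨f, hf, hQ⟩ := hQ
  refine ⟨fun a => ∑ i ∈ range (n a), f (a, i), PU.sum hn hf, fun a => ?_⟩
  constructor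
  · intro h
    simp only at h
    rw [ne_eq, Finset.sum_eq_zero_iff] at h
    push Not at h
    obtain ⟨i, hi, h⟩ := h
    exact ⟨i, Finset.mem_range.mp hi, (hQ (a, i)).mp h⟩
  · rintro ⟨i, hi, h⟩
    simp only
    rw [ne_eq, Finset.sum_eq_zero_iff]
    push Not
    exact ⟨i, Finset.mem_range.mpr hi, (hQ (a, i)).mpr h⟩

theorem PP.allLt {n : α → ℕ} {Q : α → ℕ → Prop} (hn : PU n)
    (hQ : PP (fun p : α × ℕ => Q p.1 p.2)) : PP (fun a => ∀ i < n a, Q a i) :=
  (PP.exLt (Q := fun a i => ¬ Q a i) hn hQ.not).not.congr (fun a => by simp)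

theorem PU.ite {Q : α → Prop} [∀ a, Decidable (Q a)] {f g : α → ℕ} (hQ : PP Q) (hf : PU f)
    (hg : PU g) : PU (fun a => if Q a then f a else g a) := by
  obtain ⟨q, hq, hQ⟩ := hQ
  refine (((PU.const 1).sub ((PU.const 1).sub hq)).mul hf |>.add
    (((PU.const 1).sub hq).mul hg)).congr (fun a => ?_)
  by_cases h : Q a
  · have h1 : q a ≠ 0 := (hQ a).mpr h
    rw [if_pos h]
    have h2 : 1 - q a = 0 := by omega
    rw [h2]
    simp
  · have h1 : q a = 0 := by
      by_contra h1
      exact h ((hQ a).mp h1)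
    rw [if_neg h, h1]
    simp

theorem PU.ind {Q : α → Prop} [∀ a, Decidable (Q a)] (hQ : PP Q) :
    PU (fun a => if Q a then 1 else 0) := PU.ite hQ (PU.const 1) (PU.const 0)

/-- Bounded counting. -/
theorem PU.count {n : α → ℕ} {Q : α → ℕ → Prop} [∀ a i, Decidable (Q a i)] (hn : PU n)
    (hQ : PP (fun p : α × ℕ => Q p.1 p.2)) :
    PU (fun a => ((range (n a)).filter (Q a)).card) := by
  refine (PU.sum (f := fun a i => if Q a i then 1 else 0) hn (PU.ind hQ)).congr (fun a => ?_)
  rw [Finset.card_filter]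

/-- Bounded search: the least `i < n` with the property, and `n` if there is none. -/
def mu0 (n : ℕ) (Q : ℕ → Prop) [DecidablePred Q] : ℕ :=
  ((range n).filter (fun i => ∀ k < i + 1, ¬ Q k)).card

theorem mu0_spec (n : ℕ) (Q : ℕ → Prop) [DecidablePred Q] (h : ∃ i < n, Q i) :
    Q (mu0 n Q) ∧ mu0 n Q < n := by
  have h' : ∃ i, Q i := by
    obtain ⟨i, _, hi⟩ := h
    exact ⟨i, hi⟩
  have h1 : mu0 n Q = Nat.find h' := by
    unfold mu0
    have h2 : (range n).filter (fun i => ∀ k < i + 1, ¬ Q k) = range (Nat.find h') := by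
      ext i
      simp only [Finset.mem_filter, Finset.mem_range]
      constructor
      · rintro ⟨_, h2⟩
        by_contra h3
        exact h2 (Nat.find h') (by omega) (Nat.find_spec h')
      · intro h2
        obtain ⟨m, hm, hm2⟩ := h
        have h3 : Nat.find h' ≤ m := Nat.find_min' h' hm2
        refine ⟨by omega, fun k hk => Nat.find_min h' (by omega)⟩
    rw [h2, Finset.card_range]
  rw [h1]
  refine ⟨Nat.find_spec h', ?_⟩
  obtain ⟨m, hm, hm2⟩ := h
  exact (Nat.find_min' h' hm2).trans_lt hm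

theorem mu0_eq (n : ℕ) (Q : ℕ → Prop) [DecidablePred Q] (m : ℕ) (hm : m < n) (h : Q m)
    (h2 : ∀ i < m, ¬ Q i) : mu0 n Q = m := by
  unfold mu0
  have : (range n).filter (fun i => ∀ k < i + 1, ¬ Q k) = range m := by
    ext i
    simp only [Finset.mem_filter, Finset.mem_range]
    constructor
    · rintro ⟨_, h3⟩
      by_contra h4
      exact h3 m (by omega) h
    · intro h3
      exact ⟨by omega, fun k hk => h2 k (by omega)⟩
  rw [this, Finset.card_range]

theorem PP.mid {Q : α → ℕ → Prop} (h : PP (fun p : α × ℕ => Q p.1 p.2)) :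
    PP (fun p : (α × ℕ) × ℕ => Q p.1.1 p.2) := by
  obtain ⟨f, hf, hQ⟩ := h
  exact ⟨fun p => f (p.1.1, p.2), PU.mid (f := fun a k => f (a, k)) hf,
    fun p => hQ (p.1.1, p.2)⟩

theorem PP.subst {Q : α → ℕ → Prop} {g : α → ℕ} (h : PP (fun p : α × ℕ => Q p.1 p.2))
    (hg : PU g) : PP (fun a => Q a (g a)) := by
  obtain ⟨f, hf, hQ⟩ := h
  exact ⟨fun a => f (a, g a), PU.subst (f := fun a k => f (a, k)) hf hg,
    fun a => hQ (a, g a)⟩

theorem PU.mu0 {n : α → ℕ} {Q : α → ℕ → Prop} [∀ a, DecidablePred (Q a)] (hn : PU n)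
    (hQ : PP (fun p : α × ℕ => Q p.1 p.2)) : PU (fun a => mu0 (n a) (Q a)) :=
  PU.count (Q := fun a i => ∀ k < i + 1, ¬ Q a k) hn
    (PP.allLt (α := α × ℕ) (n := fun p => p.2 + 1) (Q := fun p k => ¬ Q p.1 k)
      (PU.snd.add (PU.const 1)) hQ.mid.not)

theorem PU.div {f g : α → ℕ} (hf : PU f) (hg : PU g) : PU (fun a => f a / g a) := by
  refine (PU.count (Q := fun a i => 0 < g a ∧ (i + 1) * g a ≤ f a) hf
    (((PP.lt (PU.const 0) hg).wk).and
      (PP.le ((PU.snd.add (PU.const 1)).mul hg.wk) hf.wk))).congr (fun a => ?_)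
  rcases Nat.eq_zero_or_pos (g a) with h | h
  · simp [h]
  · have : (range (f a)).filter (fun i => 0 < g a ∧ (i + 1) * g a ≤ f a) =
        range (f a / g a) := by
      ext i
      simp only [Finset.mem_filter, Finset.mem_range]
      rw [← Nat.le_div_iff_mul_le h]
      constructor
      · rintro ⟨_, _, h2⟩
        omega
      · intro h2
        have := Nat.div_le_self (f a) (g a)
        exact ⟨by omega, h, by omega⟩
    rw [this, Finset.card_range]

theorem PU.mod {f g : α → ℕ} (hf : PU f) (hg : PU g) : PU (fun a => f a % g a) :=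
  (hf.sub (hg.mul (hf.div hg))).congr (fun a => by
    have := Nat.mod_add_div (f a) (g a)
    omega)

theorem PP.dvd {f g : α → ℕ} (hf : PU f) (hg : PU g) : PP (fun a => f a ∣ g a) :=
  (PP.eq (hg.mod hf) (PU.const 0)).congr (fun _ => (Nat.dvd_iff_mod_eq_zero).symm)

theorem PP.prime {f : α → ℕ} (hf : PU f) : PP (fun a => Nat.Prime (f a)) := by
  refine ((PP.le (PU.const 2) hf).and (PP.allLt (Q := fun a i => 2 ≤ i → ¬ i ∣ f a) hf
    ((PP.le (PU.const 2) PU.snd).imp (PP.dvd PU.snd hf.wk).not))).congr (fun a => ?_)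
  rw [Nat.prime_def_lt']
  constructor
  · rintro ⟨h1, h2⟩
    exact ⟨h1, fun m hm hm2 => h2 m hm2 hm⟩
  · rintro ⟨h1, h2⟩
    exact ⟨h1, fun m hm hm2 => h2 m hm2 hm⟩

/-- Tables. -/
theorem PU.table {f : α → ℕ} (hf : PU f) (T : ℕ → ℕ) (m : ℕ) :
    PU (fun a => if f a < m then T (f a) else 0) := by
  induction m with
  | zero => exact (PU.const 0).congr (fun a => by simp)
  | succ m ih =>
    refine (ih.add (PU.ite (PP.eq hf (PU.const m)) (PU.const (T m)) (PU.const 0))).congr
      (fun a => ?_)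
    by_cases h : f a < m
    · have h2 : f a < m + 1 := by omega
      have h3 : f a ≠ m := by omega
      simp [h, h2, h3]
    · by_cases h3 : f a = m
      · simp [h3]
      · have h2 : ¬ f a < m + 1 := by omega
        simp [h, h2, h3]

theorem PP.table {f : α → ℕ} (hf : PU f) (T : ℕ → Prop) (m : ℕ) :
    PP (fun a => f a < m ∧ T (f a)) := by
  classical
  refine ⟨fun a => if f a < m then (if T (f a) then 1 else 0) else 0,
    PU.table hf (fun k => if T k then 1 else 0) m, fun a => ?_⟩
  by_cases h : f a < m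
  · by_cases h2 : T (f a)
    · simp [h, h2]
    · simp [h, h2]
  · simp [h]

theorem PU.poly {f : α → ℕ} (hf : PU f) (p : Polynomial ℕ) : PU (fun a => p.eval (f a)) := by
  induction p using Polynomial.induction_on' with
  | add p q hp hq => exact (hp.add hq).congr (fun a => by rw [Polynomial.eval_add])
  | monomial n c =>
    exact ((PU.const c).mul (hf.pow n)).congr (fun a => by rw [Polynomial.eval_monomial])

theorem PU.max {f g : α → ℕ} (hf : PU f) (hg : PU g) : PU (fun a => max (f a) (g a)) :=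
  (hf.add (hg.sub hf)).congr (fun a => by omega)

/-- Clear the input. -/
def clearP : P := .whl (some .inp) isS (.pop (some .inp))

theorem exec_clear (j e r a b : List Bool) (o : List Computability.Γ') (i : List Bool) :
    ExecLe clearP (st i j e r a b o) (2 * i.length + 1) (st [] j e r a b o) := by
  induction i with
  | nil => exact ExecLe.whl_done rfl
  | cons c i ih =>
    have h1 := ExecLe.pop (some .inp) (st (c :: i) j e r a b o)
    rw [upd_inp] at h1
    exact (ExecLe.whl_step rfl h1 ih).mono (by simp only [List.length_cons]; omega)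

theorem mu_list (w : List Bool) : mu w = w.length + 2 := by
  simp [mu, Ctx.inp, Ctx.vals]

/-- Functions whose output is a concatenation of blocks given by a unary polynomial time
function are computable in polynomial time on Turing machines. -/
theorem polytime {β : Type} (l : List Bool → ℕ) (B : List Bool → ℕ → ℕ)
    (tb : List (List Computability.Γ')) (hl : PU l) (hB : PU (fun p : List Bool × ℕ => B p.1 p.2))
    (eb : β → List Computability.Γ') (f : List Bool → β)
    (hf : ∀ w, eb (f w) = (List.range (l w)).flatMap (fun i => tb.getD (B w i) [])) :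
    Nonempty (Turing.TM2ComputableInPolyTime (id : List Bool → List Bool) eb f) := by
  have hbl := hl.bound
  have hbB := hB.bound
  obtain ⟨p, t, ht, hp⟩ := hl
  obtain ⟨p', t', ht', hp'⟩ := hB
  obtain ⟨T, hT, hTb⟩ := ht'.unif hbl
  obtain ⟨F, hF, hFb⟩ := hbB.unif hbl
  let body : P := .seq predP (.seq p' (emitP tb))
  let cst : List Bool → ℕ := fun a => 2 + (T a + (2 * F a + tblSize tb))
  let prog : P := .seq p (.seq dupP (.seq (loopP body) (.seq dropP clearP)))
  let cost : List Bool → ℕ := fun a => t a + ((10 * l a + 10) + ((l a * (cst a + 2) +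
    (3 * l a + 5)) + (2 + (2 * mu a + 1))))
  have hcst : PolyB cst := (PolyB.const 2).add (hT.add (((PolyB.const 2).mul hF).add
    (PolyB.const _)))
  have hcost : PolyB cost := ht.add ((((PolyB.const 10).mul hbl).add (PolyB.const 10)).add
    (((hbl.mul (hcst.add (PolyB.const 2))).add (((PolyB.const 3).mul hbl).add
      (PolyB.const 5))).add ((PolyB.const 2).add (((PolyB.const 2).mul PolyB.size).add
        (PolyB.const 1)))))
  obtain ⟨d, hd⟩ := hcost
  refine polytime_of_exec (some B6.inp) none prog (id : List Bool → List Bool) eb f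
    ((Polynomial.X + 2) ^ d) (fun w => ?_)
  have h1 := hp w [] [] []
  have h2 := does_dup (w := w) (n := l w) (s := []) (o := []) []
  have h3 := does_loop (w := w) (p := body) (l w) (fun k => [l w - k])
    (fun k => (List.range' (l w - k) k).flatMap (fun i => tb.getD (B w i) [])) (fun _ => cst w) (by
      intro k hk
      have e1 := does_pred (w := w) (n := l w - k) (s := [])
        (o := (List.range' (l w - k) k).flatMap (fun i => tb.getD (B w i) []))
      have e2 := hp' (w, l w - k - 1) []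
        ((List.range' (l w - k) k).flatMap (fun i => tb.getD (B w i) []))
      have e3 := does_emit (w := w) (s := [l w - k - 1])
        (o := (List.range' (l w - k) k).flatMap (fun i => tb.getD (B w i) [])) tb
        (B w (l w - k - 1))
      have e4 := e1.seq (e2.seq e3)
      have e5 : l w - (k + 1) = l w - k - 1 := by omega
      have e6 : l w - k - 1 + 1 = l w - k := by omega
      have e7 : (List.range' (l w - (k + 1)) (k + 1)).flatMap (fun i => tb.getD (B w i) []) =
          tb.getD (B w (l w - k - 1)) [] ++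
          (List.range' (l w - k) k).flatMap (fun i => tb.getD (B w i) []) := by
        rw [e5, List.range'_succ, e6, List.flatMap_cons]
      rw [e7, e5]
      refine e4.mono ?_
      have b1 := hTb w (l w - k - 1) (by omega)
      have b2 := hFb w (l w - k - 1) (by omega)
      simp only [cst]
      simp only at b1 b2
      omega)
  rw [Finset.sum_const, Finset.card_range, smul_eq_mul] at h3
  simp only [Nat.sub_zero, Nat.sub_self] at h3
  have h4 := does_drop (w := w) (n := 0) (s := [])
    (o := (List.range' 0 (l w)).flatMap (fun i => tb.getD (B w i) [])) []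
  have h5 := exec_clear [] [] [] [] []
    ((List.range' 0 (l w)).flatMap (fun i => tb.getD (B w i) [])) w
  have h6 := h1.seq (h2.seq ((h3 []).seq (h4.seq h5)))
  have h7 := h6.mono (m := (w.length + 2) ^ d) (by
    refine le_trans ?_ ((hd w).trans (by rw [mu_list]))
    simp only [cost]
    rw [mu_list]
    omega)
  obtain ⟨n, hn, hx⟩ := h7
  refine ⟨n, ?_, ?_⟩
  · simpa using hn
  · have a1 : (Function.update (fun _ => []) (some B6.inp) (id w) : St) =
        st w [] (enc []) [] [] [] [] := by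
      funext k; rcases k with _ | k
      · rfl
      · cases k <;> rfl
    have a2 : (Function.update (fun _ => []) none (eb (f w)) : St) =
        st [] [] [] [] [] []
          ((List.range' 0 (l w)).flatMap (fun i => tb.getD (B w i) [])) := by
      rw [hf w, List.range_eq_range']
      funext k; rcases k with _ | k
      · rfl
      · cases k <;> rfl
    rw [a1, a2]
    exact hx

end Pool.Agent.Helper68.Una
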