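import Mathlib

/-!
Structured programs on stacks, with a cost semantics, and their translation to the Turing
machines `Turing.FinTM2` of Mathlib.
-/

set_option autoImplicit false

namespace Pool.Agent.Helper68.SP

open Turing

/-- Structured programs on stacks. -/
inductive Prog {K : Type} (Γ : K → Type) : Type
  | skip : Prog Γ
  | push (k : K) (a : Γ k) : Prog Γ
  | pop (k : K) : Prog Γ
  | seq : Prog Γ → Prog Γ → Prog Γ
  | ite (k : K) (t : Option (Γ k) → Bool) : Prog Γ → Prog Γ → Prog Γ
  | whl (k : K) (t : Option (Γ k) → Bool) : Prog Γ → Prog Γ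

variable {K : Type} [DecidableEq K] {Γ : K → Type}

/-- Big step semantics with the number of steps. -/
inductive Exec : Prog Γ → (∀ k, List (Γ k)) → ℕ → (∀ k, List (Γ k)) → Prop
  | skip (S : ∀ k, List (Γ k)) : Exec .skip S 1 S
  | push (k : K) (a : Γ k) (S : ∀ k, List (Γ k)) :
      Exec (.push k a) S 1 (Function.update S k (a :: S k))
  | pop (k : K) (S : ∀ k, List (Γ k)) :
      Exec (.pop k) S 1 (Function.update S k (S k).tail)
  | seq (p q : Prog Γ) (S S' S'' : ∀ k, List (Γ k)) (n m : ℕ) (h1 : Exec p S n S')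
      (h2 : Exec q S' m S'') : Exec (.seq p q) S (n + m) S''
  | ite_true (k : K) (t : Option (Γ k) → Bool) (p q : Prog Γ) (S S' : ∀ k, List (Γ k)) (n : ℕ)
      (ht : t (S k).head? = true) (h : Exec p S n S') : Exec (.ite k t p q) S (n + 1) S'
  | ite_false (k : K) (t : Option (Γ k) → Bool) (p q : Prog Γ) (S S' : ∀ k, List (Γ k)) (n : ℕ)
      (ht : t (S k).head? = false) (h : Exec q S n S') : Exec (.ite k t p q) S (n + 1) S'
  | whl_true (k : K) (t : Option (Γ k) → Bool) (p : Prog Γ) (S S' S'' : ∀ k, List (Γ k))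
      (n m : ℕ) (ht : t (S k).head? = true) (h1 : Exec p S n S')
      (h2 : Exec (.whl k t p) S' m S'') : Exec (.whl k t p) S (n + m + 1) S''
  | whl_false (k : K) (t : Option (Γ k) → Bool) (p : Prog Γ) (S : ∀ k, List (Γ k))
      (ht : t (S k).head? = false) : Exec (.whl k t p) S 1 S

/-- Labels of a program. -/
def Lbl : Prog Γ → Type
  | .skip => Unit
  | .push _ _ => Unit
  | .pop _ => Unit
  | .seq p q => Lbl p ⊕ Lbl q
  | .ite _ _ p q => Option (Lbl p ⊕ Lbl q)
  | .whl _ _ p => Option (Lbl p)

/-- Labels form a finite type. -/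
@[reducible] def lblFintype : (p : Prog Γ) → Fintype (Lbl p)
  | .skip => (inferInstance : Fintype Unit)
  | .push _ _ => (inferInstance : Fintype Unit)
  | .pop _ => (inferInstance : Fintype Unit)
  | .seq p q =>
    have := lblFintype p
    have := lblFintype q
    (inferInstance : Fintype (Lbl p ⊕ Lbl q))
  | .ite _ _ p q =>
    have := lblFintype p
    have := lblFintype q
    (inferInstance : Fintype (Option (Lbl p ⊕ Lbl q)))
  | .whl _ _ p =>
    have := lblFintype p
    (inferInstance : Fintype (Option (Lbl p)))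

/-- Entry label. -/
def entry : (p : Prog Γ) → Lbl p
  | .skip => ()
  | .push _ _ => ()
  | .pop _ => ()
  | .seq p _ => Sum.inl (entry p)
  | .ite _ _ _ _ => none
  | .whl _ _ _ => none

/-- The machine code of a program. -/
def code {Λ : Type} : (p : Prog Γ) → (Lbl p → Λ) → Λ → Lbl p → TM2.Stmt Γ Λ Bool
  | .skip, _, ex, _ => .goto (fun _ => ex)
  | .push k a, _, ex, _ => .push k (fun _ => a) (.goto (fun _ => ex))
  | .pop k, _, ex, _ => .pop k (fun v _ => v) (.goto (fun _ => ex))
  | .seq p q, emb, ex, l =>
    match l with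
    | .inl l => code p (fun x => emb (.inl x)) (emb (.inr (entry q))) l
    | .inr l => code q (fun x => emb (.inr x)) ex l
  | .ite k t p q, emb, ex, l =>
    match l with
    | none => .peek k (fun _ o => t o) (.branch (fun v => v)
        (.goto (fun _ => emb (some (.inl (entry p)))))
        (.goto (fun _ => emb (some (.inr (entry q))))))
    | some (.inl l) => code p (fun x => emb (some (.inl x))) ex l
    | some (.inr l) => code q (fun x => emb (some (.inr x))) ex l
  | .whl k t p, emb, ex, l =>
    match l with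
    | none => .peek k (fun _ o => t o) (.branch (fun v => v)
        (.goto (fun _ => emb (some (entry p))))
        (.goto (fun _ => ex)))
    | some l => code p (fun x => emb (some x)) (emb none) l

/-- `n` steps of the machine `m` lead from `c` to `c'`. -/
def Steps {Λ : Type} (m : Λ → TM2.Stmt Γ Λ Bool) (n : ℕ) (c c' : TM2.Cfg Γ Λ Bool) : Prop :=
  (flip bind (TM2.step m))^[n] (some c) = some c'

theorem Steps.trans {Λ : Type} {m : Λ → TM2.Stmt Γ Λ Bool} {n n' : ℕ}
    {c c' c'' : TM2.Cfg Γ Λ Bool} (h1 : Steps m n c c') (h2 : Steps m n' c' c'') :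
    Steps m (n + n') c c'' := by
  unfold Steps at *
  rw [Nat.add_comm, Function.iterate_add_apply, h1, h2]

theorem Steps.one {Λ : Type} {m : Λ → TM2.Stmt Γ Λ Bool} {l : Λ} {v : Bool}
    {S : ∀ k, List (Γ k)} {c' : TM2.Cfg Γ Λ Bool} (h : TM2.stepAux (m l) v S = c') :
    Steps m 1 ⟨some l, v, S⟩ c' := by
  unfold Steps
  simp only [Function.iterate_one, flip]
  change TM2.step m ⟨some l, v, S⟩ = some c'
  rw [TM2.step, h]

theorem sim {Λ : Type} (m : Λ → TM2.Stmt Γ Λ Bool) {p : Prog Γ} {S S' : ∀ k, List (Γ k)} {n : ℕ}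
    (h : Exec p S n S') : ∀ (emb : Lbl p → Λ) (ex : Λ), (∀ l, m (emb l) = code p emb ex l) →
    ∀ v, ∃ v', Steps m n ⟨some (emb (entry p)), v, S⟩ ⟨some ex, v', S'⟩ := by
  induction h with
  | skip S =>
    intro emb ex hm v
    refine ⟨v, Steps.one ?_⟩
    rw [hm]
    simp [code, TM2.stepAux]
  | push k a S =>
    intro emb ex hm v
    refine ⟨v, Steps.one ?_⟩
    rw [hm]
    simp [code, TM2.stepAux]
  | pop k S =>
    intro emb ex hm v
    refine ⟨v, Steps.one ?_⟩
    rw [hm]
    simp [code, TM2.stepAux]
  | seq p q S S' S'' n m' h1 h2 ih1 ih2 =>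
    intro emb ex hm v
    obtain ⟨v1, s1⟩ := ih1 (fun x => emb (.inl x)) (emb (.inr (entry q)))
      (fun l => hm (Sum.inl l)) v
    obtain ⟨v2, s2⟩ := ih2 (fun x => emb (.inr x)) ex (fun l => hm (Sum.inr l)) v1
    exact ⟨v2, s1.trans s2⟩
  | ite_true k t p q S S' n ht h ih =>
    intro emb ex hm v
    obtain ⟨v1, s1⟩ := ih (fun x => emb (some (.inl x))) ex (fun l => hm (some (Sum.inl l))) true
    refine ⟨v1, ?_⟩
    rw [Nat.add_comm]
    refine Steps.trans (Steps.one ?_) s1
    rw [hm]
    simp [code, entry, TM2.stepAux, ht]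
  | ite_false k t p q S S' n ht h ih =>
    intro emb ex hm v
    obtain ⟨v1, s1⟩ := ih (fun x => emb (some (.inr x))) ex (fun l => hm (some (Sum.inr l))) false
    refine ⟨v1, ?_⟩
    rw [Nat.add_comm]
    refine Steps.trans (Steps.one ?_) s1
    rw [hm]
    simp [code, entry, TM2.stepAux, ht]
  | whl_true k t p S S' S'' n m' ht h1 h2 ih1 ih2 =>
    intro emb ex hm v
    obtain ⟨v1, s1⟩ := ih1 (fun x => emb (some x)) (emb none) (fun l => hm (some l)) true
    obtain ⟨v2, s2⟩ := ih2 emb ex hm v1
    refine ⟨v2, ?_⟩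
    rw [Nat.add_comm (n + m') 1]
    refine Steps.trans (Steps.one ?_) (s1.trans s2)
    rw [hm]
    simp [code, entry, TM2.stepAux, ht]
  | whl_false k t p S ht =>
    intro emb ex hm v
    refine ⟨false, Steps.one ?_⟩
    rw [hm]
    simp [code, entry, TM2.stepAux, ht]

/-- The Turing machine of a program, with input stack `k₀` and output stack `k₁`. -/
def machine [Fintype K] (k₀ k₁ : K) [Fintype (Γ k₀)] (p : Prog Γ) : FinTM2 :=
  have := lblFintype p
  { K := K
    k₀ := k₀
    k₁ := k₁
    Γ := Γ
    Λ := Option (Lbl p)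
    main := some (entry p)
    σ := Bool
    initialState := false
    m := fun l => match l with
      | none => .load (fun _ => false) .halt
      | some l => code p some none l }

theorem dite_update {K : Type} (inst : DecidableEq K) (Γ : K → Type) (k0 : K)
    (x : List (Γ k0)) :
    (fun k => @dite (List (Γ k)) (k = k0) (inst k k0) (fun h => by rw [h]; exact x) fun _ => [])
      = Function.update (fun _ => []) k0 x := by
  funext k
  by_cases h : k = k0
  · subst h
    simp
  · simp [h]

/-- If a program transforms the initial stacks to the final stacks in polynomial time then the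
function is computable in polynomial time. -/
theorem polytime_of_exec [Fintype K] (k₀ k₁ : K) [Fintype (Γ k₀)] (p : Prog Γ)
    {α β : Type} (ea : α → List (Γ k₀)) (eb : β → List (Γ k₁)) (f : α → β) (time : Polynomial ℕ)
    (h : ∀ a, ∃ n ≤ time.eval (ea a).length,
      Exec p (Function.update (fun _ => []) k₀ (ea a)) n
        (Function.update (fun _ => []) k₁ (eb (f a)))) :
    Nonempty (TM2ComputableInPolyTime ea eb f) := by
  classical
  refine ⟨{
    tm := machine k₀ k₁ p
    inputAlphabet := Equiv.refl _
    outputAlphabet := Equiv.refl _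
    time := time + 1
    outputsFun := fun a => ?_ }⟩
  have h1 := Classical.choose_spec (h a)
  set n := Classical.choose (h a)
  obtain ⟨hn, he⟩ := h1
  have hs := sim (machine k₀ k₁ p).m he some none (fun l => rfl) false
  refine ⟨⟨n + 1, ?_⟩, ?_⟩
  · obtain ⟨v', hs⟩ := hs
    have e1 : initList (machine k₀ k₁ p)
        (List.map (Equiv.refl (Γ k₀)).invFun (ea a)) =
        (⟨some (some (entry p)), false, Function.update (fun _ => []) k₀ (ea a)⟩ :
          TM2.Cfg Γ (Option (Lbl p)) Bool) := by
      have hm : (List.map (Equiv.refl (Γ k₀)).invFun (ea a)) = ea a := by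
        simp [Equiv.refl]
      refine (congrArg (initList (machine k₀ k₁ p)) hm).trans ?_
      unfold initList
      congr 1
      exact dite_update _ Γ k₀ (ea a)
    have e2 : haltList (machine k₀ k₁ p)
        (List.map (Equiv.refl (Γ k₁)).invFun (eb (f a))) =
        (⟨none, false, Function.update (fun _ => []) k₁ (eb (f a))⟩ :
          TM2.Cfg Γ (Option (Lbl p)) Bool) := by
      have hm : (List.map (Equiv.refl (Γ k₁)).invFun (eb (f a))) = eb (f a) := by
        simp [Equiv.refl]
      refine (congrArg (haltList (machine k₀ k₁ p)) hm).trans ?_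
      unfold haltList
      congr 1
      exact dite_update _ Γ k₁ (eb (f a))
    have hs2 := hs.trans (Steps.one (m := (machine k₀ k₁ p).m) (l := (none : Option (Lbl p)))
      (v := v') (S := Function.update (fun _ => []) k₁ (eb (f a)))
      (c' := ⟨none, false, Function.update (fun _ => []) k₁ (eb (f a))⟩) (by
        simp [machine, TM2.stepAux]))
    unfold Steps at hs2
    change (flip bind (TM2.step (machine k₀ k₁ p).m))^[n + 1]
      (some (initList (machine k₀ k₁ p)
        (List.map (Equiv.refl (Γ k₀)).invFun (ea a)))) =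
      some (haltList (machine k₀ k₁ p)
        (List.map (Equiv.refl (Γ k₁)).invFun (eb (f a))))
    rw [e1, e2]
    exact hs2
  · simp only [Polynomial.eval_add, Polynomial.eval_one]
    omega

end Pool.Agent.Helper68.SP
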